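import Mathlib

/-!
Hard-core model on a finite graph with small weights: if there are few (weighted) edges then
the expected size of a random independent set is almost at least the logarithm of the partition
function.
-/

namespace Pool.Agent.Lib.MP_349e33_co

open Finset

set_option linter.unusedSectionVars false

variable {V : Type*} [DecidableEq V] (G : SimpleGraph V) [DecidableRel G.Adj]

/-- The independent subsets of `J`. -/
def indep (J : Finset V) : Finset (Finset V) :=
  J.powerset.filter (fun I => ∀ x ∈ I, ∀ y ∈ I, ¬ G.Adj x y)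

theorem mem_indep {J I : Finset V} :
    I ∈ indep G J ↔ I ⊆ J ∧ ∀ x ∈ I, ∀ y ∈ I, ¬ G.Adj x y := by
  simp [indep]

/-- The partition function. -/
def pf (J : Finset V) (w : V → ℝ) : ℝ := ∑ I ∈ indep G J, ∏ u ∈ I, w u

/-- The unnormalised expected size. -/
def mf (J : Finset V) (w : V → ℝ) : ℝ := ∑ I ∈ indep G J, (I.card : ℝ) * ∏ u ∈ I, w u

variable {G}

theorem prod_nonneg_of_indep {J I : Finset V} {w : V → ℝ} (hw : ∀ u ∈ J, 0 ≤ w u)
    (hI : I ∈ indep G J) : 0 ≤ ∏ u ∈ I, w u :=
  prod_nonneg fun u hu => hw u (((mem_indep G).1 hI).1 hu)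

theorem one_le_pf {J : Finset V} {w : V → ℝ} (hw : ∀ u ∈ J, 0 ≤ w u) : 1 ≤ pf G J w := by
  have h : (∅ : Finset V) ∈ indep G J := by simp [mem_indep]
  calc (1 : ℝ) = ∏ u ∈ (∅ : Finset V), w u := by simp
    _ ≤ pf G J w := single_le_sum (f := fun I => ∏ u ∈ I, w u)
        (fun I hI => prod_nonneg_of_indep hw hI) h

theorem pf_le_exp {J : Finset V} {w : V → ℝ} (hw : ∀ u ∈ J, 0 ≤ w u) :
    pf G J w ≤ Real.exp (∑ u ∈ J, w u) := by
  calc pf G J w ≤ ∑ I ∈ J.powerset, ∏ u ∈ I, w u := by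
        apply sum_le_sum_of_subset_of_nonneg (filter_subset _ _)
        intro I hI _
        exact prod_nonneg fun u hu => hw u (mem_powerset.1 hI hu)
    _ = ∏ u ∈ J, (1 + w u) := by
        rw [prod_one_add]
    _ ≤ ∏ u ∈ J, Real.exp (w u) := by
        apply prod_le_prod
        · intro u hu
          have := hw u hu
          linarith
        · intro u _
          have := Real.add_one_le_exp (w u)
          linarith
    _ = Real.exp (∑ u ∈ J, w u) := by rw [Real.exp_sum]

/-- Mass of the independent sets containing `u`. -/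
def tf (G : SimpleGraph V) [DecidableRel G.Adj] (J : Finset V) (w : V → ℝ) (u : V) : ℝ :=
  ∑ I ∈ (indep G J).filter (fun I => u ∈ I), ∏ x ∈ I, w x

theorem mf_eq_sum_tf (J : Finset V) (w : V → ℝ) : mf G J w = ∑ u ∈ J, tf G J w u := by
  unfold mf tf
  simp_rw [sum_filter]
  rw [sum_comm]
  apply sum_congr rfl
  intro I hI
  rw [← sum_filter, sum_const, nsmul_eq_mul]
  congr 2
  have : J.filter (fun u => u ∈ I) = I := by
    ext x
    simp only [mem_filter]
    exact ⟨fun h => h.2, fun h => ⟨((mem_indep G).1 hI).1 h, h⟩⟩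
  rw [this]

theorem tf_eq {J : Finset V} {w : V → ℝ} {u : V} (hu : u ∈ J) :
    tf G J w u = w u * ∑ I ∈ (indep G J).filter (fun I => u ∉ I ∧ ∀ x ∈ I, ¬ G.Adj u x),
      ∏ x ∈ I, w x := by
  unfold tf
  rw [mul_sum]
  symm
  refine sum_bij' (fun I _ => insert u I) (fun I _ => I.erase u) ?_ ?_ ?_ ?_ ?_
  · intro I hI
    rw [mem_filter, mem_indep] at hI ⊢
    obtain ⟨⟨h1, h2⟩, h3, h4⟩ := hI
    refine ⟨⟨insert_subset hu h1, ?_⟩, mem_insert_self _ _⟩
    intro x hx y hy
    rw [mem_insert] at hx hy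
    rcases hx with rfl | hx
    · rcases hy with rfl | hy
      · exact G.loopless.irrefl _
      · exact h4 y hy
    · rcases hy with rfl | hy
      · exact fun h => h4 x hx h.symm
      · exact h2 x hx y hy
  · intro I hI
    rw [mem_filter, mem_indep] at hI ⊢
    obtain ⟨⟨h1, h2⟩, h3⟩ := hI
    refine ⟨⟨(erase_subset _ _).trans h1, ?_⟩, notMem_erase _ _, ?_⟩
    · intro x hx y hy
      exact h2 x (mem_of_mem_erase hx) y (mem_of_mem_erase hy)
    · intro x hx
      exact h2 u h3 x (mem_of_mem_erase hx)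
  · intro I hI
    rw [mem_filter] at hI
    exact erase_insert hI.2.1
  · intro I hI
    rw [mem_filter] at hI
    exact insert_erase hI.2
  · intro I hI
    rw [mem_filter] at hI
    rw [prod_insert hI.2.1]

theorem tf_nonneg {J : Finset V} {w : V → ℝ} (hw : ∀ u ∈ J, 0 ≤ w u) (u : V) :
    0 ≤ tf G J w u :=
  sum_nonneg fun _ hI => prod_nonneg_of_indep hw (mem_filter.1 hI).1

theorem tf_le {J : Finset V} {w : V → ℝ} (hw : ∀ u ∈ J, 0 ≤ w u) {u : V} (hu : u ∈ J) :
    tf G J w u ≤ w u * pf G J w := by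
  rw [tf_eq hu]
  apply mul_le_mul_of_nonneg_left _ (hw u hu)
  apply sum_le_sum_of_subset_of_nonneg (filter_subset _ _)
  intro I hI _
  exact prod_nonneg_of_indep hw hI

theorem le_tf {J : Finset V} {w : V → ℝ} (hw : ∀ u ∈ J, 0 ≤ w u) {u : V} (hu : u ∈ J) :
    w u * (pf G J w - w u * pf G J w - ∑ x ∈ J, if G.Adj u x then w x * pf G J w else 0) ≤
      tf G J w u := by
  rw [tf_eq hu]
  apply mul_le_mul_of_nonneg_left _ (hw u hu)
  have h1 : pf G J w ≤
      ∑ I ∈ (indep G J).filter (fun I => u ∉ I ∧ ∀ x ∈ I, ¬ G.Adj u x), ∏ x ∈ I, w x +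
      tf G J w u + ∑ x ∈ J, if G.Adj u x then tf G J w x else 0 := by
    unfold pf tf
    rw [sum_filter, sum_filter]
    have h2 : ∑ x ∈ J, (if G.Adj u x then
        ∑ I ∈ (indep G J).filter (fun I => x ∈ I), ∏ y ∈ I, w y else 0) =
        ∑ I ∈ indep G J, ∑ x ∈ J, if (G.Adj u x ∧ x ∈ I) then ∏ y ∈ I, w y else 0 := by
      rw [sum_comm]
      apply sum_congr rfl
      intro x _
      by_cases h : G.Adj u x
      · simp only [h, if_true, true_and]
        rw [sum_filter]
      · simp [h]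
    rw [h2, ← sum_add_distrib, ← sum_add_distrib]
    apply sum_le_sum
    intro I hI
    have hnn := prod_nonneg_of_indep hw hI
    have hnn2 : 0 ≤ ∑ x ∈ J, if (G.Adj u x ∧ x ∈ I) then ∏ y ∈ I, w y else 0 := by
      apply sum_nonneg
      intro x _
      split_ifs
      · exact hnn
      · exact le_rfl
    by_cases hu' : u ∈ I
    · simp only [hu', not_true, false_and, if_false, if_true]
      linarith
    · by_cases hx : ∀ x ∈ I, ¬ G.Adj u x
      · have : (u ∉ I ∧ ∀ x ∈ I, ¬ G.Adj u x) := ⟨hu', hx⟩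
        rw [if_pos this, if_neg hu']
        linarith
      · have hneg : ¬ (u ∉ I ∧ ∀ x ∈ I, ¬ G.Adj u x) := fun h => hx h.2
        rw [if_neg hneg, if_neg hu']
        push Not at hx
        obtain ⟨x, hxI, hux⟩ := hx
        have h3 : ∏ y ∈ I, w y ≤ ∑ x ∈ J, if (G.Adj u x ∧ x ∈ I) then ∏ y ∈ I, w y else 0 := by
          calc ∏ y ∈ I, w y = if (G.Adj u x ∧ x ∈ I) then ∏ y ∈ I, w y else 0 := by
                rw [if_pos ⟨hux, hxI⟩]
            _ ≤ _ := by
                apply single_le_sum (f := fun x => if (G.Adj u x ∧ x ∈ I) then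
                  ∏ y ∈ I, w y else 0) _ (((mem_indep G).1 hI).1 hxI)
                intro x _
                split_ifs
                · exact hnn
                · exact le_rfl
        linarith
  have h4 : ∑ x ∈ J, (if G.Adj u x then tf G J w x else 0) ≤
      ∑ x ∈ J, if G.Adj u x then w x * pf G J w else 0 := by
    apply sum_le_sum
    intro x hx
    split_ifs
    · exact tf_le hw hx
    · exact le_rfl
  have h5 := tf_le (G := G) hw hu
  linarith

/-- Weighted number of (ordered) edges plus the diagonal. -/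
def ef (G : SimpleGraph V) [DecidableRel G.Adj] (A B : Finset V) (w : V → ℝ) : ℝ :=
  ∑ u ∈ A, ∑ x ∈ B, if G.Adj u x then w u * w x else 0

theorem ef_nonneg {A B : Finset V} {w : V → ℝ} (hA : ∀ u ∈ A, 0 ≤ w u)
    (hB : ∀ u ∈ B, 0 ≤ w u) : 0 ≤ ef G A B w := by
  apply sum_nonneg
  intro u hu
  apply sum_nonneg
  intro x hx
  split_ifs
  · exact mul_nonneg (hA u hu) (hB x hx)
  · exact le_rfl

theorem le_mf {J : Finset V} {w : V → ℝ} (hw : ∀ u ∈ J, 0 ≤ w u) :
    pf G J w * (∑ u ∈ J, w u - ∑ u ∈ J, w u ^ 2 - ef G J J w) ≤ mf G J w := by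
  rw [mf_eq_sum_tf]
  calc pf G J w * (∑ u ∈ J, w u - ∑ u ∈ J, w u ^ 2 - ef G J J w)
      = ∑ u ∈ J, w u * (pf G J w - w u * pf G J w -
          ∑ x ∈ J, if G.Adj u x then w x * pf G J w else 0) := by
        unfold ef
        rw [mul_sub, mul_sub, mul_sum, mul_sum, mul_sum, ← sum_sub_distrib, ← sum_sub_distrib]
        apply sum_congr rfl
        intro u _
        rw [mul_sub, mul_sub, mul_sum, mul_sum]
        congr 1
        · ring
        · apply sum_congr rfl
          intro x _
          split_ifs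
          · ring
          · ring
    _ ≤ ∑ u ∈ J, tf G J w u := sum_le_sum fun u hu => le_tf hw hu

/-- Scaling monotonicity of the expected size. -/
theorem sum_scale_mono {ι : Type*} (T : Finset ι) (k : ι → ℕ) (a : ι → ℝ)
    (ha : ∀ i ∈ T, 0 ≤ a i) {s : ℝ} (hs0 : 0 ≤ s) (hs1 : s ≤ 1) :
    (∑ i ∈ T, (k i : ℝ) * (s ^ k i * a i)) * (∑ i ∈ T, a i) ≤
      (∑ i ∈ T, (k i : ℝ) * a i) * (∑ i ∈ T, s ^ k i * a i) := by
  rw [← sub_nonneg, sum_mul_sum, sum_mul_sum, ← sum_sub_distrib]
  simp_rw [← sum_sub_distrib]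
  set f : ι → ι → ℝ := fun i j => (k i : ℝ) * a i * (s ^ k j * a j) -
    (k i : ℝ) * (s ^ k i * a i) * a j with hf
  have h1 : ∑ i ∈ T, ∑ j ∈ T, f i j = ∑ i ∈ T, ∑ j ∈ T, f j i := by
    rw [sum_comm]
  have h2 : 0 ≤ ∑ i ∈ T, ∑ j ∈ T, (f i j + f j i) := by
    apply sum_nonneg
    intro i hi
    apply sum_nonneg
    intro j hj
    have h3 : f i j + f j i = ((k i : ℝ) - k j) * (s ^ k j - s ^ k i) * (a i * a j) := by
      simp only [hf]
      ring
    rw [h3]
    apply mul_nonneg _ (mul_nonneg (ha i hi) (ha j hj))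
    rcases le_total (k i) (k j) with h | h
    · have h4 : (k i : ℝ) ≤ k j := by exact_mod_cast h
      have h5 : s ^ k j ≤ s ^ k i := pow_le_pow_of_le_one hs0 hs1 h
      exact mul_nonneg_of_nonpos_of_nonpos (by linarith) (by linarith)
    · have h4 : (k j : ℝ) ≤ k i := by exact_mod_cast h
      have h5 : s ^ k i ≤ s ^ k j := pow_le_pow_of_le_one hs0 hs1 h
      exact mul_nonneg (by linarith) (by linarith)
  have h6 : ∑ i ∈ T, ∑ j ∈ T, (f i j + f j i) = 2 * ∑ i ∈ T, ∑ j ∈ T, f i j := by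
    simp_rw [sum_add_distrib]
    rw [← h1]
    ring
  rw [h6] at h2
  linarith

theorem scale_mono {J : Finset V} {w : V → ℝ} (hw : ∀ u ∈ J, 0 ≤ w u) {s : ℝ} (hs0 : 0 ≤ s)
    (hs1 : s ≤ 1) :
    mf G J (fun u => s * w u) * pf G J w ≤ mf G J w * pf G J (fun u => s * w u) := by
  have h := sum_scale_mono (indep G J) (fun I => I.card) (fun I => ∏ u ∈ I, w u)
    (fun I hI => prod_nonneg_of_indep hw hI) hs0 hs1
  have e1 : mf G J (fun u => s * w u) =
      ∑ I ∈ indep G J, (I.card : ℝ) * (s ^ I.card * ∏ u ∈ I, w u) := by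
    unfold mf
    apply sum_congr rfl
    intro I _
    rw [prod_mul_distrib, prod_const]
  have e2 : pf G J (fun u => s * w u) =
      ∑ I ∈ indep G J, (s ^ I.card * ∏ u ∈ I, w u) := by
    unfold pf
    apply sum_congr rfl
    intro I _
    rw [prod_mul_distrib, prod_const]
  rw [e1, e2]
  exact h

/-- The key inequality. -/
theorem key_ineq {J : Finset V} {w : V → ℝ} (hw : ∀ u ∈ J, 0 ≤ w u) {W₀ η y : ℝ}
    (hy : 1 ≤ y) (hyW : 1 + Real.log y ≤ W₀)
    (hE : ∀ s : ℝ, 0 ≤ s → s ≤ 1 → ∑ u ∈ J, s * w u ≤ W₀ →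
      ∑ u ∈ J, (s * w u) ^ 2 + ef G J J (fun u => s * w u) ≤ η) :
    (1 + Real.log y - η) * pf G J w - y ≤ mf G J w := by
  have hlog : 0 ≤ Real.log y := Real.log_nonneg hy
  have hW₀ : 0 < W₀ := by linarith
  have hZ1 := one_le_pf (G := G) hw
  have hZpos : 0 < pf G J w := by linarith
  rcases le_or_gt (∑ u ∈ J, w u) W₀ with h | h
  · have h1 := hE 1 zero_le_one le_rfl (by simpa using h)
    simp only [one_mul] at h1
    have h2 := le_mf (G := G) hw
    have h3 : Real.log (pf G J w) ≤ ∑ u ∈ J, w u := by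
      rw [Real.log_le_iff_le_exp hZpos]
      exact pf_le_exp hw
    have h4 : pf G J w * Real.log y + pf G J w - y ≤ pf G J w * Real.log (pf G J w) := by
      have h5 : Real.log (y / pf G J w) ≤ y / pf G J w - 1 :=
        Real.log_le_sub_one_of_pos (by positivity)
      rw [Real.log_div (by positivity) (by positivity)] at h5
      have h6 := mul_le_mul_of_nonneg_left h5 hZpos.le
      have h7 : pf G J w * (y / pf G J w - 1) = y - pf G J w := by
        field_simp
      rw [h7] at h6
      nlinarith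
    have h8 : pf G J w * (Real.log (pf G J w) - η) ≤
        pf G J w * (∑ u ∈ J, w u - ∑ u ∈ J, w u ^ 2 - ef G J J w) := by
      apply mul_le_mul_of_nonneg_left _ hZpos.le
      linarith
    nlinarith
  · set W := ∑ u ∈ J, w u with hW
    have hWpos : 0 < W := hW₀.trans h
    set s := W₀ / W with hs
    have hs0 : 0 ≤ s := by positivity
    have hs1 : s ≤ 1 := by
      rw [hs, div_le_one hWpos]; exact h.le
    have hsW : ∑ u ∈ J, s * w u = W₀ := by
      rw [← mul_sum, ← hW, hs]
      field_simp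
    have hw' : ∀ u ∈ J, 0 ≤ s * w u := fun u hu => mul_nonneg hs0 (hw u hu)
    have h1 := hE s hs0 hs1 hsW.le
    have h2 := le_mf (G := G) hw'
    rw [hsW] at h2
    have hZs1 := one_le_pf (G := G) hw'
    have hZspos : 0 < pf G J (fun u => s * w u) := by linarith
    have h3 : pf G J (fun u => s * w u) * (W₀ - η) ≤ mf G J (fun u => s * w u) := by
      refine le_trans ?_ h2
      apply mul_le_mul_of_nonneg_left _ hZspos.le
      linarith
    have h4 := scale_mono (G := G) hw hs0 hs1
    have h5 : (pf G J (fun u => s * w u) * (W₀ - η)) * pf G J w ≤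
        mf G J w * pf G J (fun u => s * w u) :=
      (mul_le_mul_of_nonneg_right h3 hZpos.le).trans h4
    have h6 : (W₀ - η) * pf G J w ≤ mf G J w := by
      have : ((W₀ - η) * pf G J w) * pf G J (fun u => s * w u) ≤
          mf G J w * pf G J (fun u => s * w u) := by
        calc ((W₀ - η) * pf G J w) * pf G J (fun u => s * w u)
            = (pf G J (fun u => s * w u) * (W₀ - η)) * pf G J w := by ring
          _ ≤ _ := h5
      exact le_of_mul_le_mul_right this hZspos
    have h7 : (1 + Real.log y - η) * pf G J w ≤ (W₀ - η) * pf G J w := by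
      apply mul_le_mul_of_nonneg_right _ hZpos.le
      linarith
    linarith

end Pool.Agent.Lib.MP_349e33_co
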