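import Mathlib
import Pool.Agent.Lib.MP_349e33_co.HardCore

/-!
A weighted version of the Kővári–Sós–Turán theorem.
-/

namespace Pool.Agent.Lib.MP_349e33_co

open Finset

set_option linter.unusedSectionVars false

variable {V : Type*} [DecidableEq V] {G : SimpleGraph V} [DecidableRel G.Adj]

theorem edge_bound (s t : ℕ) (w : V → ℝ) (ω W₀ : ℝ) (hω0 : 0 ≤ ω) (hω1 : ω ≤ 1)
    (hW₀ : 1 ≤ W₀) : ∀ A B : Finset V,
    (∀ u ∈ A, 0 ≤ w u ∧ w u ≤ ω) → (∀ u ∈ B, 0 ≤ w u ∧ w u ≤ ω) →
    ∑ u ∈ A, w u ≤ W₀ → ∑ u ∈ B, w u ≤ W₀ →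
    (∀ S ⊆ B, S.card = s → ∀ T ⊆ A, T.card = t → ∃ x ∈ S, ∃ u ∈ T, ¬ G.Adj u x) →
    ef G A B w ≤ (t + 2) * W₀ ^ 2 * ω ^ ((1 / 2 : ℝ) ^ s) := by
  have hW₀0 : 0 ≤ W₀ := by linarith
  induction s with
  | zero =>
    intro A B hA hB hWA hWB hfree
    have hcard : A.card < t := by
      by_contra hcon
      rw [not_lt] at hcon
      obtain ⟨T, hT, hTc⟩ := exists_subset_card_eq hcon
      obtain ⟨x, hx, _⟩ := hfree ∅ (empty_subset _) rfl T hT hTc
      exact absurd hx (notMem_empty x)
    have h1 : ef G A B w ≤ ∑ u ∈ A, ω * W₀ := by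
      apply sum_le_sum
      intro u hu
      calc ∑ x ∈ B, (if G.Adj u x then w u * w x else 0) ≤ ∑ x ∈ B, w u * w x := by
            apply sum_le_sum
            intro x hx
            split_ifs
            · exact le_rfl
            · exact mul_nonneg (hA u hu).1 (hB x hx).1
        _ = w u * ∑ x ∈ B, w x := by rw [mul_sum]
        _ ≤ ω * W₀ := by
            apply mul_le_mul (hA u hu).2 hWB (sum_nonneg fun x hx => (hB x hx).1) hω0
    rw [sum_const, nsmul_eq_mul] at h1
    refine h1.trans ?_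
    rw [pow_zero, Real.rpow_one]
    have h2 : (A.card : ℝ) ≤ t + 2 := by
      have : A.card ≤ t + 2 := by omega
      exact_mod_cast this
    have h3 : 0 ≤ ω * W₀ := by positivity
    calc (A.card : ℝ) * (ω * W₀) ≤ (t + 2) * (ω * W₀) := mul_le_mul_of_nonneg_right h2 h3
      _ ≤ (t + 2) * (ω * W₀ ^ 2) := by
          apply mul_le_mul_of_nonneg_left _ (by positivity)
          apply mul_le_mul_of_nonneg_left _ hω0
          nlinarith
      _ = (t + 2) * W₀ ^ 2 * ω := by ring
  | succ s ih =>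
    intro A B hA hB hWA hWB hfree
    set b : ℝ := (t + 2) * W₀ ^ 2 * ω ^ ((1 / 2 : ℝ) ^ s) with hb
    have hdef : ∀ x ∈ B, ef G (A.filter (fun u => G.Adj u x)) B w ≤ b + ω * W₀ := by
      intro x hx
      have hAx : A.filter (fun u => G.Adj u x) ⊆ A := filter_subset _ _
      have h1 : ef G (A.filter (fun u => G.Adj u x)) (B.erase x) w ≤ b := by
        apply ih
        · exact fun u hu => hA u (hAx hu)
        · exact fun u hu => hB u (mem_of_mem_erase hu)
        · exact (sum_le_sum_of_subset_of_nonneg hAx fun u hu _ => (hA u hu).1).trans hWA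
        · exact (sum_le_sum_of_subset_of_nonneg (erase_subset _ _)
            fun u hu _ => (hB u hu).1).trans hWB
        · intro S hS hSc T hT hTc
          have hxS : x ∉ S := fun h => notMem_erase x B (hS h)
          obtain ⟨y, hy, u, hu, huy⟩ := hfree (insert x S)
            (insert_subset hx (hS.trans (erase_subset _ _)))
            (by rw [card_insert_of_notMem hxS, hSc]) T (hT.trans hAx) hTc
          rw [mem_insert] at hy
          rcases hy with rfl | hy
          · exact absurd (mem_filter.1 (hT hu)).2 huy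
          · exact ⟨y, hy, u, hu, huy⟩
      have h2 : ef G (A.filter (fun u => G.Adj u x)) B w =
          ef G (A.filter (fun u => G.Adj u x)) (B.erase x) w +
            ∑ u ∈ A.filter (fun u => G.Adj u x), w u * w x := by
        unfold ef
        rw [← sum_add_distrib]
        apply sum_congr rfl
        intro u hu
        rw [← sum_erase_add B _ hx, if_pos (mem_filter.1 hu).2]
      have h3 : ∑ u ∈ A.filter (fun u => G.Adj u x), w u * w x ≤ ω * W₀ := by
        rw [← sum_mul, mul_comm]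
        apply mul_le_mul (hB x hx).2 _ (sum_nonneg fun u hu => (hA u (hAx hu)).1) hω0
        exact (sum_le_sum_of_subset_of_nonneg hAx fun u hu _ => (hA u hu).1).trans hWA
      rw [h2]
      linarith
    -- Cauchy-Schwarz
    have hCS : ef G A B w ^ 2 ≤ (∑ u ∈ A, w u) *
        ∑ u ∈ A, w u * (∑ x ∈ B, if G.Adj u x then w x else 0) ^ 2 := by
      have e1 : ef G A B w = ∑ u ∈ A, w u * (∑ x ∈ B, if G.Adj u x then w x else 0) := by
        unfold ef
        apply sum_congr rfl
        intro u _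
        rw [mul_sum]
        apply sum_congr rfl
        intro x _
        split_ifs <;> simp
      rw [e1]
      apply sum_sq_le_sum_mul_sum_of_sq_le_mul
      · exact fun u hu => (hA u hu).1
      · exact fun u hu => mul_nonneg (hA u hu).1 (sq_nonneg _)
      · intro u _
        apply le_of_eq
        ring
    have hsw : ∑ u ∈ A, w u * (∑ x ∈ B, if G.Adj u x then w x else 0) ^ 2 =
        ∑ x ∈ B, w x * ef G (A.filter (fun u => G.Adj u x)) B w := by
      have e1 : ∀ u ∈ A, w u * (∑ x ∈ B, if G.Adj u x then w x else 0) ^ 2 =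
          ∑ x ∈ B, if G.Adj u x then w x * ∑ x' ∈ B, (if G.Adj u x' then w u * w x' else 0)
            else 0 := by
        intro u _
        have e2 : ∑ x' ∈ B, (if G.Adj u x' then w u * w x' else 0) =
            w u * ∑ x' ∈ B, (if G.Adj u x' then w x' else 0) := by
          rw [mul_sum]
          apply sum_congr rfl
          intro x' _
          split_ifs <;> simp
        rw [e2, sq, ← mul_assoc, mul_sum]
        apply sum_congr rfl
        intro x _
        split_ifs with h
        · ring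
        · simp
      rw [sum_congr rfl e1, sum_comm]
      apply sum_congr rfl
      intro x _
      unfold ef
      rw [sum_filter, mul_sum]
      apply sum_congr rfl
      intro u _
      split_ifs <;> simp
    have hb0 : 0 ≤ b := by positivity
    have hbound : ∑ x ∈ B, w x * ef G (A.filter (fun u => G.Adj u x)) B w ≤
        W₀ * (b + ω * W₀) := by
      calc ∑ x ∈ B, w x * ef G (A.filter (fun u => G.Adj u x)) B w
          ≤ ∑ x ∈ B, w x * (b + ω * W₀) :=
            sum_le_sum fun x hx => mul_le_mul_of_nonneg_left (hdef x hx) (hB x hx).1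
        _ = (∑ x ∈ B, w x) * (b + ω * W₀) := by rw [sum_mul]
        _ ≤ W₀ * (b + ω * W₀) := mul_le_mul_of_nonneg_right hWB (by positivity)
    rw [hsw] at hCS
    have hsq : ef G A B w ^ 2 ≤ W₀ * (W₀ * (b + ω * W₀)) := by
      refine hCS.trans ?_
      apply mul_le_mul hWA hbound _ hW₀0
      apply sum_nonneg
      intro x hx
      apply mul_nonneg (hB x hx).1
      apply ef_nonneg
      · exact fun u hu => (hA u (filter_subset _ _ hu)).1
      · exact fun u hu => (hB u hu).1
    set c : ℝ := ω ^ ((1 / 2 : ℝ) ^ (s + 1)) with hc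
    have hc0 : 0 ≤ c := Real.rpow_nonneg hω0 _
    have hcsq : c ^ 2 = ω ^ ((1 / 2 : ℝ) ^ s) := by
      rw [hc, ← Real.rpow_natCast, ← Real.rpow_mul hω0]
      congr 1
      rw [pow_succ]
      push_cast
      ring
    have hωc : ω ≤ c ^ 2 := by
      rw [hcsq]
      calc ω = ω ^ (1 : ℝ) := (Real.rpow_one ω).symm
        _ ≤ ω ^ ((1 / 2 : ℝ) ^ s) := by
          rcases hω0.eq_or_lt with h | h
          · rw [← h, Real.zero_rpow one_ne_zero]
            exact Real.rpow_nonneg le_rfl _
          · apply Real.rpow_le_rpow_of_exponent_ge h hω1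
            exact pow_le_one₀ (by norm_num) (by norm_num)
    have hfin : W₀ * (W₀ * (b + ω * W₀)) ≤ ((t + 2) * W₀ ^ 2 * c) ^ 2 := by
      have h1 : b = (t + 2) * W₀ ^ 2 * c ^ 2 := by rw [hb, hcsq]
      rw [h1]
      have h2 : W₀ * (W₀ * ((t + 2) * W₀ ^ 2 * c ^ 2 + ω * W₀)) =
          (t + 2) * (W₀ ^ 4 * c ^ 2) + ω * W₀ ^ 3 := by ring
      have h3 : ω * W₀ ^ 3 ≤ W₀ ^ 4 * c ^ 2 := by
        calc ω * W₀ ^ 3 ≤ c ^ 2 * W₀ ^ 3 := mul_le_mul_of_nonneg_right hωc (by positivity)
          _ ≤ c ^ 2 * W₀ ^ 4 := by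
              apply mul_le_mul_of_nonneg_left _ (by positivity)
              exact pow_le_pow_right₀ hW₀ (by norm_num)
          _ = W₀ ^ 4 * c ^ 2 := by ring
      have h4 : 0 ≤ W₀ ^ 4 * c ^ 2 := by positivity
      have h5 : ((t : ℝ) + 2) + 1 ≤ (t + 2) ^ 2 := by
        have : (0 : ℝ) ≤ t := Nat.cast_nonneg t
        nlinarith
      calc W₀ * (W₀ * ((t + 2) * W₀ ^ 2 * c ^ 2 + ω * W₀))
          = (t + 2) * (W₀ ^ 4 * c ^ 2) + ω * W₀ ^ 3 := h2
        _ ≤ (t + 2) * (W₀ ^ 4 * c ^ 2) + W₀ ^ 4 * c ^ 2 := by linarith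
        _ = ((t + 2) + 1) * (W₀ ^ 4 * c ^ 2) := by ring
        _ ≤ (t + 2) ^ 2 * (W₀ ^ 4 * c ^ 2) := mul_le_mul_of_nonneg_right h5 h4
        _ = ((t + 2) * W₀ ^ 2 * c) ^ 2 := by ring
    exact le_of_sq_le_sq (hsq.trans hfin) (by positivity)

end Pool.Agent.Lib.MP_349e33_co
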