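import Mathlib
import Pool.Agent.Lib.MP_349e33_co.KST

/-!
Counting proper colourings of a graph with sparse neighbourhoods (Rosenfeld's method), with an
exact hard-core representation of each colour class on a neighbourhood.
-/

namespace Pool.Agent.Lib.MP_349e33_co

open Finset

set_option linter.unusedSectionVars false

variable {V : Type*} [Fintype V] [DecidableEq V] (G : SimpleGraph V) [DecidableRel G.Adj] (q : ℕ)

/-- The functions that are proper on `S`. -/
def propS (S : Finset V) : Finset (V → Fin q) :=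
  univ.filter (fun σ => ∀ u ∈ S, ∀ w ∈ S, G.Adj u w → σ u ≠ σ w)

/-- The colours available at `v` with respect to the colouring of `S`. -/
def av (S : Finset V) (σ : V → Fin q) (v : V) : Finset (Fin q) :=
  univ.filter (fun c => ∀ w ∈ S, G.Adj v w → σ w ≠ c)

variable {G q}

theorem mem_propS {S : Finset V} {σ : V → Fin q} :
    σ ∈ propS G q S ↔ ∀ u ∈ S, ∀ w ∈ S, G.Adj u w → σ u ≠ σ w := by
  simp [propS]

theorem mem_av {S : Finset V} {σ : V → Fin q} {v : V} {c : Fin q} :
    c ∈ av G q S σ v ↔ ∀ w ∈ S, G.Adj v w → σ w ≠ c := by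
  simp [av]

theorem av_update {S : Finset V} {v : V} (hv : v ∉ S) (σ : V → Fin q) (c : Fin q) (u : V) :
    av G q S (Function.update σ v c) u = av G q S σ u := by
  ext d
  rw [mem_av, mem_av]
  apply forall_congr'
  intro w
  apply imp_congr_right
  intro hw
  have : w ≠ v := fun h => hv (h ▸ hw)
  rw [Function.update_of_ne this]

theorem av_erase (S : Finset V) (u : V) (σ : V → Fin q) :
    av G q (S.erase u) σ u = av G q S σ u := by
  ext d
  rw [mem_av, mem_av]
  constructor
  · intro h w hw huw
    exact h w (mem_erase.2 ⟨fun h' => G.loopless.irrefl u (h' ▸ huw), hw⟩) huw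
  · intro h w hw huw
    exact h w (mem_of_mem_erase hw) huw

theorem card_insert_filter {S : Finset V} {v : V} (hv : v ∉ S) (Q : (V → Fin q) → Prop)
    [DecidablePred Q] (hQ : ∀ σ c, Q (Function.update σ v c) ↔ Q σ) :
    ((propS G q (insert v S)).filter Q).card * q =
      ∑ σ ∈ (propS G q S).filter Q, (av G q S σ v).card := by
  rw [← card_sigma]
  have h1 : ((propS G q (insert v S)).filter Q).card * q =
      (((propS G q (insert v S)).filter Q) ×ˢ (univ : Finset (Fin q))).card := by
    rw [card_product, card_univ, Fintype.card_fin]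
  rw [h1]
  refine card_bij' (fun x _ => ⟨Function.update x.1 v x.2, x.1 v⟩)
    (fun x _ => (Function.update x.1 v x.2, x.1 v)) ?_ ?_ ?_ ?_
  · rintro ⟨σ, c⟩ h
    rw [mem_product, mem_filter] at h
    rw [mem_sigma, mem_filter]
    have h2 := mem_propS.1 h.1.1
    refine ⟨⟨?_, (hQ _ _).2 h.1.2⟩, ?_⟩
    · rw [mem_propS]
      intro u hu w hw huw
      have hu' : u ≠ v := fun h => hv (h ▸ hu)
      have hw' : w ≠ v := fun h => hv (h ▸ hw)
      simp only [Function.update_of_ne hu', Function.update_of_ne hw']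
      exact h2 u (mem_insert_of_mem hu) w (mem_insert_of_mem hw) huw
    · simp only
      rw [av_update hv, mem_av]
      intro w hw hvw
      exact (h2 v (mem_insert_self _ _) w (mem_insert_of_mem hw) hvw).symm
  · rintro ⟨σ, c⟩ h
    rw [mem_sigma, mem_filter] at h
    rw [mem_product, mem_filter]
    have h2 := mem_propS.1 h.1.1
    have h3 := mem_av.1 h.2
    refine ⟨⟨?_, (hQ _ _).2 h.1.2⟩, mem_univ _⟩
    rw [mem_propS]
    intro u hu w hw huw
    rw [mem_insert] at hu hw
    rcases hu with rfl | hu
    · rcases hw with rfl | hw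
      · exact absurd huw (G.loopless.irrefl _)
      · have hw' : w ≠ u := fun h => hv (h ▸ hw)
        simp only [Function.update_self, Function.update_of_ne hw']
        exact (h3 w hw huw).symm
    · have hu' : u ≠ v := fun h => hv (h ▸ hu)
      rcases hw with rfl | hw
      · simp only [Function.update_self, Function.update_of_ne hu']
        exact h3 u hu huw.symm
      · have hw' : w ≠ v := fun h => hv (h ▸ hw)
        simp only [Function.update_of_ne hu', Function.update_of_ne hw']
        exact h2 u hu w hw huw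
  · rintro ⟨σ, c⟩ _
    simp
  · rintro ⟨σ, c⟩ _
    simp

theorem card_insert {S : Finset V} {v : V} (hv : v ∉ S) :
    (propS G q (insert v S)).card * q = ∑ σ ∈ propS G q S, (av G q S σ v).card := by
  have h := card_insert_filter (G := G) (q := q) hv (fun _ => True) (fun _ _ => Iff.rfl)
  simpa using h

section Recolour

variable (G q)

/-- Colourings in which every vertex of `N` coloured `c` is good. -/
def C0 (S N D : Finset V) (t₀ : ℕ) (c : Fin q) : Finset (V → Fin q) :=
  (propS G q S).filter (fun σ => ∀ u ∈ N, σ u = c → u ∉ D ∧ t₀ ≤ (av G q S σ u).card)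

/-- Colourings in which no vertex of `N` is coloured `c`. -/
def A0 (S N : Finset V) (c : Fin q) : Finset (V → Fin q) :=
  (propS G q S).filter (fun σ => ∀ u ∈ N, σ u ≠ c)

/-- The good vertices of `N` that could be recoloured `c`. -/
def JJ (S N D : Finset V) (t₀ : ℕ) (c : Fin q) (σ : V → Fin q) : Finset V :=
  N.filter (fun u => (u ∉ D ∧ t₀ ≤ (av G q S σ u).card) ∧ c ∈ av G q S σ u)

/-- The weight of a vertex. -/
noncomputable def wt (S : Finset V) (σ : V → Fin q) (u : V) : ℝ :=
  1 / (((av G q S σ u).card : ℝ) - 1)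

/-- The recolourings of `σ`. -/
def Phi (S N : Finset V) (c : Fin q) (σ : V → Fin q) : Finset (V → Fin q) :=
  Fintype.piFinset (fun u => if u ∈ N ∧ σ u = c then (av G q S σ u).erase c else {σ u})

variable {G q}

theorem self_mem_av {S : Finset V} {σ : V → Fin q} (hσ : σ ∈ propS G q S) {u : V} (hu : u ∈ S) :
    σ u ∈ av G q S σ u := by
  rw [mem_av]
  intro w hw huw
  exact (mem_propS.1 hσ u hu w hw huw).symm

theorem mem_Phi {S N : Finset V} {c : Fin q} {σ σ' : V → Fin q} :
    σ' ∈ Phi G q S N c σ ↔ (∀ u ∈ N, σ u = c → σ' u ≠ c ∧ σ' u ∈ av G q S σ u) ∧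
      ∀ u, ¬ (u ∈ N ∧ σ u = c) → σ' u = σ u := by
  unfold Phi
  rw [Fintype.mem_piFinset]
  constructor
  · intro h
    refine ⟨fun u hu huc => ?_, fun u hu => ?_⟩
    · have := h u
      rw [if_pos ⟨hu, huc⟩, mem_erase] at this
      exact this
    · have := h u
      rw [if_neg hu, mem_singleton] at this
      exact this
  · rintro ⟨h1, h2⟩ u
    by_cases h : u ∈ N ∧ σ u = c
    · rw [if_pos h, mem_erase]
      exact h1 u h.1 h.2
    · rw [if_neg h, mem_singleton]
      exact h2 u h

/-- availability at the recoloured vertices does not change -/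
theorem av_eq_of_Phi {S N : Finset V} (hNS : N ⊆ S) {c : Fin q} {σ σ' : V → Fin q}
    (hσ : σ ∈ propS G q S) (h : σ' ∈ Phi G q S N c σ) {u : V} (hu : u ∈ N) (huc : σ u = c) :
    av G q S σ' u = av G q S σ u := by
  rw [mem_Phi] at h
  ext d
  rw [mem_av, mem_av]
  apply forall_congr'
  intro w
  apply imp_congr_right
  intro hw
  apply imp_congr_right
  intro huw
  have : σ w ≠ c := fun hwc => mem_propS.1 hσ u (hNS hu) w hw huw (huc.trans hwc.symm)
  rw [h.2 w (fun h' => this h'.2)]

theorem Phi_subset {S N D : Finset V} {t₀ : ℕ} (hNS : N ⊆ S) {c : Fin q} {σ σ' : V → Fin q}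
    (hσ : σ ∈ C0 G q S N D t₀ c) (h : σ' ∈ Phi G q S N c σ) : σ' ∈ A0 G q S N c := by
  unfold C0 at hσ
  unfold A0
  rw [mem_filter] at hσ ⊢
  obtain ⟨hσ, _⟩ := hσ
  rw [mem_Phi] at h
  obtain ⟨h1, h2⟩ := h
  have hp := mem_propS.1 hσ
  refine ⟨?_, ?_⟩
  · rw [mem_propS]
    intro x hx y hy hxy
    by_cases hx' : x ∈ N ∧ σ x = c
    · have hy' : ¬ (y ∈ N ∧ σ y = c) := fun h => hp x hx y hy hxy (hx'.2.trans h.2.symm)
      rw [h2 y hy']
      exact fun h => (mem_av.1 (h1 x hx'.1 hx'.2).2) y hy hxy h.symm
    · rw [h2 x hx']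
      by_cases hy' : y ∈ N ∧ σ y = c
      · exact (mem_av.1 (h1 y hy'.1 hy'.2).2) x hx hxy.symm
      · rw [h2 y hy']
        exact hp x hx y hy hxy
  · intro u hu
    by_cases hu' : σ u = c
    · exact (h1 u hu hu').1
    · rw [h2 u (fun h => hu' h.2)]
      exact hu'

theorem card_Phi {S N D : Finset V} {t₀ : ℕ} (hNS : N ⊆ S) {c : Fin q} {σ : V → Fin q}
    (hσ : σ ∈ C0 G q S N D t₀ c) (ht₀ : 2 ≤ t₀) :
    ((Phi G q S N c σ).card : ℝ) * ∏ u ∈ N.filter (fun u => σ u = c), wt G q S σ u = 1 := by
  unfold C0 at hσ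
  rw [mem_filter] at hσ
  obtain ⟨hσ, hgood⟩ := hσ
  have hcard : (Phi G q S N c σ).card =
      ∏ u ∈ N.filter (fun u => σ u = c), ((av G q S σ u).card - 1) := by
    unfold Phi
    rw [Fintype.card_piFinset, prod_filter, ← prod_subset (subset_univ N)]
    · apply prod_congr rfl
      intro u hu
      by_cases h : σ u = c
      · rw [if_pos ⟨hu, h⟩, if_pos h, card_erase_of_mem]
        rw [← h]
        exact self_mem_av hσ (hNS hu)
      · rw [if_neg (fun h' => h h'.2), if_neg h, card_singleton]
    · intro u _ hu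
      rw [if_neg (fun h' => hu h'.1), card_singleton]
  rw [hcard, Nat.cast_prod, ← prod_mul_distrib]
  apply prod_eq_one
  intro u hu
  rw [mem_filter] at hu
  have h1 := (hgood u hu.1 hu.2).2
  have h2 : ((av G q S σ u).card : ℝ) - 1 ≠ 0 := by
    have : (2 : ℝ) ≤ (av G q S σ u).card := by exact_mod_cast ht₀.trans h1
    intro h
    linarith
  unfold wt
  rw [Nat.cast_sub (by omega), Nat.cast_one]
  field_simp

/-- The exact hard-core representation. -/
theorem representation {S N D : Finset V} {t₀ : ℕ} (hNS : N ⊆ S) (c : Fin q) (ht₀ : 2 ≤ t₀)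
    (g : ℕ → ℝ) :
    ∑ σ ∈ C0 G q S N D t₀ c, g (N.filter (fun u => σ u = c)).card =
      ∑ σ ∈ A0 G q S N c, ∑ I ∈ indep G (JJ G q S N D t₀ c σ),
        g I.card * ∏ u ∈ I, wt G q S σ u := by
  have h1 : ∑ σ ∈ C0 G q S N D t₀ c, g (N.filter (fun u => σ u = c)).card =
      ∑ σ ∈ C0 G q S N D t₀ c, ∑ σ' ∈ Phi G q S N c σ,
        g (N.filter (fun u => σ u = c)).card *
          ∏ u ∈ N.filter (fun u => σ u = c), wt G q S σ u := by
    apply sum_congr rfl
    intro σ hσ
    rw [sum_const, nsmul_eq_mul]
    have := card_Phi hNS hσ ht₀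
    calc g (N.filter (fun u => σ u = c)).card
        = g (N.filter (fun u => σ u = c)).card * (((Phi G q S N c σ).card : ℝ) *
          ∏ u ∈ N.filter (fun u => σ u = c), wt G q S σ u) := by rw [this, mul_one]
      _ = _ := by ring
  rw [h1]
  rw [sum_comm' (t' := A0 G q S N c)
    (s' := fun σ' => (C0 G q S N D t₀ c).filter (fun σ => σ' ∈ Phi G q S N c σ))]
  · apply sum_congr rfl
    intro σ' hσ'
    have hσ'0 := hσ'
    unfold A0 at hσ'
    rw [mem_filter] at hσ'
    obtain ⟨hp', hN'⟩ := hσ'
    have hp'' := mem_propS.1 hp'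
    -- facts on recolouring an independent set
    have facts : ∀ I ∈ indep G (JJ G q S N D t₀ c σ'),
        (fun u => if u ∈ I then c else σ' u) ∈ C0 G q S N D t₀ c ∧
        σ' ∈ Phi G q S N c (fun u => if u ∈ I then c else σ' u) ∧
        N.filter (fun u => (if u ∈ I then c else σ' u) = c) = I ∧
        ∀ u ∈ I, av G q S (fun u => if u ∈ I then c else σ' u) u = av G q S σ' u := by
      intro I hI
      rw [mem_indep] at hI
      obtain ⟨hIJ, hind⟩ := hI
      have hIN : ∀ u ∈ I, u ∈ N ∧ (u ∉ D ∧ t₀ ≤ (av G q S σ' u).card) ∧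
          c ∈ av G q S σ' u := fun u hu => by
        have := hIJ hu
        unfold JJ at this
        rwa [mem_filter] at this
      have hfil : N.filter (fun u => (if u ∈ I then c else σ' u) = c) = I := by
        ext u
        rw [mem_filter]
        constructor
        · rintro ⟨h1, h2⟩
          by_contra h3
          rw [if_neg h3] at h2
          exact hN' u h1 h2
        · intro h
          exact ⟨(hIN u h).1, by rw [if_pos h]⟩
      have hav : ∀ u ∈ I, av G q S (fun u => if u ∈ I then c else σ' u) u =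
          av G q S σ' u := by
        intro u hu
        ext d
        rw [mem_av, mem_av]
        apply forall_congr'
        intro w
        apply imp_congr_right
        intro hw
        apply imp_congr_right
        intro huw
        have : w ∉ I := fun h => hind u hu w h huw
        simp only [if_neg this]
      have hprop : (fun u => if u ∈ I then c else σ' u) ∈ propS G q S := by
        rw [mem_propS]
        intro x hx y hy hxy
        by_cases hxI : x ∈ I
        · have hyI : y ∉ I := fun h => hind x hxI y h hxy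
          simp only [if_pos hxI, if_neg hyI]
          exact ((mem_av.1 (hIN x hxI).2.2) y hy hxy).symm
        · by_cases hyI : y ∈ I
          · simp only [if_neg hxI, if_pos hyI]
            exact (mem_av.1 (hIN y hyI).2.2) x hx hxy.symm
          · simp only [if_neg hxI, if_neg hyI]
            exact hp'' x hx y hy hxy
      refine ⟨?_, ?_, hfil, hav⟩
      · unfold C0
        rw [mem_filter]
        refine ⟨hprop, fun u hu huc => ?_⟩
        have huI : u ∈ I := by
          rw [← hfil, mem_filter]
          exact ⟨hu, huc⟩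
        rw [hav u huI]
        exact (hIN u huI).2.1
      · rw [mem_Phi]
        refine ⟨fun u hu huc => ?_, fun u hu => ?_⟩
        · have huI : u ∈ I := by
            rw [← hfil, mem_filter]
            exact ⟨hu, huc⟩
          refine ⟨hN' u hu, ?_⟩
          rw [hav u huI]
          exact self_mem_av hp' (hNS hu)
        · have huI : u ∉ I := fun h => hu ⟨(hIN u h).1, by rw [if_pos h]⟩
          simp only [if_neg huI]
    refine sum_bij' (fun σ _ => N.filter (fun u => σ u = c))
      (fun I _ => fun u => if u ∈ I then c else σ' u) ?_ ?_ ?_ ?_ ?_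
    · intro σ hσ
      rw [mem_filter] at hσ
      obtain ⟨hσ, hΦ⟩ := hσ
      have hσ0 := hσ
      unfold C0 at hσ
      rw [mem_filter] at hσ
      obtain ⟨hp, hgood⟩ := hσ
      rw [mem_indep]
      refine ⟨fun u hu => ?_, fun x hx y hy hxy => ?_⟩
      · rw [mem_filter] at hu
        unfold JJ
        rw [mem_filter, av_eq_of_Phi hNS hp hΦ hu.1 hu.2]
        refine ⟨hu.1, hgood u hu.1 hu.2, ?_⟩
        have := self_mem_av hp (hNS hu.1)
        rwa [hu.2] at this
      · rw [mem_filter] at hx hy
        exact mem_propS.1 hp x (hNS hx.1) y (hNS hy.1) hxy (hx.2.trans hy.2.symm)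
    · intro I hI
      rw [mem_filter]
      exact ⟨(facts I hI).1, (facts I hI).2.1⟩
    · intro σ hσ
      rw [mem_filter] at hσ
      obtain ⟨_, hΦ⟩ := hσ
      rw [mem_Phi] at hΦ
      funext u
      by_cases hu : u ∈ N.filter (fun u => σ u = c)
      · simp only [if_pos hu]
        exact (mem_filter.1 hu).2.symm
      · simp only [if_neg hu]
        rw [mem_filter] at hu
        exact hΦ.2 u hu
    · intro I hI
      exact (facts I hI).2.2.1
    · intro σ hσ
      rw [mem_filter] at hσ
      obtain ⟨hσ, hΦ⟩ := hσ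
      unfold C0 at hσ
      rw [mem_filter] at hσ
      congr 1
      apply prod_congr rfl
      intro u hu
      rw [mem_filter] at hu
      unfold wt
      rw [av_eq_of_Phi hNS hσ.1 hΦ hu.1 hu.2]
  · intro σ σ'
    rw [mem_filter]
    constructor
    · rintro ⟨h1, h2⟩
      exact ⟨⟨h1, h2⟩, Phi_subset hNS h1 h2⟩
    · rintro ⟨⟨h1, h2⟩, _⟩
      exact ⟨h1, h2⟩

end Recolour

end Pool.Agent.Lib.MP_349e33_co
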