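import Mathlib
import Pool.Agent.Lib.MP_349e33_co.Count

/-!
The main counting induction.
-/

namespace Pool.Agent.Lib.MP_349e33_co

open Finset

set_option linter.unusedSectionVars false

variable {V : Type*} [Fintype V] [DecidableEq V] {G : SimpleGraph V} [DecidableRel G.Adj] {q : ℕ}

theorem sum_A0 (S : Finset V) (v : V) :
    ∑ c : Fin q, (A0 G q S (S.filter (fun u => G.Adj v u)) c).card =
      ∑ σ ∈ propS G q S, (av G q S σ v).card := by
  unfold A0 av
  simp_rw [card_filter]
  rw [sum_comm]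
  apply sum_congr rfl
  intro σ _
  apply sum_congr rfl
  intro c _
  congr 1
  apply propext
  constructor
  · intro h w hw hvw
    exact h w (mem_filter.2 ⟨hw, hvw⟩)
  · intro h u hu
    rw [mem_filter] at hu
    exact h u hu.1 hu.2

theorem sum_C0_lower (S N D : Finset V) (t₀ : ℕ) :
    (q : ℝ) * (propS G q S).card - (D.card : ℝ) * (propS G q S).card -
      ∑ u ∈ N, (((propS G q S).filter (fun σ => (av G q S σ u).card < t₀)).card : ℝ) ≤
      ∑ c : Fin q, ((C0 G q S N D t₀ c).card : ℝ) := by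
  have h1 : ∀ σ ∈ propS G q S, q ≤
      (univ.filter (fun c : Fin q => ∀ u ∈ N, σ u = c → u ∉ D ∧ t₀ ≤ (av G q S σ u).card)).card +
        (D.card + (N.filter (fun u => (av G q S σ u).card < t₀)).card) := by
    intro σ _
    have h2 : (univ.filter (fun c : Fin q =>
        ¬ ∀ u ∈ N, σ u = c → u ∉ D ∧ t₀ ≤ (av G q S σ u).card)).card ≤
        D.card + (N.filter (fun u => (av G q S σ u).card < t₀)).card := by
      calc (univ.filter (fun c : Fin q =>
          ¬ ∀ u ∈ N, σ u = c → u ∉ D ∧ t₀ ≤ (av G q S σ u).card)).card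
          ≤ ((D ∪ N.filter (fun u => (av G q S σ u).card < t₀)).image σ).card := by
            apply card_le_card
            intro c hc
            rw [mem_filter] at hc
            have hc2 := hc.2
            push Not at hc2
            obtain ⟨u, hu, huc, hgood⟩ := hc2
            rw [mem_image]
            refine ⟨u, ?_, huc⟩
            rw [mem_union, mem_filter]
            by_cases hD : u ∈ D
            · exact Or.inl hD
            · exact Or.inr ⟨hu, hgood hD⟩
        _ ≤ (D ∪ N.filter (fun u => (av G q S σ u).card < t₀)).card := card_image_le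
        _ ≤ _ := card_union_le _ _
    have h3 := card_filter_add_card_filter_not (s := (univ : Finset (Fin q)))
      (fun c : Fin q => ∀ u ∈ N, σ u = c → u ∉ D ∧ t₀ ≤ (av G q S σ u).card)
    rw [card_univ, Fintype.card_fin] at h3
    omega
  have h2 : ∑ c : Fin q, (C0 G q S N D t₀ c).card = ∑ σ ∈ propS G q S,
      (univ.filter (fun c : Fin q =>
        ∀ u ∈ N, σ u = c → u ∉ D ∧ t₀ ≤ (av G q S σ u).card)).card := by
    unfold C0
    simp_rw [card_filter]
    rw [sum_comm]
  have h3 : ∑ σ ∈ propS G q S, (N.filter (fun u => (av G q S σ u).card < t₀)).card =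
      ∑ u ∈ N, ((propS G q S).filter (fun σ => (av G q S σ u).card < t₀)).card := by
    simp_rw [card_filter]
    rw [sum_comm]
  have h4 := sum_le_sum h1
  rw [sum_add_distrib, sum_add_distrib, ← h2, h3, sum_const, sum_const, smul_eq_mul,
    smul_eq_mul] at h4
  have h5 : ((propS G q S).card : ℝ) * q ≤ ∑ c : Fin q, ((C0 G q S N D t₀ c).card : ℝ) +
      ((propS G q S).card * D.card +
        ∑ u ∈ N, (((propS G q S).filter (fun σ => (av G q S σ u).card < t₀)).card : ℝ)) := by
    exact_mod_cast h4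
  linarith

theorem sum_size_le (S N D : Finset V) (t₀ : ℕ) :
    ∑ c : Fin q, ∑ σ ∈ C0 G q S N D t₀ c, ((N.filter (fun u => σ u = c)).card : ℝ) ≤
      (N.card : ℝ) * (propS G q S).card := by
  calc ∑ c : Fin q, ∑ σ ∈ C0 G q S N D t₀ c, ((N.filter (fun u => σ u = c)).card : ℝ)
      ≤ ∑ c : Fin q, ∑ σ ∈ propS G q S, ((N.filter (fun u => σ u = c)).card : ℝ) := by
        apply sum_le_sum
        intro c _
        unfold C0
        apply sum_le_sum_of_subset_of_nonneg (filter_subset _ _)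
        intro σ _ _
        positivity
    _ = ∑ σ ∈ propS G q S, (N.card : ℝ) := by
        rw [sum_comm]
        apply sum_congr rfl
        intro σ _
        rw [← Nat.cast_sum]
        congr 1
        have := card_eq_sum_card_fiberwise (f := σ) (s := N) (t := univ)
          (fun x _ => mem_coe.2 (mem_univ _))
        exact this.symm
    _ = (N.card : ℝ) * (propS G q S).card := by
        rw [sum_const, nsmul_eq_mul, mul_comm]

theorem count_step (Δ t₀ : ℕ) (ht₀ : 2 ≤ t₀) (ℓ y η d₀ : ℝ) (hℓ : 0 < ℓ) (hy : 1 ≤ y)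
    (hq : 0 < q) (D : V → Finset V)
    (hN : ∀ v, (univ.filter (fun u => G.Adj v u)).card ≤ Δ)
    (hD : ∀ v, ((D v).card : ℝ) ≤ d₀)
    (hKI : ∀ v (J : Finset V) (w : V → ℝ), (∀ u ∈ J, G.Adj v u ∧ u ∉ D v) →
      (∀ u ∈ J, 0 ≤ w u ∧ w u ≤ 1 / ((t₀ : ℝ) - 1)) →
      (1 + Real.log y - η) * pf G J w - y ≤ mf G J w)
    (hη : 0 ≤ 1 + Real.log y - η)
    (hnum : y * ℓ ≤ (1 + Real.log y - η) * (q - Δ * (t₀ / ℓ) - d₀) - Δ) :
    ∀ n : ℕ, ∀ S : Finset V, S.card = n → ∀ v, v ∉ S →
      ℓ * (propS G q S).card ≤ q * (propS G q (insert v S)).card := by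
  intro n
  induction n using Nat.strong_induction_on with
  | _ n ih =>
  intro S hS v hv
  set N : Finset V := S.filter (fun u => G.Adj v u) with hNdef
  have hNS : N ⊆ S := filter_subset _ _
  have hNcard : (N.card : ℝ) ≤ Δ := by
    have : N.card ≤ Δ := by
      refine le_trans (card_le_card ?_) (hN v)
      intro u hu
      rw [hNdef, mem_filter] at hu
      rw [mem_filter]
      exact ⟨mem_univ _, hu.2⟩
    exact_mod_cast this
  set p : ℝ := ((propS G q S).card : ℝ) with hp
  have hp0 : 0 ≤ p := by positivity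
  have hq' : (0 : ℝ) < q := by exact_mod_cast hq
  have ht₀' : (2 : ℝ) ≤ t₀ := by exact_mod_cast ht₀
  -- few bad colourings at each vertex of `N`
  have hbad : ∀ u ∈ N, (((propS G q S).filter (fun σ => (av G q S σ u).card < t₀)).card : ℝ) ≤
      (t₀ / ℓ) * p := by
    intro u hu
    have huS : u ∈ S := hNS hu
    have hne : u ∉ S.erase u := notMem_erase u S
    have hins : insert u (S.erase u) = S := insert_erase huS
    have hlt : (S.erase u).card < n := by
      rw [card_erase_of_mem huS, hS]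
      have : 0 < S.card := card_pos.2 ⟨u, huS⟩
      omega
    have hIH := ih (S.erase u).card hlt (S.erase u) rfl u hne
    rw [hins] at hIH
    have h1 := card_insert_filter (G := G) (q := q) hne
      (fun σ => (av G q (S.erase u) σ u).card < t₀)
      (fun σ c => by rw [av_update hne])
    rw [hins] at h1
    have h2 : ((propS G q S).filter (fun σ => (av G q (S.erase u) σ u).card < t₀)).card * q ≤
        (propS G q (S.erase u)).card * t₀ := by
      rw [h1]
      calc ∑ σ ∈ (propS G q (S.erase u)).filter (fun σ => (av G q (S.erase u) σ u).card < t₀),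
            (av G q (S.erase u) σ u).card
          ≤ ∑ σ ∈ (propS G q (S.erase u)).filter
              (fun σ => (av G q (S.erase u) σ u).card < t₀), t₀ := by
            apply sum_le_sum
            intro σ hσ
            exact (mem_filter.1 hσ).2.le
        _ = ((propS G q (S.erase u)).filter
              (fun σ => (av G q (S.erase u) σ u).card < t₀)).card * t₀ := by
            rw [sum_const, smul_eq_mul]
        _ ≤ (propS G q (S.erase u)).card * t₀ :=
            Nat.mul_le_mul_right _ (card_le_card (filter_subset _ _))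
    simp_rw [av_erase] at h2
    have h3 : (((propS G q S).filter (fun σ => (av G q S σ u).card < t₀)).card : ℝ) * q ≤
        (propS G q (S.erase u)).card * t₀ := by exact_mod_cast h2
    have h4 : (((propS G q S).filter (fun σ => (av G q S σ u).card < t₀)).card : ℝ) * q * ℓ ≤
        q * p * t₀ := by
      calc (((propS G q S).filter (fun σ => (av G q S σ u).card < t₀)).card : ℝ) * q * ℓ
          ≤ (propS G q (S.erase u)).card * t₀ * ℓ := mul_le_mul_of_nonneg_right h3 hℓ.le
        _ = (ℓ * (propS G q (S.erase u)).card) * t₀ := by ring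
        _ ≤ (q * p) * t₀ := mul_le_mul_of_nonneg_right hIH (by linarith)
    have h5 : (((propS G q S).filter (fun σ => (av G q S σ u).card < t₀)).card : ℝ) * ℓ ≤
        p * t₀ := by
      have : (((propS G q S).filter (fun σ => (av G q S σ u).card < t₀)).card : ℝ) * ℓ * q ≤
          (p * t₀) * q := by linarith
      exact le_of_mul_le_mul_right this hq'
    rw [div_mul_eq_mul_div, le_div_iff₀ hℓ]
    linarith
  -- total mass of the `C0`
  have hC0 : (q - Δ * (t₀ / ℓ) - d₀) * p ≤ ∑ c : Fin q, ((C0 G q S N (D v) t₀ c).card : ℝ) := by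
    refine le_trans ?_ (sum_C0_lower S N (D v) t₀)
    have h1 : ∑ u ∈ N, (((propS G q S).filter (fun σ => (av G q S σ u).card < t₀)).card : ℝ) ≤
        Δ * (t₀ / ℓ) * p := by
      calc ∑ u ∈ N, (((propS G q S).filter (fun σ => (av G q S σ u).card < t₀)).card : ℝ)
          ≤ ∑ u ∈ N, (t₀ / ℓ) * p := sum_le_sum hbad
        _ = (N.card : ℝ) * ((t₀ / ℓ) * p) := by rw [sum_const, nsmul_eq_mul]
        _ ≤ Δ * ((t₀ / ℓ) * p) := mul_le_mul_of_nonneg_right hNcard (by positivity)
        _ = Δ * (t₀ / ℓ) * p := by ring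
    have h2 : ((D v).card : ℝ) * p ≤ d₀ * p := mul_le_mul_of_nonneg_right (hD v) hp0
    rw [← hp]
    linarith
  -- the key inequality, for each colour
  have hkey : ∀ c : Fin q, (1 + Real.log y - η) * (C0 G q S N (D v) t₀ c).card -
      y * (A0 G q S N c).card ≤
      ∑ σ ∈ C0 G q S N (D v) t₀ c, ((N.filter (fun u => σ u = c)).card : ℝ) := by
    intro c
    have r1 := representation (G := G) (q := q) (D := D v) hNS c ht₀ (fun k => (k : ℝ))
    have r2 := representation (G := G) (q := q) (D := D v) hNS c ht₀ (fun _ => (1 : ℝ))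
    rw [r1]
    have r3 : ((C0 G q S N (D v) t₀ c).card : ℝ) = ∑ σ ∈ A0 G q S N c,
        pf G (JJ G q S N (D v) t₀ c σ) (wt G q S σ) := by
      rw [← mul_one ((C0 G q S N (D v) t₀ c).card : ℝ), ← nsmul_eq_mul, ← sum_const, r2]
      apply sum_congr rfl
      intro σ _
      unfold pf
      simp
    rw [r3, mul_sum, ← nsmul_eq_mul' (y : ℝ), ← sum_const, ← sum_sub_distrib]
    apply sum_le_sum
    intro σ hσ
    apply hKI v
    · intro u hu
      unfold JJ at hu
      rw [mem_filter, hNdef, mem_filter] at hu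
      exact ⟨hu.1.2, hu.2.1.1⟩
    · intro u hu
      unfold JJ at hu
      rw [mem_filter] at hu
      have h1 : (t₀ : ℝ) ≤ (av G q S σ u).card := by exact_mod_cast hu.2.1.2
      unfold wt
      constructor
      · apply div_nonneg zero_le_one
        linarith
      · apply one_div_le_one_div_of_le
        · linarith
        · linarith
  have hsum := sum_le_sum (fun c (_ : c ∈ (univ : Finset (Fin q))) => hkey c)
  rw [sum_sub_distrib, ← mul_sum, ← mul_sum] at hsum
  have hsize := sum_size_le (G := G) (q := q) S N (D v) t₀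
  have hsize2 : (N.card : ℝ) * (propS G q S).card ≤ Δ * p := by
    rw [← hp]
    exact mul_le_mul_of_nonneg_right hNcard hp0
  have hA : ∑ c : Fin q, ((A0 G q S N c).card : ℝ) = q * (propS G q (insert v S)).card := by
    have h1 := sum_A0 (G := G) (q := q) S v
    rw [← card_insert hv] at h1
    rw [← Nat.cast_sum, h1]
    push_cast
    ring
  rw [hA] at hsum
  have hC0' := mul_le_mul_of_nonneg_left hC0 hη
  have hfin : y * (ℓ * p) ≤ y * (q * (propS G q (insert v S)).card) := by
    have h1 := mul_le_mul_of_nonneg_right hnum hp0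
    nlinarith
  exact le_of_mul_le_mul_left hfin (by linarith)

theorem colorable_of_numeric (Δ t₀ : ℕ) (ht₀ : 2 ≤ t₀) (ℓ y η d₀ : ℝ) (hℓ : 0 < ℓ) (hy : 1 ≤ y)
    (hq : 0 < q) (D : V → Finset V)
    (hN : ∀ v, (univ.filter (fun u => G.Adj v u)).card ≤ Δ)
    (hD : ∀ v, ((D v).card : ℝ) ≤ d₀)
    (hKI : ∀ v (J : Finset V) (w : V → ℝ), (∀ u ∈ J, G.Adj v u ∧ u ∉ D v) →
      (∀ u ∈ J, 0 ≤ w u ∧ w u ≤ 1 / ((t₀ : ℝ) - 1)) →
      (1 + Real.log y - η) * pf G J w - y ≤ mf G J w)
    (hη : 0 ≤ 1 + Real.log y - η)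
    (hnum : y * ℓ ≤ (1 + Real.log y - η) * (q - Δ * (t₀ / ℓ) - d₀) - Δ) :
    G.Colorable q := by
  have hstep := count_step Δ t₀ ht₀ ℓ y η d₀ hℓ hy hq D hN hD hKI hη hnum
  have hpos : ∀ S : Finset V, 0 < (propS G q S).card := by
    intro S
    induction S using Finset.induction_on with
    | empty =>
      rw [card_pos]
      exact ⟨fun _ => ⟨0, hq⟩, by simp [mem_propS]⟩
    | insert v S hv ih =>
      have h1 := hstep S.card S rfl v hv
      have h2 : (0 : ℝ) < (propS G q S).card := by exact_mod_cast ih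
      have h3 : (0 : ℝ) < q * (propS G q (insert v S)).card :=
        lt_of_lt_of_le (by positivity) h1
      by_contra hcon
      rw [Nat.pos_iff_ne_zero, not_not] at hcon
      rw [hcon] at h3
      simp at h3
  obtain ⟨σ, hσ⟩ := card_pos.1 (hpos univ)
  rw [mem_propS] at hσ
  exact ⟨SimpleGraph.Coloring.mk σ (fun {u w} huw => hσ u (mem_univ _) w (mem_univ _) huw)⟩

/-- Combining with the weighted Kővári–Sós–Turán theorem. -/
theorem colorable_of_numeric' (Δ t₀ s : ℕ) (ht₀ : 2 ≤ t₀) (ℓ y η d₀ W₀ : ℝ) (hℓ : 0 < ℓ)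
    (hy : 1 ≤ y) (hq : 0 < q) (D : V → Finset V)
    (hN : ∀ v, (univ.filter (fun u => G.Adj v u)).card ≤ Δ)
    (hD : ∀ v, ((D v).card : ℝ) ≤ d₀)
    (hfree : ∀ v, ∀ S T : Finset V, (∀ x ∈ S, G.Adj v x ∧ x ∉ D v) →
      (∀ x ∈ T, G.Adj v x ∧ x ∉ D v) → S.card = s → T.card = s →
      ∃ x ∈ S, ∃ u ∈ T, ¬ G.Adj u x)
    (hW₀ : 1 + Real.log y ≤ W₀)
    (hη0 : (1 / ((t₀ : ℝ) - 1)) * W₀ + (s + 2) * W₀ ^ 2 * (1 / ((t₀ : ℝ) - 1)) ^
      ((1 / 2 : ℝ) ^ s) ≤ η)
    (hη : 0 ≤ 1 + Real.log y - η)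
    (hnum : y * ℓ ≤ (1 + Real.log y - η) * (q - Δ * (t₀ / ℓ) - d₀) - Δ) :
    G.Colorable q := by
  apply colorable_of_numeric Δ t₀ ht₀ ℓ y η d₀ hℓ hy hq D hN hD _ hη hnum
  intro v J w hJ hw
  have hlog : 0 ≤ Real.log y := Real.log_nonneg hy
  have ht₀' : (2 : ℝ) ≤ t₀ := by exact_mod_cast ht₀
  have hω0 : 0 ≤ 1 / ((t₀ : ℝ) - 1) := by
    apply div_nonneg zero_le_one; linarith
  have hω1 : 1 / ((t₀ : ℝ) - 1) ≤ 1 := by
    rw [div_le_one (by linarith)]; linarith
  apply key_ineq (fun u hu => (hw u hu).1) hy hW₀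
  intro r hr0 hr1 hrW
  have hrw : ∀ u ∈ J, 0 ≤ r * w u ∧ r * w u ≤ 1 / ((t₀ : ℝ) - 1) := by
    intro u hu
    refine ⟨mul_nonneg hr0 (hw u hu).1, ?_⟩
    calc r * w u ≤ 1 * w u := mul_le_mul_of_nonneg_right hr1 (hw u hu).1
      _ = w u := one_mul _
      _ ≤ _ := (hw u hu).2
  have h1 : ∑ u ∈ J, (r * w u) ^ 2 ≤ (1 / ((t₀ : ℝ) - 1)) * W₀ := by
    calc ∑ u ∈ J, (r * w u) ^ 2 ≤ ∑ u ∈ J, (1 / ((t₀ : ℝ) - 1)) * (r * w u) := by
          apply sum_le_sum
          intro u hu
          rw [sq]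
          exact mul_le_mul_of_nonneg_right (hrw u hu).2 (hrw u hu).1
      _ = (1 / ((t₀ : ℝ) - 1)) * ∑ u ∈ J, r * w u := by rw [mul_sum]
      _ ≤ _ := mul_le_mul_of_nonneg_left hrW hω0
  have h2 : ef G J J (fun u => r * w u) ≤
      (s + 2) * W₀ ^ 2 * (1 / ((t₀ : ℝ) - 1)) ^ ((1 / 2 : ℝ) ^ s) := by
    apply edge_bound s s (fun u => r * w u) _ W₀ hω0 hω1 (by linarith) J J hrw hrw hrW hrW
    intro S hS hSc T hT hTc
    exact hfree v S T (fun x hx => hJ x (hS hx)) (fun x hx => hJ x (hT hx)) hSc hTc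
  linarith

end Pool.Agent.Lib.MP_349e33_co
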