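import Mathlib
import Pool.Agent.Lib.MP_349e33_co.Main

/-!
Choice of parameters: graphs of maximum degree `Δ` whose neighbourhoods become `K_{s,s}`-free
after the removal of few vertices are `(1+ε)Δ/log Δ`-colourable.
-/

namespace Pool.Agent.Lib.MP_349e33_co

open Finset Filter

theorem eventually_log_le_rpow (r : ℝ) (hr : 0 < r) :
    ∀ᶠ Δ : ℕ in atTop, Real.log Δ + 1 ≤ (Δ : ℝ) ^ r := by
  have h1 := (isLittleO_log_rpow_atTop hr).def (show (0 : ℝ) < 1 / 2 by norm_num)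
  have h2 := (tendsto_rpow_atTop hr).eventually_ge_atTop (2 : ℝ)
  have h3 : ∀ᶠ x : ℝ in atTop, Real.log x + 1 ≤ x ^ r := by
    filter_upwards [h1, h2, eventually_ge_atTop (1 : ℝ)] with x hx1 hx2 hx3
    rw [Real.norm_eq_abs, Real.norm_eq_abs, abs_of_nonneg (Real.log_nonneg hx3),
      abs_of_nonneg (by positivity)] at hx1
    linarith
  exact tendsto_natCast_atTop_atTop.eventually h3

theorem eventually_const_le_rpow (C r : ℝ) (hr : 0 < r) :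
    ∀ᶠ Δ : ℕ in atTop, C ≤ (Δ : ℝ) ^ r :=
  tendsto_natCast_atTop_atTop.eventually ((tendsto_rpow_atTop hr).eventually_ge_atTop C)

/-- Numerical facts used to pick parameters. -/
theorem eventually_params (ε : ℝ) (hε : 0 < ε) (hε1 : ε ≤ 1) (s : ℕ) :
    ∀ᶠ Δ : ℕ in atTop, ∃ (t₀ : ℕ) (ℓ y W₀ : ℝ), 2 ≤ t₀ ∧ 0 < ℓ ∧ 1 ≤ y ∧
      1 + Real.log y ≤ W₀ ∧
      (1 / ((t₀ : ℝ) - 1)) * W₀ + (s + 2) * W₀ ^ 2 * (1 / ((t₀ : ℝ) - 1)) ^
        ((1 / 2 : ℝ) ^ s) ≤ 1 / 2 ∧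
      0 ≤ 1 + Real.log y - 1 / 2 ∧
      ∀ q : ℝ, (1 + ε) * (Δ / Real.log Δ) ≤ q →
        y * ℓ ≤ (1 + Real.log y - 1 / 2) *
          (q - Δ * (t₀ / ℓ) - ε / 4 * (Δ / Real.log Δ)) - Δ := by
  set κ : ℝ := (1 / 2 : ℝ) ^ s with hκ
  have hκ0 : 0 < κ := by positivity
  have hκ1 : κ ≤ 1 := pow_le_one₀ (by norm_num) (by norm_num)
  set δ : ℝ := ε / 16 with hδ
  have hδ0 : 0 < δ := by positivity
  set r : ℝ := δ * κ / 4 with hr
  have hr0 : 0 < r := by positivity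
  filter_upwards [eventually_log_le_rpow r hr0, eventually_const_le_rpow (8 * (s + 3)) r hr0,
    eventually_const_le_rpow 4 δ hδ0, eventually_log_le_rpow (δ / 2) (by positivity),
    eventually_const_le_rpow (16 / ε) (δ / 2) (by positivity),
    eventually_ge_atTop 3] with Δ hlog hC hΔ4 hlog2 hC2 hΔ3
  have hΔ3' : (3 : ℝ) ≤ Δ := by exact_mod_cast hΔ3
  have hΔ0 : (0 : ℝ) < Δ := by linarith
  have hΔ1 : (1 : ℝ) ≤ Δ := by linarith
  set L : ℝ := Real.log Δ with hL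
  have hL1 : 1 < L := by
    rw [hL, Real.lt_log_iff_exp_lt hΔ0]
    exact lt_of_lt_of_le Real.exp_one_lt_three hΔ3'
  have hL0 : 0 < L := by linarith
  have hrpow : ∀ a b : ℝ, (Δ : ℝ) ^ a * (Δ : ℝ) ^ b = (Δ : ℝ) ^ (a + b) := fun a b =>
    (Real.rpow_add hΔ0 a b).symm
  have hpos : ∀ a : ℝ, 0 < (Δ : ℝ) ^ a := fun a => Real.rpow_pos_of_pos hΔ0 a
  -- t₀
  set t₀ : ℕ := ⌈(Δ : ℝ) ^ δ⌉₊ with ht₀
  have ht1 : (Δ : ℝ) ^ δ ≤ t₀ := Nat.le_ceil _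
  have ht2 : (t₀ : ℝ) ≤ 2 * (Δ : ℝ) ^ δ := by
    have := (Nat.ceil_lt_add_one (hpos δ).le).le
    rw [← ht₀] at this
    linarith
  have ht3 : (4 : ℝ) ≤ t₀ := hΔ4.trans ht1
  have ht4 : 2 ≤ t₀ := by
    have : (2 : ℝ) ≤ t₀ := by linarith
    exact_mod_cast this
  refine ⟨t₀, (Δ : ℝ) ^ (2 * δ), (Δ : ℝ) ^ (1 - 4 * δ), L + 1, ht4, hpos _, ?_, ?_, ?_, ?_, ?_⟩
  · apply Real.one_le_rpow hΔ1
    linarith
  · rw [Real.log_rpow hΔ0, ← hL]
    nlinarith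
  · -- the KST error
    set a : ℝ := 1 / ((t₀ : ℝ) - 1) with ha
    have ha0 : 0 ≤ a := by
      rw [ha]; apply div_nonneg zero_le_one; linarith
    have ha1 : a ≤ 2 * (Δ : ℝ) ^ (-δ) := by
      rw [ha, div_le_iff₀ (by linarith)]
      have h1 : (Δ : ℝ) ^ (-δ) * (Δ : ℝ) ^ δ = 1 := by
        rw [hrpow]; simp
      have h2 : (Δ : ℝ) ^ δ / 2 ≤ (t₀ : ℝ) - 1 := by linarith
      calc (1 : ℝ) = 2 * (Δ : ℝ) ^ (-δ) * ((Δ : ℝ) ^ δ / 2) := by
            rw [mul_assoc, mul_div_assoc', h1]; norm_num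
        _ ≤ 2 * (Δ : ℝ) ^ (-δ) * ((t₀ : ℝ) - 1) :=
            mul_le_mul_of_nonneg_left h2 (by have := hpos (-δ); positivity)
    have h4r : (Δ : ℝ) ^ (-δ) ≤ (Δ : ℝ) ^ (-(4 * r)) := by
      apply Real.rpow_le_rpow_of_exponent_le hΔ1
      rw [hr]
      nlinarith
    have haκ : a ^ κ ≤ 2 * (Δ : ℝ) ^ (-(4 * r)) := by
      calc a ^ κ ≤ (2 * (Δ : ℝ) ^ (-δ)) ^ κ := Real.rpow_le_rpow ha0 ha1 hκ0.le
        _ = 2 ^ κ * ((Δ : ℝ) ^ (-δ)) ^ κ := Real.mul_rpow (by norm_num) (hpos _).le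
        _ = 2 ^ κ * (Δ : ℝ) ^ (-(4 * r)) := by
            rw [← Real.rpow_mul hΔ0.le]
            congr 2
            rw [hr]; ring
        _ ≤ 2 ^ (1 : ℝ) * (Δ : ℝ) ^ (-(4 * r)) := by
            apply mul_le_mul_of_nonneg_right _ (hpos _).le
            exact Real.rpow_le_rpow_of_exponent_le (by norm_num) hκ1
        _ = 2 * (Δ : ℝ) ^ (-(4 * r)) := by rw [Real.rpow_one]
    have hW : L + 1 ≤ (Δ : ℝ) ^ r := hlog
    have hL10 : 0 ≤ L + 1 := by linarith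
    have hr1 : 1 ≤ (Δ : ℝ) ^ r := by linarith
    set X : ℝ := (Δ : ℝ) ^ r with hX
    have hX0 : 0 < X := hpos r
    have hX4 : (Δ : ℝ) ^ (-(4 * r)) * X ^ 4 = 1 := by
      rw [hX, ← Real.rpow_natCast, ← Real.rpow_mul hΔ0.le, hrpow]
      have : -(4 * r) + r * (4 : ℕ) = 0 := by push_cast; ring
      rw [this, Real.rpow_zero]
    have hD : (Δ : ℝ) ^ (-(4 * r)) = 1 / X ^ 4 := by
      rw [eq_div_iff (by positivity)]
      exact hX4
    have e1 : a * (L + 1) ≤ 2 * (1 / X ^ 4) * X := by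
      calc a * (L + 1) ≤ (2 * (Δ : ℝ) ^ (-(4 * r))) * X := by
            apply mul_le_mul _ hW hL10 (by have := hpos (-(4 * r)); positivity)
            linarith
        _ = _ := by rw [hD]
    have e2 : (s + 2) * (L + 1) ^ 2 * a ^ κ ≤ (s + 2) * X ^ 2 * (2 * (1 / X ^ 4)) := by
      rw [← hD]
      apply mul_le_mul _ haκ (Real.rpow_nonneg ha0 _) (by positivity)
      apply mul_le_mul_of_nonneg_left _ (by positivity)
      exact pow_le_pow_left₀ hL10 hW 2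
    have e3 : 2 * (1 / X ^ 4) * X ≤ 2 / X := by
      have : 2 * (1 / X ^ 4) * X = 2 / X ^ 3 := by field_simp
      rw [this]
      apply div_le_div_of_nonneg_left (by norm_num) hX0
      calc X = X ^ 1 := (pow_one X).symm
        _ ≤ X ^ 3 := pow_le_pow_right₀ hr1 (by norm_num)
    have e4 : (s + 2) * X ^ 2 * (2 * (1 / X ^ 4)) ≤ 2 * (s + 2) / X := by
      have : ((s : ℝ) + 2) * X ^ 2 * (2 * (1 / X ^ 4)) = 2 * (s + 2) / X ^ 2 := by field_simp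
      rw [this]
      apply div_le_div_of_nonneg_left (by positivity) hX0
      calc X = X ^ 1 := (pow_one X).symm
        _ ≤ X ^ 2 := pow_le_pow_right₀ hr1 (by norm_num)
    have e5 : 2 / X + 2 * (s + 2) / X ≤ 1 / 2 := by
      rw [← add_div, div_le_iff₀ hX0]
      linarith
    linarith
  · rw [Real.log_rpow hΔ0, ← hL]
    have : 0 ≤ (1 - 4 * δ) * L := by
      apply mul_nonneg _ hL0.le
      linarith
    linarith
  · intro q hq
    set Q : ℝ := q - Δ * (t₀ / (Δ : ℝ) ^ (2 * δ)) - ε / 4 * (Δ / L) with hQ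
    have hΔL : 0 < (Δ : ℝ) / L := by positivity
    -- lower bound on Q
    have h1 : (Δ : ℝ) * (t₀ / (Δ : ℝ) ^ (2 * δ)) ≤ ε / 4 * (Δ / L) := by
      have h2 : (t₀ : ℝ) / (Δ : ℝ) ^ (2 * δ) ≤ 2 * (Δ : ℝ) ^ (-δ) := by
        rw [div_le_iff₀ (hpos _), mul_assoc, hrpow]
        have : -δ + 2 * δ = δ := by ring
        rw [this]
        exact ht2
      have h3 : 2 * (Δ : ℝ) ^ (-δ) ≤ ε / 4 * (1 / L) := by
        rw [mul_one_div, le_div_iff₀ hL0]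
        have h4 : L ≤ (Δ : ℝ) ^ (δ / 2) := by linarith
        have h5 : (Δ : ℝ) ^ (-δ) * ((Δ : ℝ) ^ (δ / 2) * (Δ : ℝ) ^ (δ / 2)) = 1 := by
          rw [hrpow, hrpow]
          have : -δ + (δ / 2 + δ / 2) = 0 := by ring
          rw [this, Real.rpow_zero]
        have h6 : (16 / ε) * L ≤ (Δ : ℝ) ^ (δ / 2) * (Δ : ℝ) ^ (δ / 2) := by
          apply mul_le_mul hC2 h4 hL0.le (hpos _).le
        have h7 : (Δ : ℝ) ^ (-δ) * ((16 / ε) * L) ≤ 1 := by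
          rw [← h5]
          exact mul_le_mul_of_nonneg_left h6 (hpos _).le
        have h8 : (Δ : ℝ) ^ (-δ) * L * 16 ≤ ε := by
          have : (Δ : ℝ) ^ (-δ) * ((16 / ε) * L) = ((Δ : ℝ) ^ (-δ) * L * 16) / ε := by
            field_simp
          rw [this, div_le_one hε] at h7
          exact h7
        nlinarith [hpos (-δ)]
      calc (Δ : ℝ) * (t₀ / (Δ : ℝ) ^ (2 * δ)) ≤ Δ * (ε / 4 * (1 / L)) :=
            mul_le_mul_of_nonneg_left (h2.trans h3) hΔ0.le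
        _ = ε / 4 * (Δ / L) := by ring
    have hQ1 : (1 + ε / 2) * (Δ / L) ≤ Q := by
      rw [hQ]; linarith
    have hQ0 : (Δ : ℝ) / L ≤ Q := by
      refine le_trans ?_ hQ1
      nlinarith
    -- main term
    have hy : Real.log ((Δ : ℝ) ^ (1 - 4 * δ)) = (1 - 4 * δ) * L := by
      rw [Real.log_rpow hΔ0]
    rw [hy]
    have h9 : (Δ : ℝ) ≤ (1 - 4 * δ) * L * Q := by
      have h10 : (1 - 4 * δ) * (1 + ε / 2) ≥ 1 := by
        rw [hδ]; nlinarith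
      have h11 : 0 ≤ (1 - 4 * δ) * L := by
        apply mul_nonneg _ hL0.le
        linarith
      calc (Δ : ℝ) = 1 * Δ := (one_mul _).symm
        _ ≤ ((1 - 4 * δ) * (1 + ε / 2)) * Δ := mul_le_mul_of_nonneg_right h10 hΔ0.le
        _ = (1 - 4 * δ) * L * ((1 + ε / 2) * (Δ / L)) := by field_simp
        _ ≤ (1 - 4 * δ) * L * Q := mul_le_mul_of_nonneg_left hQ1 h11
    have h12 : (Δ : ℝ) ^ (1 - 4 * δ) * (Δ : ℝ) ^ (2 * δ) ≤ 1 / 2 * Q := by
      rw [hrpow]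
      have h13 : (1 : ℝ) - 4 * δ + 2 * δ = 1 + -(2 * δ) := by ring
      rw [h13, ← hrpow, Real.rpow_one]
      have h14 : (Δ : ℝ) ^ (-(2 * δ)) ≤ 1 / 2 * (1 / L) := by
        rw [mul_one_div, le_div_iff₀ hL0]
        have h4 : L ≤ (Δ : ℝ) ^ (δ / 2) := by linarith
        have h5 : (Δ : ℝ) ^ (-(2 * δ)) * ((Δ : ℝ) ^ (δ / 2) * (Δ : ℝ) ^ (3 * δ / 2)) = 1 := by
          rw [hrpow, hrpow]
          have : -(2 * δ) + (δ / 2 + 3 * δ / 2) = 0 := by ring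
          rw [this, Real.rpow_zero]
        have h6 : (2 : ℝ) ≤ (Δ : ℝ) ^ (3 * δ / 2) := by
          have : (Δ : ℝ) ^ δ ≤ (Δ : ℝ) ^ (3 * δ / 2) := by
            apply Real.rpow_le_rpow_of_exponent_le hΔ1
            linarith
          linarith
        have h7 : L * 2 ≤ (Δ : ℝ) ^ (δ / 2) * (Δ : ℝ) ^ (3 * δ / 2) :=
          mul_le_mul h4 h6 (by norm_num) (hpos _).le
        have h8 : (Δ : ℝ) ^ (-(2 * δ)) * (L * 2) ≤ 1 := by
          rw [← h5]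
          exact mul_le_mul_of_nonneg_left h7 (hpos _).le
        linarith
      calc (Δ : ℝ) * (Δ : ℝ) ^ (-(2 * δ)) ≤ Δ * (1 / 2 * (1 / L)) :=
            mul_le_mul_of_nonneg_left h14 hΔ0.le
        _ = 1 / 2 * (Δ / L) := by ring
        _ ≤ 1 / 2 * Q := by linarith
    have h15 : (1 + (1 - 4 * δ) * L - 1 / 2) * Q - Δ = ((1 - 4 * δ) * L * Q - Δ) + 1 / 2 * Q := by
      ring
    rw [h15]
    linarith

/-- Graphs of maximum degree at most `Δ` whose neighbourhoods become `K_{s,s}`-free after the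
removal of at most `(ε/4)Δ/log Δ` vertices can be coloured with any `q ≥ (1+ε)Δ/log Δ`
colours. -/
theorem robust (ε : ℝ) (hε : 0 < ε) (hε1 : ε ≤ 1) (s : ℕ) :
    ∀ᶠ Δ : ℕ in atTop, ∀ (V : Type) [Fintype V] [DecidableEq V] (G : SimpleGraph V)
      [DecidableRel G.Adj] (D : V → Finset V),
      (∀ v, (univ.filter (fun u => G.Adj v u)).card ≤ Δ) →
      (∀ v, ((D v).card : ℝ) ≤ ε / 4 * (Δ / Real.log Δ)) →
      (∀ v, ∀ S T : Finset V, (∀ x ∈ S, G.Adj v x ∧ x ∉ D v) →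
        (∀ x ∈ T, G.Adj v x ∧ x ∉ D v) → S.card = s → T.card = s →
        ∃ x ∈ S, ∃ u ∈ T, ¬ G.Adj u x) →
      ∀ q : ℕ, (1 + ε) * (Δ / Real.log Δ) ≤ q → G.Colorable q := by
  filter_upwards [eventually_params ε hε hε1 s, eventually_ge_atTop 3] with Δ hparams hΔ3
  intro V _ _ G _ D hdeg hD hfree q hq
  obtain ⟨t₀, ℓ, y, W₀, ht₀, hℓ, hy, hyW, herr, hη, hnum⟩ := hparams
  have hΔ3' : (3 : ℝ) ≤ Δ := by exact_mod_cast hΔ3
  have hL0 : 0 < Real.log Δ := Real.log_pos (by linarith)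
  have hq0 : 0 < q := by
    have h1 : 0 < (1 + ε) * (Δ / Real.log Δ) := by positivity
    have h2 : (0 : ℝ) < q := lt_of_lt_of_le h1 hq
    exact_mod_cast h2
  exact colorable_of_numeric' Δ t₀ s ht₀ ℓ y (1 / 2) (ε / 4 * (Δ / Real.log Δ)) W₀ hℓ hy hq0 D
    hdeg hD hfree hyW herr hη (hnum q hq)

end Pool.Agent.Lib.MP_349e33_co
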