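import Mathlib

/-!
The quantities `c(F, Δ)` and `c(F)`.
-/

namespace Pool.Agent.Lib.MP_349e33_co

open Filter
open scoped ENNReal

open Classical in
/-- `c(F, Δ) ∈ [0, ∞]`: the supremum of `χ(G) / (Δ / log Δ)` over all finite `F`-free graphs `G`
of maximum degree exactly `Δ` (supremum over an empty set being `0`). Every finite graph is
isomorphic to a graph on some `Fin n`. -/
noncomputable def cAt {W : Type*} (F : SimpleGraph W) (Δ : ℕ) : ℝ≥0∞ :=
  ⨆ (n : ℕ) (G : SimpleGraph (Fin n)) (_ : F.Free G) (_ : G.maxDegree = Δ),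
    (G.chromaticNumber : ℝ≥0∞) / ENNReal.ofReal ((Δ : ℝ) / Real.log (Δ : ℝ))

/-- `c(F) = limsup_{Δ → ∞} c(F, Δ) ∈ [0, ∞]`. -/
noncomputable def cF {W : Type*} (F : SimpleGraph W) : ℝ≥0∞ := limsup (cAt F) atTop

end Pool.Agent.Lib.MP_349e33_co
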