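import Mathlib
import Pool.Agent.Lib.MP_349e33_co.Defs
import Pool.Agent.Lib.MP_349e33_co.Asymp

/-!
Reformulations of `c(F) ≤ a` by real inequalities.
-/

namespace Pool.Agent.Lib.MP_349e33_co

open Finset Filter
open scoped ENNReal

set_option linter.unusedSectionVars false

theorem deg_eq {V : Type*} [Fintype V] (G : SimpleGraph V) [DecidableRel G.Adj] (v : V) :
    (univ.filter (fun u => G.Adj v u)).card = G.degree v := by
  rw [← SimpleGraph.card_neighborFinset_eq_degree]
  congr 1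
  ext u
  simp

/-- The bound with exact maximum degree. -/
def BEx {W : Type*} (F : SimpleGraph W) (a : ℝ) : Prop :=
  ∀ᶠ Δ : ℕ in atTop, ∀ (V : Type) [Fintype V] (G : SimpleGraph V) [DecidableRel G.Adj],
    F.Free G → G.maxDegree = Δ →
      ∃ n : ℕ, G.Colorable n ∧ (n : ℝ) ≤ a * ((Δ : ℝ) / Real.log Δ)

/-- The bound with maximum degree at most `Δ`. -/
def BLe {W : Type*} (F : SimpleGraph W) (a : ℝ) : Prop :=
  ∀ᶠ Δ : ℕ in atTop, ∀ (V : Type) [Fintype V] (G : SimpleGraph V) [DecidableRel G.Adj],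
    F.Free G → (∀ v, G.degree v ≤ Δ) →
      ∃ n : ℕ, G.Colorable n ∧ (n : ℝ) ≤ a * ((Δ : ℝ) / Real.log Δ)

theorem BLe.bex {W : Type*} {F : SimpleGraph W} {a : ℝ} (h : BLe F a) : BEx F a := by
  filter_upwards [h] with Δ hΔ V _ G _ hF hmax
  exact hΔ V G hF fun v => hmax ▸ G.degree_le_maxDegree v

theorem BEx.mono {W : Type*} {F : SimpleGraph W} {a b : ℝ} (h : BEx F a) (hab : a ≤ b) :
    BEx F b := by
  filter_upwards [h, eventually_ge_atTop 2] with Δ hΔ hΔ2 V _ G _ hF hmax
  obtain ⟨n, hn, hle⟩ := hΔ V G hF hmax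
  refine ⟨n, hn, hle.trans ?_⟩
  apply mul_le_mul_of_nonneg_right hab
  have : (2 : ℝ) ≤ Δ := by exact_mod_cast hΔ2
  have : 0 ≤ Real.log Δ := Real.log_nonneg (by linarith)
  positivity

theorem BLe.mono {W : Type*} {F : SimpleGraph W} {a b : ℝ} (h : BLe F a) (hab : a ≤ b) :
    BLe F b := by
  filter_upwards [h, eventually_ge_atTop 2] with Δ hΔ hΔ2 V _ G _ hF hmax
  obtain ⟨n, hn, hle⟩ := hΔ V G hF hmax
  refine ⟨n, hn, hle.trans ?_⟩
  apply mul_le_mul_of_nonneg_right hab
  have : (2 : ℝ) ≤ Δ := by exact_mod_cast hΔ2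
  have : 0 ≤ Real.log Δ := Real.log_nonneg (by linarith)
  positivity

/-- Greedy colouring. -/
theorem colorable_of_degree_lt {V : Type*} [Fintype V] (G : SimpleGraph V) [DecidableRel G.Adj]
    (q : ℕ) (hdeg : ∀ v, G.degree v < q) : G.Colorable q := by
  classical
  rcases isEmpty_or_nonempty V with h | h
  · exact SimpleGraph.Colorable.of_isEmpty q
  have hq : 0 < q := by
    obtain ⟨v⟩ := h
    exact lt_of_le_of_lt (Nat.zero_le _) (hdeg v)
  have hpos : ∀ S : Finset V, 0 < (propS G q S).card := by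
    intro S
    induction S using Finset.induction_on with
    | empty =>
      rw [card_pos]
      exact ⟨fun _ => ⟨0, hq⟩, by simp [mem_propS]⟩
    | insert v S hv ih =>
      have h1 := card_insert (G := G) (q := q) hv
      have h2 : (propS G q S).card ≤ ∑ σ ∈ propS G q S, (av G q S σ v).card := by
        rw [card_eq_sum_ones]
        apply sum_le_sum
        intro σ _
        rw [Nat.one_le_iff_ne_zero, ← Nat.pos_iff_ne_zero, card_pos]
        by_contra hcon
        rw [not_nonempty_iff_eq_empty] at hcon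
        have h3 : (univ : Finset (Fin q)) ⊆ (univ.filter (fun u => G.Adj v u)).image σ := by
          intro c _
          have h4 : c ∉ av G q S σ v := by rw [hcon]; exact notMem_empty _
          rw [mem_av] at h4
          push Not at h4
          obtain ⟨w, _, hvw, hw⟩ := h4
          rw [mem_image]
          exact ⟨w, mem_filter.2 ⟨mem_univ _, hvw⟩, hw⟩
        have h5 := card_le_card h3
        rw [card_univ, Fintype.card_fin] at h5
        have h6 : ((univ.filter (fun u => G.Adj v u)).image σ).card ≤ G.degree v := by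
          rw [← deg_eq]
          exact card_image_le
        have := hdeg v
        omega
      by_contra hcon
      rw [Nat.pos_iff_ne_zero, not_not] at hcon
      rw [hcon] at h1
      omega
  obtain ⟨σ, hσ⟩ := card_pos.1 (hpos univ)
  rw [mem_propS] at hσ
  exact ⟨SimpleGraph.Coloring.mk σ (fun {u w} huw => hσ u (mem_univ _) w (mem_univ _) huw)⟩

/-- `x / log x` is monotone on naturals at least `3`. -/
theorem div_log_mono {d Δ : ℕ} (hd : 3 ≤ d) (hdΔ : d ≤ Δ) :
    (d : ℝ) / Real.log d ≤ (Δ : ℝ) / Real.log Δ := by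
  have hd' : (3 : ℝ) ≤ d := by exact_mod_cast hd
  have hΔ' : (d : ℝ) ≤ Δ := by exact_mod_cast hdΔ
  have h1 : Real.exp 1 ≤ d := (Real.exp_one_lt_three.le).trans hd'
  have h2 := Real.log_div_self_antitoneOn h1 (h1.trans hΔ') hΔ'
  simp only at h2
  have hlogd : 0 < Real.log d := Real.log_pos (by linarith)
  have hlogΔ : 0 < Real.log Δ := Real.log_pos (by linarith)
  rw [div_le_div_iff₀ hlogd hlogΔ]
  rw [div_le_div_iff₀ (by linarith) (by linarith)] at h2
  linarith

theorem tendsto_div_log : ∀ C : ℝ, ∀ᶠ Δ : ℕ in atTop, C ≤ (Δ : ℝ) / Real.log Δ := by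
  intro C
  filter_upwards [eventually_log_le_rpow (1 / 2) (by norm_num),
    eventually_const_le_rpow C (1 / 2) (by norm_num), eventually_ge_atTop 3] with Δ h1 h2 h3
  have h3' : (3 : ℝ) ≤ Δ := by exact_mod_cast h3
  have hlog : 0 < Real.log Δ := Real.log_pos (by linarith)
  refine h2.trans ?_
  rw [le_div_iff₀ hlog]
  calc (Δ : ℝ) ^ (1 / 2 : ℝ) * Real.log Δ ≤ (Δ : ℝ) ^ (1 / 2 : ℝ) * (Δ : ℝ) ^ (1 / 2 : ℝ) := by
        apply mul_le_mul_of_nonneg_left _ (by positivity)
        linarith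
    _ = Δ := by
        rw [← Real.rpow_add (by linarith)]
        norm_num

theorem BEx.ble {W : Type*} {F : SimpleGraph W} {a : ℝ} (ha : 0 ≤ a) (h : BEx F a) {ε : ℝ}
    (hε : 0 < ε) : BLe F (a + ε) := by
  unfold BEx at h
  rw [eventually_atTop] at h
  obtain ⟨Δ₀, hΔ₀⟩ := h
  set Δ₁ := max Δ₀ 3 with hΔ₁
  filter_upwards [tendsto_div_log (Δ₁ / ε), eventually_ge_atTop Δ₁] with Δ hΔ hΔΔ₁ V _ G _ hF hdeg
  have hmax : G.maxDegree ≤ Δ := SimpleGraph.maxDegree_le_of_forall_degree_le _ _ hdeg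
  have hpos : (0 : ℝ) ≤ (Δ : ℝ) / Real.log Δ := by
    refine le_trans ?_ hΔ
    positivity
  rcases le_or_gt Δ₁ G.maxDegree with h1 | h1
  · obtain ⟨n, hn, hle⟩ := hΔ₀ G.maxDegree ((le_max_left _ _).trans h1) V G hF rfl
    refine ⟨n, hn, hle.trans ?_⟩
    calc a * ((G.maxDegree : ℝ) / Real.log G.maxDegree) ≤ a * ((Δ : ℝ) / Real.log Δ) := by
          apply mul_le_mul_of_nonneg_left _ ha
          exact div_log_mono ((le_max_right _ _).trans h1) hmax
      _ ≤ (a + ε) * ((Δ : ℝ) / Real.log Δ) := by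
          apply mul_le_mul_of_nonneg_right _ hpos
          linarith
  · refine ⟨Δ₁, ?_, ?_⟩
    · apply colorable_of_degree_lt
      intro v
      exact lt_of_le_of_lt (G.degree_le_maxDegree v) h1
    · rw [div_le_iff₀ hε] at hΔ
      have : 0 ≤ a * ((Δ : ℝ) / Real.log Δ) := mul_nonneg ha hpos
      linarith

theorem cF_le_of_bex {W : Type*} {F : SimpleGraph W} {a : ℝ} (ha : 0 ≤ a)
    (h : ∀ ε : ℝ, 0 < ε → BEx F (a + ε)) : cF F ≤ ENNReal.ofReal a := by
  apply ENNReal.le_of_forall_pos_le_add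
  intro ε hε _
  have hε' : (0 : ℝ) < ε := by exact_mod_cast hε
  have h1 := h ε hε'
  have h2 : ENNReal.ofReal a + ε = ENNReal.ofReal (a + ε) := by
    rw [ENNReal.ofReal_add ha hε'.le, ENNReal.ofReal_coe_nnreal]
  rw [h2]
  unfold cF
  apply limsup_le_of_le
  · isBoundedDefault
  · filter_upwards [h1, eventually_ge_atTop 2] with Δ hΔ hΔ2
    unfold cAt
    apply iSup_le
    intro n
    apply iSup_le
    intro G
    apply iSup_le
    intro hF
    apply iSup_le
    intro hmax
    classical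
    obtain ⟨k, hk, hle⟩ := hΔ (Fin n) G hF (by convert hmax)
    have hΔ2' : (2 : ℝ) ≤ Δ := by exact_mod_cast hΔ2
    have hlog : 0 < Real.log Δ := Real.log_pos (by linarith)
    have hpos : 0 < (Δ : ℝ) / Real.log Δ := by positivity
    rw [ENNReal.div_le_iff_le_mul (Or.inl (by simpa using hpos)) (Or.inl ENNReal.ofReal_ne_top),
      ← ENNReal.ofReal_mul (by positivity)]
    calc (G.chromaticNumber : ℝ≥0∞) ≤ ((k : ℕ∞) : ℝ≥0∞) := by
          exact_mod_cast hk.chromaticNumber_le
      _ = ENNReal.ofReal (k : ℝ) := by simp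
      _ ≤ _ := ENNReal.ofReal_le_ofReal hle

theorem bex_of_cF_le {W : Type*} {F : SimpleGraph W} {a : ℝ} (ha : 0 ≤ a)
    (h : cF F ≤ ENNReal.ofReal a) {ε : ℝ} (hε : 0 < ε) : BEx F (a + ε) := by
  have h1 : cF F < ENNReal.ofReal (a + ε) := by
    refine lt_of_le_of_lt h ?_
    rw [ENNReal.ofReal_lt_ofReal_iff (by linarith)]
    linarith
  unfold cF at h1
  have h2 := eventually_lt_of_limsup_lt h1 (by isBoundedDefault)
  filter_upwards [h2, eventually_ge_atTop 2] with Δ hΔ hΔ2 V _ G _ hF hmax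
  have hΔ2' : (2 : ℝ) ≤ Δ := by exact_mod_cast hΔ2
  have hlog : 0 < Real.log Δ := Real.log_pos (by linarith)
  have hpos : 0 < (Δ : ℝ) / Real.log Δ := by positivity
  classical
  have hiso := G.overFinIso (rfl : Fintype.card V = Fintype.card V)
  set G' := G.overFin (rfl : Fintype.card V = Fintype.card V) with hG'
  have hF' : F.Free G' := by
    rw [← SimpleGraph.free_congr_right hiso]
    exact hF
  have hmax' : G'.maxDegree = Δ := by
    rw [← hmax]
    exact (SimpleGraph.Iso.maxDegree_eq hiso).symm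
  have h3 : (G'.chromaticNumber : ℝ≥0∞) / ENNReal.ofReal ((Δ : ℝ) / Real.log (Δ : ℝ)) ≤
      cAt F Δ := by
    unfold cAt
    refine le_trans ?_ (le_iSup _ (Fintype.card V))
    refine le_trans ?_ (le_iSup _ G')
    refine le_trans ?_ (le_iSup _ hF')
    refine le_trans ?_ (le_iSup _ (by convert hmax'))
    exact le_rfl
  have h4 := h3.trans hΔ.le
  rw [ENNReal.div_le_iff_le_mul (Or.inl (by simpa using hpos)) (Or.inl ENNReal.ofReal_ne_top),
      ← ENNReal.ofReal_mul (by positivity)] at h4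
  have hcol : G.Colorable (ENat.toNat G.chromaticNumber) :=
    SimpleGraph.colorable_chromaticNumber (SimpleGraph.colorable_of_fintype G)
  refine ⟨ENat.toNat G.chromaticNumber, hcol, ?_⟩
  have h5 : G'.chromaticNumber = G.chromaticNumber :=
    (SimpleGraph.chromaticNumber_congr hiso).symm
  rw [h5] at h4
  have h6 : G.chromaticNumber ≠ ⊤ :=
    SimpleGraph.chromaticNumber_ne_top_iff_exists.2 ⟨_, SimpleGraph.colorable_of_fintype G⟩
  have h7 : (G.chromaticNumber : ℝ≥0∞) = ENNReal.ofReal ((ENat.toNat G.chromaticNumber : ℕ) : ℝ) := by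
    rw [ENNReal.ofReal_natCast]
    conv_lhs => rw [← ENat.coe_toNat h6]
    simp
  rw [h7, ENNReal.ofReal_le_ofReal_iff (by positivity)] at h4
  exact h4

end Pool.Agent.Lib.MP_349e33_co
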