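import Mathlib
import Pool.Agent.Lib.MP_349e33_co.CF

/-!
Forests: `c(T) = 0`.
-/

namespace Pool.Agent.Lib.MP_349e33_co

open Finset Filter
open scoped ENNReal

set_option linter.unusedSectionVars false

theorem exists_degree_le_one {V : Type*} [Fintype V] [Nonempty V] (T : SimpleGraph V)
    [DecidableRel T.Adj] (hT : T.IsAcyclic) : ∃ v, T.degree v ≤ 1 := by
  classical
  rcases subsingleton_or_nontrivial V with h | h
  · obtain ⟨v⟩ := (inferInstance : Nonempty V)
    refine ⟨v, ?_⟩
    have : T.degree v < Fintype.card V := T.degree_lt_card_verts v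
    have h2 : Fintype.card V ≤ 1 := Fintype.card_le_one_iff_subsingleton.2 h
    omega
  · obtain ⟨T', hT', _, htree⟩ :=
      (SimpleGraph.connected_top (V := V)).exists_isTree_le_of_le_of_isAcyclic le_top hT
    obtain ⟨v, hv⟩ := htree.exists_vert_degree_one_of_nontrivial
    refine ⟨v, ?_⟩
    have h1 : T.degree v ≤ T'.degree v := by
      rw [← deg_eq, ← deg_eq]
      apply card_le_card
      intro u hu
      rw [mem_filter] at hu ⊢
      exact ⟨hu.1, hT' hu.2⟩
    omega

theorem exists_leaf {W : Type*} [DecidableEq W] (T : SimpleGraph W) [DecidableRel T.Adj]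
    (hT : T.IsAcyclic) (R : Finset W) (hR : R.Nonempty) :
    ∃ v ∈ R, (R.filter (fun u => T.Adj v u)).card ≤ 1 := by
  classical
  have hne : Nonempty (R : Set W) := hR.to_subtype
  obtain ⟨⟨v, hv⟩, hdeg⟩ := exists_degree_le_one (T.induce (R : Set W)) (hT.induce _)
  refine ⟨v, hv, le_trans (le_of_eq ?_) hdeg⟩
  rw [← deg_eq]
  symm
  apply card_bij (fun (x : (R : Set W)) _ => (x : W))
  · rintro ⟨x, hx⟩ h
    rw [mem_filter] at h ⊢
    exact ⟨hx, h.2⟩
  · rintro ⟨x, hx⟩ _ ⟨y, hy⟩ _ h
    exact Subtype.ext h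
  · intro x hx
    rw [mem_filter] at hx
    exact ⟨⟨x, hx.1⟩, by rw [mem_filter]; exact ⟨mem_univ _, hx.2⟩, rfl⟩

theorem forest_embed {W V : Type*} [Fintype W] [DecidableEq W] [DecidableEq V]
    (T : SimpleGraph W) [DecidableRel T.Adj] (hT : T.IsAcyclic) (H : SimpleGraph V)
    [DecidableRel H.Adj] (S : Finset V) (hS : S.Nonempty)
    (hdeg : ∀ v ∈ S, Fintype.card W ≤ (S.filter (fun u => H.Adj v u)).card) :
    ∀ n : ℕ, ∀ R : Finset W, R.card = n → ∃ ψ : W → V, (∀ w ∈ R, ψ w ∈ S) ∧
      Set.InjOn ψ R ∧ ∀ u ∈ R, ∀ w ∈ R, T.Adj u w → H.Adj (ψ u) (ψ w) := by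
  intro n
  induction n with
  | zero =>
    intro R hR
    rw [card_eq_zero] at hR
    subst hR
    obtain ⟨x, _⟩ := hS
    exact ⟨fun _ => x, by simp, by simp, by simp⟩
  | succ n ih =>
    intro R hR
    have hRne : R.Nonempty := by rw [← card_pos]; omega
    obtain ⟨v, hv, hleaf⟩ := exists_leaf T hT R hRne
    obtain ⟨ψ, h1, h2, h3⟩ := ih (R.erase v) (by rw [card_erase_of_mem hv, hR]; rfl)
    have himg : ((R.erase v).image ψ).card < Fintype.card W := by
      have h4 : ((R.erase v).image ψ).card ≤ (R.erase v).card := card_image_le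
      have h5 : (R.erase v).card < R.card := card_erase_lt_of_mem hv
      have h6 : R.card ≤ Fintype.card W := card_le_univ R
      omega
    -- choose a base vertex of `S`
    obtain ⟨x, hxS, hx⟩ : ∃ x ∈ S, ∀ u ∈ R.erase v, T.Adj v u → ψ u = x := by
      by_cases h : ∃ u ∈ R.erase v, T.Adj v u
      · obtain ⟨u, hu, hvu⟩ := h
        refine ⟨ψ u, h1 u hu, fun u' hu' hvu' => ?_⟩
        have : u' = u := by
          apply card_le_one.1 hleaf
          · exact mem_filter.2 ⟨mem_of_mem_erase hu', hvu'⟩
          · exact mem_filter.2 ⟨mem_of_mem_erase hu, hvu⟩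
        rw [this]
      · push Not at h
        obtain ⟨x, hx⟩ := hS
        exact ⟨x, hx, fun u hu hvu => absurd hvu (h u hu)⟩
    obtain ⟨y, hy, hyn⟩ : ∃ y ∈ S.filter (fun u => H.Adj x u), y ∉ (R.erase v).image ψ := by
      by_contra hcon
      push Not at hcon
      have := card_le_card (show S.filter (fun u => H.Adj x u) ⊆ (R.erase v).image ψ from hcon)
      have := hdeg x hxS
      omega
    rw [mem_filter] at hy
    refine ⟨Function.update ψ v y, ?_, ?_, ?_⟩
    · intro w hw
      by_cases hwv : w = v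
      · subst hwv; simpa using hy.1
      · rw [Function.update_of_ne hwv]
        exact h1 w (mem_erase.2 ⟨hwv, hw⟩)
    · intro a ha b hb hab
      rw [mem_coe] at ha hb
      by_cases hav : a = v
      · by_cases hbv : b = v
        · rw [hav, hbv]
        · subst hav
          rw [Function.update_self, Function.update_of_ne hbv] at hab
          exact absurd (mem_image.2 ⟨b, mem_erase.2 ⟨hbv, hb⟩, hab.symm⟩) hyn
      · by_cases hbv : b = v
        · subst hbv
          rw [Function.update_self, Function.update_of_ne hav] at hab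
          exact absurd (mem_image.2 ⟨a, mem_erase.2 ⟨hav, ha⟩, hab⟩) hyn
        · rw [Function.update_of_ne hav, Function.update_of_ne hbv] at hab
          exact h2 (mem_coe.2 (mem_erase.2 ⟨hav, ha⟩)) (mem_coe.2 (mem_erase.2 ⟨hbv, hb⟩)) hab
    · intro a ha b hb hab
      by_cases hav : a = v
      · have hbv : b ≠ v := fun h => hab.ne (hav.trans h.symm)
        subst hav
        rw [Function.update_self, Function.update_of_ne hbv,
          hx b (mem_erase.2 ⟨hbv, hb⟩) hab]
        exact hy.2.symm
      · by_cases hbv : b = v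
        · subst hbv
          rw [Function.update_self, Function.update_of_ne hav,
            hx a (mem_erase.2 ⟨hav, ha⟩) hab.symm]
          exact hy.2
        · rw [Function.update_of_ne hav, Function.update_of_ne hbv]
          exact h3 a (mem_erase.2 ⟨hav, ha⟩) b (mem_erase.2 ⟨hbv, hb⟩) hab

theorem av_card_pos {V : Type*} [Fintype V] [DecidableEq V] {G : SimpleGraph V}
    [DecidableRel G.Adj] {q : ℕ} {S : Finset V} {v : V} (σ : V → Fin q)
    (h : (S.filter (fun u => G.Adj v u)).card < q) : 0 < (av G q S σ v).card := by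
  rw [card_pos]
  by_contra hcon
  rw [not_nonempty_iff_eq_empty] at hcon
  have h3 : (univ : Finset (Fin q)) ⊆ (S.filter (fun u => G.Adj v u)).image σ := by
    intro c _
    have h4 : c ∉ av G q S σ v := by rw [hcon]; exact notMem_empty _
    rw [mem_av] at h4
    push Not at h4
    obtain ⟨w, hw, hvw, hwc⟩ := h4
    rw [mem_image]
    exact ⟨w, mem_filter.2 ⟨hw, hvw⟩, hwc⟩
  have h5 := card_le_card h3
  rw [card_univ, Fintype.card_fin] at h5
  have h6 : ((S.filter (fun u => G.Adj v u)).image σ).card ≤
    (S.filter (fun u => G.Adj v u)).card := card_image_le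
  omega

/-- Degenerate graphs can be coloured greedily. -/
theorem colorable_of_degenerate {V : Type*} [Fintype V] [DecidableEq V] (G : SimpleGraph V)
    [DecidableRel G.Adj] (q : ℕ)
    (h : ∀ S : Finset V, S.Nonempty → ∃ v ∈ S, (S.filter (fun u => G.Adj v u)).card < q) :
    G.Colorable q := by
  rcases isEmpty_or_nonempty V with hV | hV
  · exact SimpleGraph.Colorable.of_isEmpty q
  have hq : 0 < q := by
    obtain ⟨v, _, hv⟩ := h univ univ_nonempty
    omega
  have hpos : ∀ n : ℕ, ∀ S : Finset V, S.card = n → 0 < (propS G q S).card := by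
    intro n
    induction n with
    | zero =>
      intro S hS
      rw [card_eq_zero] at hS
      subst hS
      rw [card_pos]
      exact ⟨fun _ => ⟨0, hq⟩, by simp [mem_propS]⟩
    | succ n ih =>
      intro S hS
      obtain ⟨v, hv, hdeg⟩ := h S (by rw [← card_pos]; omega)
      have h1 := card_insert (G := G) (q := q) (notMem_erase v S)
      rw [insert_erase hv] at h1
      have h0 := ih (S.erase v) (by rw [card_erase_of_mem hv, hS]; rfl)
      obtain ⟨σ, hσ⟩ := card_pos.1 h0
      have h2 : 0 < ∑ σ ∈ propS G q (S.erase v), (av G q (S.erase v) σ v).card := by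
        apply sum_pos
        · intro σ _
          apply av_card_pos
          refine lt_of_le_of_lt (card_le_card ?_) hdeg
          exact filter_subset_filter _ (erase_subset _ _)
        · exact ⟨σ, hσ⟩
      rw [← h1] at h2
      exact Nat.pos_of_mul_pos_right h2
  obtain ⟨σ, hσ⟩ := card_pos.1 (hpos _ univ rfl)
  rw [mem_propS] at hσ
  exact ⟨SimpleGraph.Coloring.mk σ (fun {u w} huw => hσ u (mem_univ _) w (mem_univ _) huw)⟩

theorem forest_free_colorable {W V : Type*} [Fintype W] [Fintype V]
    (T : SimpleGraph W) (hT : T.IsAcyclic) (H : SimpleGraph V) (hfree : T.Free H) :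
    H.Colorable (Fintype.card W) := by
  classical
  apply colorable_of_degenerate
  intro S hS
  by_contra hcon
  push Not at hcon
  apply hfree
  obtain ⟨ψ, _, h2, h3⟩ := forest_embed T hT H S hS hcon (Fintype.card W) univ (card_univ)
  exact ⟨⟨⟨ψ, fun {u w} huw => h3 u (mem_univ _) w (mem_univ _) huw⟩,
    fun a b hab => h2 (mem_coe.2 (mem_univ _)) (mem_coe.2 (mem_univ _)) hab⟩⟩

theorem ble_forest {W : Type*} [Fintype W] (T : SimpleGraph W) (hT : T.IsAcyclic) {ε : ℝ}
    (hε : 0 < ε) : BLe T ε := by
  filter_upwards [tendsto_div_log ((Fintype.card W) / ε)] with Δ hΔ V _ G _ hF _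
  refine ⟨Fintype.card W, forest_free_colorable T hT G hF, ?_⟩
  rw [div_le_iff₀ hε] at hΔ
  linarith

theorem cF_forest {W : Type*} [Finite W] (T : SimpleGraph W) (hT : T.IsAcyclic) : cF T = 0 := by
  have := Fintype.ofFinite W
  have h := cF_le_of_bex (F := T) (a := 0) le_rfl (fun ε hε => by
    rw [zero_add]
    exact (ble_forest T hT hε).bex)
  simpa using h

end Pool.Agent.Lib.MP_349e33_co
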