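import Mathlib
import Pool.Agent.Lib.MP_349e33_co.Forest

/-!
Attaching bipartite pieces at apexes.
-/

namespace Pool.Agent.Lib.MP_349e33_co

open Finset Filter
open scoped ENNReal

set_option linter.unusedSectionVars false

/-- `x` is rich: after the removal of any `f` vertices its neighbourhood contains `K_{s,s}`. -/
def Rich {V : Type*} (G : SimpleGraph V) (f s : ℕ) (x : V) : Prop :=
  ∀ D : Finset V, D.card ≤ f → ∃ S T : Finset V, S.card = s ∧ T.card = s ∧
    (∀ a ∈ S, G.Adj x a ∧ a ∉ D) ∧ (∀ a ∈ T, G.Adj x a ∧ a ∉ D) ∧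
    ∀ a ∈ S, ∀ b ∈ T, G.Adj a b

theorem exists_key {W : Type*} (F : SimpleGraph W) (A : Set W)
    (hatt : ∀ u v : (Aᶜ : Set W), (F.induce Aᶜ).Reachable u v → ∀ a ∈ A, ∀ b ∈ A,
      F.Adj u a → F.Adj v b → a = b) :
    ∃ κ : W → Option W, (∀ w a, κ w = some a → a ∈ A) ∧
      (∀ w, w ∉ A → ∀ a ∈ A, F.Adj w a → κ w = some a) ∧
      (∀ u w, u ∉ A → w ∉ A → F.Adj u w → κ u = κ w) := by
  classical
  -- the property of being the attachment of `w`
  let P : W → W → Prop := fun w a => a ∈ A ∧ ∃ (hw : w ∈ Aᶜ) (v : (Aᶜ : Set W)),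
    (F.induce Aᶜ).Reachable ⟨w, hw⟩ v ∧ F.Adj v a
  have huniq : ∀ w a b, P w a → P w b → a = b := by
    rintro w a b ⟨ha, hw, v, hv, hva⟩ ⟨hb, _, v', hv', hvb⟩
    exact hatt v v' (hv.symm.trans hv') a ha b hb hva hvb
  refine ⟨fun w => if h : ∃ a, P w a then some h.choose else none, ?_, ?_, ?_⟩
  · intro w a h
    simp only at h
    split_ifs at h with h'
    rw [Option.some.injEq] at h
    rw [← h]
    exact h'.choose_spec.1
  · intro w hw a ha hwa
    have hP : P w a := ⟨ha, hw, ⟨w, hw⟩, SimpleGraph.Reachable.refl _, hwa⟩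
    have h : ∃ a, P w a := ⟨a, hP⟩
    simp only [dif_pos h, Option.some.injEq]
    exact huniq w _ _ h.choose_spec hP
  · intro u w hu hw huw
    have hPP : ∀ a, P u a ↔ P w a := by
      intro a
      have hadj : (F.induce Aᶜ).Adj ⟨u, hu⟩ ⟨w, hw⟩ := huw
      constructor
      · rintro ⟨ha, _, v, hv, hva⟩
        exact ⟨ha, hw, v, hadj.symm.reachable.trans hv, hva⟩
      · rintro ⟨ha, _, v, hv, hva⟩
        exact ⟨ha, hu, v, hadj.reachable.trans hv, hva⟩
    by_cases h : ∃ a, P u a
    · have h' : ∃ a, P w a := by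
        obtain ⟨a, ha⟩ := h
        exact ⟨a, (hPP a).1 ha⟩
      simp only [dif_pos h, dif_pos h', Option.some.injEq]
      exact huniq w _ _ ((hPP _).1 h.choose_spec) h'.choose_spec
    · have h' : ¬ ∃ a, P w a := by
        rintro ⟨a, ha⟩
        exact h ⟨a, (hPP a).2 ha⟩
      simp only [dif_neg h, dif_neg h']

/-- Greedy extension of a copy of `F[A]` in the set of rich vertices. -/
theorem extend_copy {W V : Type*} [Fintype W] [DecidableEq W] [Fintype V] [DecidableEq V]
    (F : SimpleGraph W) (A : Set W) (G : SimpleGraph V)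
    (hbip : (F.induce Aᶜ).Colorable 2)
    (hatt : ∀ u v : (Aᶜ : Set W), (F.induce Aᶜ).Reachable u v → ∀ a ∈ A, ∀ b ∈ A,
      F.Adj u a → F.Adj v b → a = b)
    (X : Set V) (hX : ∀ x ∈ X, Rich G (Fintype.card W) (Fintype.card W) x) (hXne : X.Nonempty)
    (hcopy : (F.induce A).IsContained (G.induce X)) : F.IsContained G := by
  classical
  obtain ⟨κ, hκ1, hκ2, hκ3⟩ := exists_key F A hatt
  obtain ⟨φ⟩ := hcopy
  obtain ⟨χ⟩ := hbip
  obtain ⟨x₀, hx₀⟩ := hXne
  set f := Fintype.card W with hf
  -- the statement for a finite set of keys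
  have key : ∀ K : Finset (Option W), ∃ ψ : W → V,
      (∀ (w : W) (hw : w ∈ A), ψ w = (φ ⟨w, hw⟩ : X)) ∧
      (∀ u w, (u ∈ A ∨ κ u ∈ K) → (w ∈ A ∨ κ w ∈ K) → ψ u = ψ w → u = w) ∧
      (∀ u w, (u ∈ A ∨ κ u ∈ K) → (w ∈ A ∨ κ w ∈ K) → F.Adj u w → G.Adj (ψ u) (ψ w)) := by
    intro K
    induction K using Finset.induction_on with
    | empty =>
      refine ⟨fun w => if hw : w ∈ A then (φ ⟨w, hw⟩ : X) else x₀, ?_, ?_, ?_⟩
      · intro w hw
        simp only [dif_pos hw]
      · intro u w hu hw huw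
        have hu' : u ∈ A := by simpa using hu
        have hw' : w ∈ A := by simpa using hw
        simp only [dif_pos hu', dif_pos hw'] at huw
        have := φ.injective (Subtype.ext huw)
        exact congrArg Subtype.val this
      · intro u w hu hw huw
        have hu' : u ∈ A := by simpa using hu
        have hw' : w ∈ A := by simpa using hw
        simp only [dif_pos hu', dif_pos hw']
        exact φ.toHom.map_adj (show (F.induce A).Adj ⟨u, hu'⟩ ⟨w, hw'⟩ from huw)
    | insert k K hk ih =>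
      obtain ⟨ψ, h1, h2, h3⟩ := ih
      -- the vertex of `X` used for the new piece
      obtain ⟨x, hxX, hx⟩ : ∃ x ∈ X, ∀ a, ∀ ha : a ∈ A, k = some a → x = (φ ⟨a, ha⟩ : X) := by
        cases k with
        | none => exact ⟨x₀, hx₀, fun a _ h => absurd h (by simp)⟩
        | some a =>
          by_cases ha : a ∈ A
          · refine ⟨(φ ⟨a, ha⟩ : X), (φ ⟨a, ha⟩ : X).2, fun b hb hab => ?_⟩
            rw [Option.some.injEq] at hab
            subst hab
            rfl
          · refine ⟨x₀, hx₀, fun b hb hab => ?_⟩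
            rw [Option.some.injEq] at hab
            subst hab
            exact absurd hb ha
      obtain ⟨S, T, hSc, hTc, hS, hT, hST⟩ := hX x hxX (univ.image ψ) (by
        refine card_image_le.trans ?_
        rw [card_univ])
      have eS : Nonempty (W ↪ S) := by
        rw [Function.Embedding.nonempty_iff_card_le, Fintype.card_coe, hSc]
      have eT : Nonempty (W ↪ T) := by
        rw [Function.Embedding.nonempty_iff_card_le, Fintype.card_coe, hTc]
      obtain ⟨eS⟩ := eS
      obtain ⟨eT⟩ := eT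
      -- new vertices
      let new : W → Prop := fun w => w ∉ A ∧ κ w = k
      let ψ' : W → V := fun w => if h : new w then
        (if χ ⟨w, h.1⟩ = 0 then (eS w : V) else (eT w : V)) else ψ w
      have hnew : ∀ w (h : new w), ψ' w =
          if χ ⟨w, h.1⟩ = 0 then (eS w : V) else (eT w : V) := fun w h => by
        simp only [ψ', dif_pos h]
      have hold : ∀ w, ¬ new w → ψ' w = ψ w := fun w h => by
        simp only [ψ', dif_neg h]
      have hclass : ∀ w, (w ∈ A ∨ κ w ∈ insert k K) → new w ∨ (¬ new w ∧ (w ∈ A ∨ κ w ∈ K)) := by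
        intro w hw
        by_cases h : new w
        · exact Or.inl h
        · right
          refine ⟨h, ?_⟩
          rcases hw with hw | hw
          · exact Or.inl hw
          · rw [mem_insert] at hw
            rcases hw with hw | hw
            · by_cases hwA : w ∈ A
              · exact Or.inl hwA
              · exact absurd ⟨hwA, hw⟩ h
            · exact Or.inr hw
      have hnotold : ∀ w (h : new w), ∀ u, ψ' w ≠ ψ u := by
        intro w h u hcon
        have hmem : ψ u ∈ univ.image ψ := mem_image_of_mem _ (mem_univ _)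
        rw [hnew w h] at hcon
        split_ifs at hcon
        · exact (hS _ (eS w).2).2 (hcon ▸ hmem)
        · exact (hT _ (eT w).2).2 (hcon ▸ hmem)
      have hadjx : ∀ w (h : new w), G.Adj x (ψ' w) := by
        intro w h
        rw [hnew w h]
        split_ifs
        · exact (hS _ (eS w).2).1
        · exact (hT _ (eT w).2).1
      refine ⟨ψ', ?_, ?_, ?_⟩
      · intro w hw
        rw [hold w (fun h => h.1 hw)]
        exact h1 w hw
      · intro u w hu hw huw
        rcases hclass u hu with hu' | ⟨hu', hu''⟩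
        · rcases hclass w hw with hw' | ⟨hw', hw''⟩
          · rw [hnew u hu', hnew w hw'] at huw
            split_ifs at huw with c1 c2 c2
            · exact eS.injective (Subtype.ext huw)
            · exfalso
              have hadj := hST (eS u) (eS u).2 (eT w) (eT w).2
              rw [huw] at hadj
              exact G.loopless.irrefl _ hadj
            · exfalso
              have hadj := hST (eS w) (eS w).2 (eT u) (eT u).2
              rw [huw] at hadj
              exact G.loopless.irrefl _ hadj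
            · exact eT.injective (Subtype.ext huw)
          · rw [hold w hw'] at huw
            exact absurd huw (hnotold u hu' w)
        · rcases hclass w hw with hw' | ⟨hw', hw''⟩
          · rw [hold u hu'] at huw
            exact absurd huw.symm (hnotold w hw' u)
          · rw [hold u hu', hold w hw'] at huw
            exact h2 u w hu'' hw'' huw
      · -- adjacency between a new vertex and a vertex of `A`, etc.
        have hA : ∀ u w, new u → w ∈ A → F.Adj u w → G.Adj (ψ' u) (ψ' w) := by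
          intro u w hu hw huw
          have hk2 := hκ2 u hu.1 w hw huw
          rw [hu.2] at hk2
          have hxw := hx w hw hk2
          rw [hold w (fun h => h.1 hw), h1 w hw, ← hxw]
          exact (hadjx u hu).symm
        have hmix : ∀ u w, new u → ¬ new w → (w ∈ A ∨ κ w ∈ K) → F.Adj u w →
            G.Adj (ψ' u) (ψ' w) := by
          intro u w hu hw' hw'' huw
          by_cases hwA : w ∈ A
          · exact hA u w hu hwA huw
          · exfalso
            have := hκ3 u w hu.1 hwA huw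
            exact hw' ⟨hwA, this.symm.trans hu.2⟩
        intro u w hu hw huw
        rcases hclass u hu with hu' | ⟨hu', hu''⟩
        · rcases hclass w hw with hw' | ⟨hw', hw''⟩
          · have hχ : χ ⟨u, hu'.1⟩ ≠ χ ⟨w, hw'.1⟩ :=
              χ.valid (show (F.induce Aᶜ).Adj ⟨u, hu'.1⟩ ⟨w, hw'.1⟩ from huw)
            rw [hnew u hu', hnew w hw']
            split_ifs with c1 c2 c2
            · exact absurd (c1.trans c2.symm) hχ
            · exact hST _ (eS u).2 _ (eT w).2
            · exact (hST _ (eS w).2 _ (eT u).2).symm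
            · exfalso
              apply hχ
              have e1 : ∀ z : Fin 2, z ≠ 0 → z = 1 := by decide
              rw [e1 _ c1, e1 _ c2]
          · exact hmix u w hu' hw' hw'' huw
        · rcases hclass w hw with hw' | ⟨hw', hw''⟩
          · exact (hmix w u hw' hu' hu'' huw.symm).symm
          · rw [hold u hu', hold w hw']
            exact h3 u w hu'' hw'' huw
  obtain ⟨ψ, _, h2, h3⟩ := key univ
  exact ⟨⟨⟨ψ, fun {u w} huw => h3 u w (Or.inr (mem_univ _)) (Or.inr (mem_univ _)) huw⟩,
    fun a b hab => h2 a b (Or.inr (mem_univ _)) (Or.inr (mem_univ _)) hab⟩⟩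

/-- The main bound. -/
theorem ble_apex {W : Type*} [Fintype W] (F : SimpleGraph W) (A : Set W)
    (hbip : (F.induce Aᶜ).Colorable 2)
    (hatt : ∀ u v : (Aᶜ : Set W), (F.induce Aᶜ).Reachable u v → ∀ a ∈ A, ∀ b ∈ A,
      F.Adj u a → F.Adj v b → a = b) {a : ℝ} (ha : 0 ≤ a) (h : BLe (F.induce A) a) {ε : ℝ}
    (hε : 0 < ε) (hε1 : ε ≤ 1) : BLe F (1 + a + 2 * ε) := by
  classical
  set f := Fintype.card W with hf
  filter_upwards [h, robust ε hε hε1 f, tendsto_div_log (f / (ε / 4)), tendsto_div_log (1 / ε),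
    eventually_ge_atTop 3] with Δ hΔ hrob hf1 hf2 hΔ3 V _ G _ hfree hdeg
  have hΔ3' : (3 : ℝ) ≤ Δ := by exact_mod_cast hΔ3
  have hlog : 0 < Real.log Δ := Real.log_pos (by linarith)
  have hpos : 0 < (Δ : ℝ) / Real.log Δ := by positivity
  -- rich vertices
  set X : Set V := {x | Rich G f f x} with hX
  have hX' : ∀ x, x ∈ X ↔ Rich G f f x := fun x => Iff.rfl
  -- colour the rich vertices
  obtain ⟨n₂, hn₂, hle₂⟩ : ∃ n₂ : ℕ, (G.induce X).Colorable n₂ ∧
      (n₂ : ℝ) ≤ a * ((Δ : ℝ) / Real.log Δ) := by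
    by_cases hXne : X.Nonempty
    · have hfree' : (F.induce A).Free (G.induce X) := fun hc =>
        hfree (extend_copy F A G hbip hatt X (fun x hx => hx) hXne hc)
      apply hΔ X (G.induce X) hfree'
      intro v
      refine le_trans ?_ (hdeg v)
      rw [← deg_eq, ← deg_eq]
      apply card_le_card_of_injOn (fun x : X => (x : V))
      · intro u hu
        rw [mem_coe, mem_filter] at hu ⊢
        exact ⟨mem_univ _, hu.2⟩
      · intro x _ y _ hxy
        exact Subtype.ext hxy
    · refine ⟨0, ?_, ?_⟩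
      · rw [Set.not_nonempty_iff_eq_empty] at hXne
        rw [SimpleGraph.colorable_zero_iff, hXne]
        exact ⟨fun x => x.2⟩
      · simp only [Nat.cast_zero]
        positivity
  -- colour the poor vertices
  let G' : SimpleGraph V :=
    { Adj := fun u v => G.Adj u v ∧ u ∉ X ∧ v ∉ X
      symm := ⟨fun u v h => ⟨h.1.symm, h.2.2, h.2.1⟩⟩
      loopless := ⟨fun u h => G.loopless.irrefl u h.1⟩ }
  have hpoor : ∀ v, v ∉ X → ∃ D : Finset V, D.card ≤ f ∧ ∀ S T : Finset V, S.card = f →
      T.card = f → (∀ a ∈ S, G.Adj v a ∧ a ∉ D) → (∀ a ∈ T, G.Adj v a ∧ a ∉ D) →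
      ∃ a ∈ S, ∃ b ∈ T, ¬ G.Adj a b := by
    intro v hv
    rw [hX'] at hv
    unfold Rich at hv
    push Not at hv
    obtain ⟨D, hD, hD2⟩ := hv
    exact ⟨D, hD, fun S T hS hT h1 h2 => hD2 S T hS hT h1 h2⟩
  have hpoor' : ∀ v, ∃ D : Finset V, D.card ≤ f ∧ ∀ S T : Finset V,
      (∀ x ∈ S, G'.Adj v x ∧ x ∉ D) → (∀ x ∈ T, G'.Adj v x ∧ x ∉ D) → S.card = f → T.card = f →
      ∃ x ∈ S, ∃ u ∈ T, ¬ G'.Adj u x := by
    intro v
    rcases Nat.eq_zero_or_pos f with hf0 | hf0
    · -- `F` has no vertices: impossible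
      exfalso
      apply hfree
      have : IsEmpty W := Fintype.card_eq_zero_iff.1 hf0
      exact SimpleGraph.IsContained.of_isEmpty
    by_cases hv : v ∈ X
    · refine ⟨∅, by simp, fun S T hS _ hSc _ => ?_⟩
      have hSne : S.Nonempty := by rw [← card_pos, hSc]; exact hf0
      obtain ⟨x, hx⟩ := hSne
      exact absurd hv (hS x hx).1.2.1
    · obtain ⟨D, hD, hD2⟩ := hpoor v hv
      refine ⟨D, hD, fun S T hS hT hSc hTc => ?_⟩
      obtain ⟨x, hx, u, hu, hxu⟩ := hD2 S T hSc hTc
        (fun x hx => ⟨(hS x hx).1.1, (hS x hx).2⟩) (fun x hx => ⟨(hT x hx).1.1, (hT x hx).2⟩)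
      exact ⟨x, hx, u, hu, fun h => hxu h.1.symm⟩
  choose D hD1 hD2 using hpoor'
  have hq : (1 + ε) * ((Δ : ℝ) / Real.log Δ) ≤ (⌈(1 + ε) * ((Δ : ℝ) / Real.log Δ)⌉₊ : ℝ) :=
    Nat.le_ceil _
  have hcol : G'.Colorable ⌈(1 + ε) * ((Δ : ℝ) / Real.log Δ)⌉₊ := by
    apply hrob V G' D _ _ hD2 _ hq
    · intro v
      refine le_trans ?_ (hdeg v)
      rw [← deg_eq]
      apply card_le_card
      intro u hu
      rw [mem_filter] at hu ⊢
      exact ⟨hu.1, hu.2.1⟩
    · intro v
      have h1 : ((D v).card : ℝ) ≤ f := by exact_mod_cast hD1 v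
      refine h1.trans ?_
      rw [div_le_iff₀ (by positivity)] at hf1
      linarith
  obtain ⟨c₁⟩ := hcol
  obtain ⟨c₂⟩ := hn₂
  refine ⟨⌈(1 + ε) * ((Δ : ℝ) / Real.log Δ)⌉₊ + n₂, ?_, ?_⟩
  · let c : G.Coloring (Fin ⌈(1 + ε) * ((Δ : ℝ) / Real.log Δ)⌉₊ ⊕ Fin n₂) :=
      SimpleGraph.Coloring.mk (fun v => if h : v ∈ X then Sum.inr (c₂ ⟨v, h⟩) else Sum.inl (c₁ v))
      (by
        intro u v huv
        by_cases hu : u ∈ X
        · by_cases hv : v ∈ X
          · simp only [dif_pos hu, dif_pos hv]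
            intro hcon
            rw [Sum.inr.injEq] at hcon
            exact c₂.valid (show (G.induce X).Adj ⟨u, hu⟩ ⟨v, hv⟩ from huv) hcon
          · simp only [dif_pos hu, dif_neg hv]
            exact Sum.inr_ne_inl
        · by_cases hv : v ∈ X
          · simp only [dif_neg hu, dif_pos hv]
            exact Sum.inl_ne_inr
          · simp only [dif_neg hu, dif_neg hv]
            intro hcon
            rw [Sum.inl.injEq] at hcon
            exact c₁.valid (show G'.Adj u v from ⟨huv, hu, hv⟩) hcon)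
    have := c.colorable
    rwa [Fintype.card_sum, Fintype.card_fin, Fintype.card_fin] at this
  · push_cast
    have h1 : (⌈(1 + ε) * ((Δ : ℝ) / Real.log Δ)⌉₊ : ℝ) ≤
        (1 + ε) * ((Δ : ℝ) / Real.log Δ) + 1 :=
      (Nat.ceil_lt_add_one (by positivity)).le
    have h2 : 1 ≤ ε * ((Δ : ℝ) / Real.log Δ) := by
      rw [div_le_iff₀ hε] at hf2
      linarith
    nlinarith

/-- If every component of `F - A` is bipartite and has at most one neighbour in `A` then
`c(F) ≤ 1 + c(F[A])`. -/
theorem cF_apex {W : Type*} [Finite W] (F : SimpleGraph W) (A : Set W)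
    (hbip : (F.induce Aᶜ).Colorable 2)
    (hatt : ∀ u v : (Aᶜ : Set W), (F.induce Aᶜ).Reachable u v → ∀ a ∈ A, ∀ b ∈ A,
      F.Adj u a → F.Adj v b → a = b) :
    cF F ≤ 1 + cF (F.induce A) := by
  have := Fintype.ofFinite W
  rcases eq_or_ne (cF (F.induce A)) ⊤ with htop | htop
  · rw [htop]; simp
  set a : ℝ := (cF (F.induce A)).toReal with ha
  have ha0 : 0 ≤ a := ENNReal.toReal_nonneg
  have ha' : cF (F.induce A) = ENNReal.ofReal a := (ENNReal.ofReal_toReal htop).symm
  have h1 : (1 : ℝ≥0∞) + cF (F.induce A) = ENNReal.ofReal (1 + a) := by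
    rw [ha', ENNReal.ofReal_add zero_le_one ha0, ENNReal.ofReal_one]
  rw [h1]
  apply cF_le_of_bex (by linarith)
  intro ε hε
  -- reduce to small `ε`
  set ε' : ℝ := min (ε / 4) 1 with hε'
  have hε'0 : 0 < ε' := lt_min (by linarith) one_pos
  have hε'1 : ε' ≤ 1 := min_le_right _ _
  have hε'2 : ε' ≤ ε / 4 := min_le_left _ _
  have h2 : BEx (F.induce A) (a + ε') := bex_of_cF_le ha0 ha'.le hε'0
  have h3 : BLe (F.induce A) (a + ε' + ε') := h2.ble (by linarith) hε'0
  have h4 := ble_apex F A hbip hatt (by linarith) h3 hε'0 hε'1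
  exact (h4.mono (by linarith)).bex

end Pool.Agent.Lib.MP_349e33_co
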