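import Mathlib

/-!
The symmetric Lovász local lemma in counting form (the theorems `lll_aux` and `lll` are due to
helper48, file `Pool/Agent/S07181.lean`), and a version for random functions `V → Fin K`.
-/

namespace Pool.Agent.Lib.MP_349e33_co

open Finset

/-- `good bad Om S` : the outcomes avoiding all bad events indexed by `S`. -/
def good {Ω β : Type} [DecidableEq Ω] (Om : Finset Ω) (bad : β → Finset Ω) (S : Finset β) :
    Finset Ω :=
  Om.filter (fun w => ∀ B ∈ S, w ∉ bad B)

theorem mem_good {Ω β : Type} [DecidableEq Ω] (Om : Finset Ω) (bad : β → Finset Ω)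
    (S : Finset β) (w : Ω) : w ∈ good Om bad S ↔ w ∈ Om ∧ ∀ B ∈ S, w ∉ bad B := by
  unfold good
  rw [mem_filter]

theorem lll_aux {Ω β : Type} [DecidableEq Ω] [DecidableEq β] (Om : Finset Ω)
    (bad : β → Finset Ω) (F : Finset β) (N : β → Finset β) (p : ℝ) (d : ℝ) (hp : 0 ≤ p)
    (hd : ∀ A ∈ F, ((N A).card : ℝ) ≤ d)
    (hpd : 4 * p * d ≤ 1)
    (hind : ∀ A ∈ F, ∀ S ⊆ F, Disjoint S (N A) → A ∉ S →
      (((good Om bad S).filter (fun w => w ∈ bad A)).card : ℝ) ≤ p * (good Om bad S).card) :
    ∀ k : ℕ, ∀ S ⊆ F, S.card = k → ∀ A ∈ F, A ∉ S →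
      (((good Om bad S).filter (fun w => w ∈ bad A)).card : ℝ) ≤
        2 * p * (good Om bad S).card := by
  intro k
  induction k using Nat.strong_induction_on with
  | _ k ih =>
    intro S hSF hSk A hA hAS
    set S1 := S.filter (fun B => B ∈ N A) with hS1
    set S2 := S.filter (fun B => B ∉ N A) with hS2
    have hS2F : S2 ⊆ F := (filter_subset _ _).trans hSF
    have hS2S : S2 ⊆ S := filter_subset _ _
    have hdis : Disjoint S2 (N A) := by
      rw [Finset.disjoint_left]
      intro B hB
      exact (mem_filter.1 hB).2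
    have hAS2 : A ∉ S2 := fun h => hAS (hS2S h)
    have h2 := hind A hA S2 hS2F hdis hAS2
    have hmono : ((good Om bad S).filter (fun w => w ∈ bad A)).card ≤
        ((good Om bad S2).filter (fun w => w ∈ bad A)).card := by
      apply card_le_card
      intro w hw
      have hw1 := mem_filter.1 hw
      have hw2 := mem_filter.1 hw1.1
      exact mem_filter.2 ⟨mem_filter.2 ⟨hw2.1, fun B hB => hw2.2 B (hS2S hB)⟩, hw1.2⟩
    have hmonoR : (((good Om bad S).filter (fun w => w ∈ bad A)).card : ℝ) ≤
        (((good Om bad S2).filter (fun w => w ∈ bad A)).card : ℝ) := Nat.cast_le.2 hmono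
    by_cases hne : S1 = ∅
    · have hSS2 : S = S2 := by
        ext B
        constructor
        · intro hB
          rw [hS2, mem_filter]
          refine ⟨hB, fun hBN => ?_⟩
          have : B ∈ S1 := by rw [hS1, mem_filter]; exact ⟨hB, hBN⟩
          rw [hne] at this
          exact absurd this (notMem_empty B)
        · intro hB; exact hS2S hB
      rw [hSS2]
      have h0 : 0 ≤ p * ((good Om bad S2).card : ℝ) := mul_nonneg hp (Nat.cast_nonneg _)
      linarith
    · have hlt : S2.card < k := by
        rw [← hSk]
        apply card_lt_card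
        refine ⟨hS2S, fun hsub => ?_⟩
        obtain ⟨B, hB⟩ := Finset.nonempty_iff_ne_empty.2 hne
        have hB' := mem_filter.1 hB
        have := hsub hB'.1
        exact (mem_filter.1 this).2 hB'.2
      -- lower bound on good S
      have hsub : good Om bad S2 ⊆ good Om bad S ∪
          S1.biUnion (fun B => (good Om bad S2).filter (fun w => w ∈ bad B)) := by
        intro w hw
        by_cases hg : w ∈ good Om bad S
        · exact mem_union_left _ hg
        · apply mem_union_right
          have hw' := mem_filter.1 hw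
          have : ∃ B ∈ S, w ∈ bad B := by
            by_contra hcon
            exact hg (mem_filter.2 ⟨hw'.1, fun B hBS hBw => hcon ⟨B, hBS, hBw⟩⟩)
          obtain ⟨B, hBS, hBw⟩ := this
          have hBN : B ∈ N A := by
            by_contra hBN
            exact hw'.2 B (mem_filter.2 ⟨hBS, hBN⟩) hBw
          exact mem_biUnion.2 ⟨B, mem_filter.2 ⟨hBS, hBN⟩, mem_filter.2 ⟨hw, hBw⟩⟩
      have hcard : ((good Om bad S2).card : ℝ) ≤ (good Om bad S).card +
          ∑ B ∈ S1, (((good Om bad S2).filter (fun w => w ∈ bad B)).card : ℝ) := by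
        have h1 := (card_le_card hsub).trans (card_union_le _ _)
        have h3 := card_biUnion_le (s := S1)
          (t := fun B => (good Om bad S2).filter (fun w => w ∈ bad B))
        have h4 : (good Om bad S2).card ≤ (good Om bad S).card +
          ∑ B ∈ S1, ((good Om bad S2).filter (fun w => w ∈ bad B)).card := by omega
        exact_mod_cast h4
      have hsum : ∑ B ∈ S1, (((good Om bad S2).filter (fun w => w ∈ bad B)).card : ℝ) ≤
          (S1.card : ℝ) * (2 * p * (good Om bad S2).card) := by
        rw [← nsmul_eq_mul]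
        apply sum_le_card_nsmul
        intro B hB
        have hB' := mem_filter.1 hB
        exact ih S2.card hlt S2 hS2F rfl B (hSF hB'.1) (fun h => (mem_filter.1 h).2 hB'.2)
      have hS1d : (S1.card : ℝ) ≤ d := by
        refine le_trans ?_ (hd A hA)
        have : S1.card ≤ (N A).card := by
          apply card_le_card
          intro B hB
          exact (mem_filter.1 hB).2
        exact_mod_cast this
      have hg2 : (0 : ℝ) ≤ (good Om bad S2).card := by positivity
      have hhalf : (S1.card : ℝ) * (2 * p * (good Om bad S2).card) ≤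
          (1 / 2) * (good Om bad S2).card := by
        have h5 : (S1.card : ℝ) * (2 * p) ≤ 1 / 2 := by
          have h6 : (S1.card : ℝ) * (2 * p) ≤ d * (2 * p) :=
            mul_le_mul_of_nonneg_right hS1d (by positivity)
          linarith
        calc (S1.card : ℝ) * (2 * p * (good Om bad S2).card)
            = ((S1.card : ℝ) * (2 * p)) * (good Om bad S2).card := by ring
          _ ≤ (1 / 2) * (good Om bad S2).card := mul_le_mul_of_nonneg_right h5 hg2
      have hlow : ((good Om bad S2).card : ℝ) ≤ 2 * (good Om bad S).card := by linarith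
      calc (((good Om bad S).filter (fun w => w ∈ bad A)).card : ℝ)
          ≤ p * (good Om bad S2).card := hmonoR.trans h2
        _ ≤ p * (2 * (good Om bad S).card) := mul_le_mul_of_nonneg_left hlow hp
        _ = 2 * p * (good Om bad S).card := by ring

theorem lll {Ω β : Type} [DecidableEq Ω] [DecidableEq β] (Om : Finset Ω) (hOm : Om.Nonempty)
    (bad : β → Finset Ω) (F : Finset β) (N : β → Finset β) (p : ℝ) (d : ℝ) (hp : 0 ≤ p)
    (hp2 : 2 * p < 1)
    (hd : ∀ A ∈ F, ((N A).card : ℝ) ≤ d)
    (hpd : 4 * p * d ≤ 1)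
    (hind : ∀ A ∈ F, ∀ S ⊆ F, Disjoint S (N A) → A ∉ S →
      (((good Om bad S).filter (fun w => w ∈ bad A)).card : ℝ) ≤ p * (good Om bad S).card) :
    (good Om bad F).Nonempty := by
  have haux := lll_aux Om bad F N p d hp hd hpd hind
  have key : ∀ S : Finset β, S ⊆ F → (good Om bad S).Nonempty := by
    intro S
    induction S using Finset.induction_on with
    | empty =>
      intro _
      obtain ⟨w, hw⟩ := hOm
      exact ⟨w, mem_filter.2 ⟨hw, by simp⟩⟩
    | insert A S hAS ihS =>
      intro hsub
      have hA : A ∈ F := hsub (mem_insert_self A S)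
      have hSF : S ⊆ F := (subset_insert A S).trans hsub
      have hne := ihS hSF
      have hpos : (0 : ℝ) < (good Om bad S).card := by
        exact_mod_cast Finset.card_pos.2 hne
      have h1 := haux S.card S hSF rfl A hA hAS
      by_contra hcon
      rw [Finset.not_nonempty_iff_eq_empty] at hcon
      have hall : (good Om bad S).filter (fun w => w ∈ bad A) = good Om bad S := by
        apply filter_true_of_mem
        intro w hw
        by_contra hwA
        have : w ∈ good Om bad (insert A S) := by
          have hw' := mem_filter.1 hw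
          refine mem_filter.2 ⟨hw'.1, ?_⟩
          intro B hB
          rcases mem_insert.1 hB with rfl | hB
          · exact hwA
          · exact hw'.2 B hB
        rw [hcon] at this
        exact absurd this (notMem_empty w)
      rw [hall] at h1
      have : 2 * p * ((good Om bad S).card : ℝ) < 1 * (good Om bad S).card :=
        mul_lt_mul_of_pos_right hp2 hpos
      linarith
  exact key F (Subset.refl F)


/-! ### Product spaces -/

section Product

set_option linter.unusedSectionVars false

variable {V : Type} [Fintype V] [DecidableEq V] {K : ℕ}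

/-- The event `E` is determined by the values on `T`. -/
def DetBy (E : Finset (V → Fin K)) (T : Finset V) : Prop :=
  ∀ κ κ' : V → Fin K, (∀ v ∈ T, κ v = κ' v) → (κ ∈ E ↔ κ' ∈ E)

theorem DetBy.mono {E : Finset (V → Fin K)} {T T' : Finset V} (h : DetBy E T) (hT : T ⊆ T') :
    DetBy E T' := fun κ κ' hκ => h κ κ' fun v hv => hκ v (hT hv)

/-- Independence of events determined by complementary sets of coordinates. -/
theorem indep_count (A B : Finset (V → Fin K)) (T : Finset V) (hA : DetBy A T)
    (hB : DetBy B Tᶜ) :
    (A ∩ B).card * (univ : Finset (V → Fin K)).card = A.card * B.card := by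
  rw [← card_product, ← card_product]
  let sw : (V → Fin K) → (V → Fin K) → V → Fin K := fun κ κ' v => if v ∈ T then κ v else κ' v
  have sw1 : ∀ κ κ', ∀ v ∈ T, sw κ κ' v = κ v := fun κ κ' v hv => by simp only [sw, if_pos hv]
  have sw2 : ∀ κ κ', ∀ v ∈ Tᶜ, sw κ κ' v = κ' v := fun κ κ' v hv => by
    rw [mem_compl] at hv
    simp only [sw, if_neg hv]
  have sw3 : ∀ κ κ', sw (sw κ κ') (sw κ' κ) = κ := fun κ κ' => by
    funext v
    by_cases hv : v ∈ T
    · rw [sw1 _ _ v hv, sw1 _ _ v hv]
    · rw [sw2 _ _ v (mem_compl.2 hv), sw2 _ _ v (mem_compl.2 hv)]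
  refine card_bij' (fun x _ => (sw x.1 x.2, sw x.2 x.1)) (fun x _ => (sw x.1 x.2, sw x.2 x.1))
    ?_ ?_ ?_ ?_
  · rintro ⟨κ, κ'⟩ h
    rw [mem_product, mem_inter] at h
    rw [mem_product]
    exact ⟨(hA κ _ fun v hv => (sw1 κ κ' v hv).symm).1 h.1.1,
      (hB κ _ fun v hv => (sw2 κ' κ v hv).symm).1 h.1.2⟩
  · rintro ⟨κ, κ'⟩ h
    rw [mem_product] at h
    rw [mem_product, mem_inter]
    exact ⟨⟨(hA κ _ fun v hv => (sw1 κ κ' v hv).symm).1 h.1,
      (hB κ' _ fun v hv => (sw2 κ κ' v hv).symm).1 h.2⟩, mem_univ _⟩
  · rintro ⟨κ, κ'⟩ _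
    exact Prod.ext (sw3 κ κ') (sw3 κ' κ)
  · rintro ⟨κ, κ'⟩ _
    exact Prod.ext (sw3 κ κ') (sw3 κ' κ)

/-- The local lemma for random functions. -/
theorem product_lll (hK : 0 < K) (E : V → Finset (V → Fin K)) (T : V → Finset V)
    (hdet : ∀ v, DetBy (E v) (T v)) (p d : ℝ) (hp : 0 ≤ p) (hp2 : 2 * p < 1)
    (hE : ∀ v, ((E v).card : ℝ) ≤ p * (univ : Finset (V → Fin K)).card)
    (hd : ∀ v, ((univ.filter (fun v' => ¬ Disjoint (T v) (T v'))).card : ℝ) ≤ d)
    (hpd : 4 * p * d ≤ 1) : ∃ κ : V → Fin K, ∀ v, κ ∉ E v := by
  have hne : (univ : Finset (V → Fin K)).Nonempty := ⟨fun _ => ⟨0, hK⟩, mem_univ _⟩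
  have h := lll (univ : Finset (V → Fin K)) hne E (univ : Finset V)
    (fun v => univ.filter (fun v' => ¬ Disjoint (T v) (T v'))) p d hp hp2 (fun v _ => hd v) hpd
    (by
      intro v _ S _ hdis hvS
      have hcardpos : (0 : ℝ) < (univ : Finset (V → Fin K)).card := by
        exact_mod_cast card_pos.2 hne
      have h1 : (good univ E S).filter (fun w => w ∈ E v) = E v ∩ good univ E S := by
        ext w
        rw [mem_filter, mem_inter, and_comm]
      have hgood : DetBy (good univ E S) (T v)ᶜ := by
        intro κ κ' hκ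
        rw [mem_good, mem_good]
        have h2 : ∀ v' ∈ S, (κ ∈ E v' ↔ κ' ∈ E v') := by
          intro v' hv'
          apply hdet v'
          intro u hu
          apply hκ
          rw [mem_compl]
          intro huT
          have h3 : v' ∈ univ.filter (fun v' => ¬ Disjoint (T v) (T v')) := by
            rw [mem_filter]
            refine ⟨mem_univ _, fun hd' => ?_⟩
            exact (Finset.disjoint_left.1 hd') huT hu
          exact (Finset.disjoint_left.1 hdis) hv' h3
        constructor
        · rintro ⟨_, h4⟩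
          exact ⟨mem_univ _, fun B hB => fun h5 => h4 B hB ((h2 B hB).2 h5)⟩
        · rintro ⟨_, h4⟩
          exact ⟨mem_univ _, fun B hB => fun h5 => h4 B hB ((h2 B hB).1 h5)⟩
      have h5 := indep_count (E v) (good univ E S) (T v) (hdet v) hgood
      rw [h1]
      have h6 : ((E v ∩ good univ E S).card : ℝ) * (univ : Finset (V → Fin K)).card =
          (E v).card * (good univ E S).card := by exact_mod_cast h5
      have h7 : ((E v ∩ good univ E S).card : ℝ) * (univ : Finset (V → Fin K)).card ≤
          (p * (good univ E S).card) * (univ : Finset (V → Fin K)).card := by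
        rw [h6]
        calc ((E v).card : ℝ) * (good univ E S).card
            ≤ (p * (univ : Finset (V → Fin K)).card) * (good univ E S).card :=
              mul_le_mul_of_nonneg_right (hE v) (by positivity)
          _ = _ := by ring
      exact le_of_mul_le_mul_right h7 hcardpos)
  obtain ⟨κ, hκ⟩ := h
  rw [mem_good] at hκ
  exact ⟨κ, fun v => hκ.2 v (mem_univ v)⟩

end Product

end Pool.Agent.Lib.MP_349e33_co
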