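import Mathlib
import Pool.Agent.Lib.MP_349e33_co.LLL
import Pool.Agent.Lib.MP_349e33_co.Asymp

/-!
Random partitions of graphs of large maximum degree.
-/

namespace Pool.Agent.Lib.MP_349e33_co

open Finset Filter

set_option linter.unusedSectionVars false

section Basic

variable {V : Type} [Fintype V] [DecidableEq V] {K : ℕ}

/-- Exponential moment of the number of elements of `N` coloured `p`. -/
theorem mgf_bound (hK : 0 < K) (N : Finset V) (p : Fin K) (z : ℝ) (hz : 1 ≤ z) :
    ∑ κ : V → Fin K, z ^ (N.filter (fun u => κ u = p)).card ≤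
      (univ : Finset (V → Fin K)).card * Real.exp ((z - 1) * N.card / K) := by
  have hK' : (0 : ℝ) < K := by exact_mod_cast hK
  have h1 : ∀ κ : V → Fin K, z ^ (N.filter (fun u => κ u = p)).card =
      ∏ u : V, (if u ∈ N ∧ κ u = p then z else 1) := by
    intro κ
    rw [← prod_filter, prod_const]
    congr 2
    ext u
    simp
  simp_rw [h1]
  have h2 := prod_univ_sum (fun _ : V => (univ : Finset (Fin K)))
    (fun (u : V) (c : Fin K) => if u ∈ N ∧ c = p then z else (1 : ℝ))
  rw [Fintype.piFinset_univ] at h2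
  rw [← h2]
  have h3 : ∀ u : V, ∑ c : Fin K, (if u ∈ N ∧ c = p then z else (1 : ℝ)) ≤
      (K : ℝ) * (if u ∈ N then Real.exp ((z - 1) / K) else 1) := by
    intro u
    by_cases hu : u ∈ N
    · simp only [hu, true_and, if_true]
      have h4 : ∑ c : Fin K, (if c = p then z else (1 : ℝ)) = K + (z - 1) := by
        have h5 : ∀ c : Fin K, (if c = p then z else (1 : ℝ)) = 1 + (if c = p then z - 1 else 0) := by
          intro c
          split_ifs <;> ring
        simp_rw [h5]
        rw [sum_add_distrib, sum_ite_eq' univ p]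
        simp
      rw [h4]
      have h6 : (K : ℝ) + (z - 1) = K * ((z - 1) / K + 1) := by
        field_simp
        ring
      rw [h6]
      exact mul_le_mul_of_nonneg_left (Real.add_one_le_exp _) hK'.le
    · simp [hu]
  calc ∏ u : V, ∑ c : Fin K, (if u ∈ N ∧ c = p then z else (1 : ℝ))
      ≤ ∏ u : V, (K : ℝ) * (if u ∈ N then Real.exp ((z - 1) / K) else 1) := by
        apply Finset.prod_le_prod
        · intro u _
          apply sum_nonneg
          intro c _
          split_ifs <;> linarith
        · intro u _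
          exact h3 u
    _ = (univ : Finset (V → Fin K)).card * Real.exp ((z - 1) * N.card / K) := by
        rw [prod_mul_distrib, prod_const, ← prod_filter, prod_const, card_univ, card_univ,
          Fintype.card_fun, Fintype.card_fin]
        have h7 : (univ.filter (fun u => u ∈ N)) = N := by
          ext u; simp
        rw [h7, ← Real.exp_nat_mul]
        push_cast
        congr 2
        ring

/-- Chernoff bound. -/
theorem chernoff (hK : 0 < K) (N : Finset V) (Δ : ℕ) (hN : N.card ≤ Δ) (p : Fin K) (ε : ℝ)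
    (hε : 0 < ε) :
    (((univ : Finset (V → Fin K)).filter
      (fun κ => (1 + ε) * (Δ / K : ℝ) < ((N.filter (fun u => κ u = p)).card : ℝ))).card : ℝ) ≤
      Real.exp (-((1 + ε) * Real.log (1 + ε) - ε) * (Δ / K)) *
        (univ : Finset (V → Fin K)).card := by
  have hK' : (0 : ℝ) < K := by exact_mod_cast hK
  have hN' : (N.card : ℝ) ≤ Δ := by exact_mod_cast hN
  have hz : (1 : ℝ) ≤ 1 + ε := by linarith
  have hlog : 0 ≤ Real.log (1 + ε) := Real.log_nonneg hz
  have h1 := mgf_bound hK N p (1 + ε) hz
  set S := (univ : Finset (V → Fin K)).filter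
      (fun κ => (1 + ε) * (Δ / K : ℝ) < ((N.filter (fun u => κ u = p)).card : ℝ)) with hS
  have h2 : (S.card : ℝ) * Real.exp ((1 + ε) * (Δ / K) * Real.log (1 + ε)) ≤
      ∑ κ : V → Fin K, (1 + ε) ^ (N.filter (fun u => κ u = p)).card := by
    calc (S.card : ℝ) * Real.exp ((1 + ε) * (Δ / K) * Real.log (1 + ε))
        = ∑ κ ∈ S, Real.exp ((1 + ε) * (Δ / K) * Real.log (1 + ε)) := by
          rw [sum_const, nsmul_eq_mul]
      _ ≤ ∑ κ ∈ S, (1 + ε) ^ (N.filter (fun u => κ u = p)).card := by
          apply sum_le_sum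
          intro κ hκ
          rw [hS, mem_filter] at hκ
          rw [← Real.rpow_natCast, Real.rpow_def_of_pos (by linarith)]
          apply Real.exp_le_exp.2
          rw [mul_comm]
          exact mul_le_mul_of_nonneg_left hκ.2.le hlog
      _ ≤ ∑ κ : V → Fin K, (1 + ε) ^ (N.filter (fun u => κ u = p)).card := by
          apply sum_le_sum_of_subset_of_nonneg (subset_univ _)
          intro κ _ _
          positivity
  have h3 := h2.trans h1
  rw [add_sub_cancel_left] at h3
  have h4 : Real.exp (ε * N.card / K) ≤ Real.exp (ε * (Δ / K)) := by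
    apply Real.exp_le_exp.2
    rw [mul_div_assoc]
    apply mul_le_mul_of_nonneg_left _ hε.le
    exact div_le_div_of_nonneg_right hN' hK'.le
  have h5 : (S.card : ℝ) * Real.exp ((1 + ε) * (Δ / K) * Real.log (1 + ε)) ≤
      (univ : Finset (V → Fin K)).card * Real.exp (ε * (Δ / K)) :=
    h3.trans (mul_le_mul_of_nonneg_left h4 (by positivity))
  have h6 : Real.exp (-((1 + ε) * Real.log (1 + ε) - ε) * (Δ / K)) =
      Real.exp (ε * (Δ / K)) / Real.exp ((1 + ε) * (Δ / K) * Real.log (1 + ε)) := by
    rw [← Real.exp_sub]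
    congr 1
    ring
  rw [h6, div_mul_eq_mul_div, le_div_iff₀ (Real.exp_pos _)]
  linarith

/-- Monotone arcs: the events `κ x = κ (w x)` are independent. -/
theorem arc_count (w : V → V) (rank : V → ℕ) :
    ∀ n : ℕ, ∀ A : Finset V, A.card = n →
      (∀ x ∈ A, rank x < rank (w x)) →
      ((univ : Finset (V → Fin K)).filter (fun κ => ∀ x ∈ A, κ x = κ (w x))).card * K ^ n =
        (univ : Finset (V → Fin K)).card := by
  intro n
  induction n with
  | zero =>
    intro A hA _
    rw [card_eq_zero] at hA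
    subst hA
    simp
  | succ n ih =>
    intro A hA hw
    have hne : A.Nonempty := by rw [← card_pos]; omega
    obtain ⟨x, hx, hmin⟩ := exists_min_image A rank hne
    have hx' : ∀ y ∈ A, w y ≠ x := by
      intro y hy hyx
      have h1 := hw y hy
      rw [hyx] at h1
      have h2 := hmin y hy
      omega
    have hxx : w x ≠ x := hx' x hx
    have hIH := ih (A.erase x) (by rw [card_erase_of_mem hx, hA]; rfl)
      (fun y hy => hw y (mem_of_mem_erase hy))
    have h1 : ((univ : Finset (V → Fin K)).filter (fun κ => ∀ y ∈ A, κ y = κ (w y))).card * K =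
        ((univ : Finset (V → Fin K)).filter (fun κ => ∀ y ∈ A.erase x, κ y = κ (w y))).card := by
      have e1 : ((univ : Finset (V → Fin K)).filter (fun κ => ∀ y ∈ A, κ y = κ (w y))).card * K =
          (((univ : Finset (V → Fin K)).filter (fun κ => ∀ y ∈ A, κ y = κ (w y))) ×ˢ
            (univ : Finset (Fin K))).card := by
        rw [card_product, card_univ, Fintype.card_fin]
      rw [e1]
      refine card_bij' (fun z _ => Function.update z.1 x z.2)
        (fun κ _ => (Function.update κ x (κ (w x)), κ x)) ?_ ?_ ?_ ?_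
      · rintro ⟨κ, c⟩ h
        rw [mem_product, mem_filter] at h
        rw [mem_filter]
        refine ⟨mem_univ _, fun y hy => ?_⟩
        have hyx : y ≠ x := ne_of_mem_erase hy
        have hyA := mem_of_mem_erase hy
        simp only [Function.update_of_ne hyx, Function.update_of_ne (hx' y hyA)]
        exact h.1.2 y hyA
      · intro κ h
        rw [mem_filter] at h
        rw [mem_product, mem_filter]
        refine ⟨⟨mem_univ _, fun y hy => ?_⟩, mem_univ _⟩
        by_cases hyx : y = x
        · subst hyx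
          simp only [Function.update_self, Function.update_of_ne hxx]
        · simp only [Function.update_of_ne hyx, Function.update_of_ne (hx' y hy)]
          exact h.2 y (mem_erase.2 ⟨hyx, hy⟩)
      · rintro ⟨κ, c⟩ h
        rw [mem_product, mem_filter] at h
        have h2 : κ x = κ (w x) := h.1.2 x hx
        simp only [Function.update_of_ne hxx, Function.update_self, Function.update_idem]
        rw [← h2, Function.update_eq_self]
      · intro κ _
        simp only [Function.update_idem, Function.update_eq_self]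
    rw [pow_succ', ← mul_assoc, h1]
    exact hIH

/-- Union bound over the sets of `m` bad vertices. -/
theorem arc_union (N : Finset V) (w : V → V) (rank : V → ℕ)
    (B : Finset V) (hB : ∀ x ∈ B, rank x < rank (w x)) (m : ℕ) :
    ((univ : Finset (V → Fin K)).filter
      (fun κ => m ≤ ((N ∩ B).filter (fun x => κ x = κ (w x))).card)).card * K ^ m ≤
      N.card.choose m * (univ : Finset (V → Fin K)).card := by
  have h1 : (univ : Finset (V → Fin K)).filter
      (fun κ => m ≤ ((N ∩ B).filter (fun x => κ x = κ (w x))).card) ⊆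
      ((N ∩ B).powersetCard m).biUnion
        (fun A => (univ : Finset (V → Fin K)).filter (fun κ => ∀ x ∈ A, κ x = κ (w x))) := by
    intro κ hκ
    rw [mem_filter] at hκ
    obtain ⟨A, hA, hAc⟩ := exists_subset_card_eq hκ.2
    rw [mem_biUnion]
    refine ⟨A, ?_, ?_⟩
    · rw [mem_powersetCard]
      exact ⟨hA.trans (filter_subset _ _), hAc⟩
    · rw [mem_filter]
      exact ⟨mem_univ _, fun x hx => (mem_filter.1 (hA hx)).2⟩
  calc ((univ : Finset (V → Fin K)).filter
        (fun κ => m ≤ ((N ∩ B).filter (fun x => κ x = κ (w x))).card)).card * K ^ m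
      ≤ (∑ A ∈ (N ∩ B).powersetCard m,
          ((univ : Finset (V → Fin K)).filter (fun κ => ∀ x ∈ A, κ x = κ (w x))).card) * K ^ m :=
        Nat.mul_le_mul_right _ ((card_le_card h1).trans card_biUnion_le)
    _ = ∑ A ∈ (N ∩ B).powersetCard m, (univ : Finset (V → Fin K)).card := by
        rw [sum_mul]
        apply sum_congr rfl
        intro A hA
        rw [mem_powersetCard] at hA
        exact arc_count w rank m A hA.2
          (fun x hx => hB x (mem_inter.1 (hA.1 hx)).2)
    _ = (N ∩ B).card.choose m * (univ : Finset (V → Fin K)).card := by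
        rw [sum_const, card_powersetCard, smul_eq_mul]
    _ ≤ N.card.choose m * (univ : Finset (V → Fin K)).card :=
        Nat.mul_le_mul_right _ (Nat.choose_le_choose m (card_le_card inter_subset_left))

/-- The binomial estimate. -/
theorem choose_bound {d Δ m : ℕ} (hK : 0 < K) (hd : d ≤ Δ) (hm : 9 * (Δ / K : ℝ) ≤ m) (hm0 : 0 < m) :
    (d.choose m : ℝ) ≤ Real.exp (-(m : ℝ)) * (K : ℝ) ^ m := by
  have hK' : (0 : ℝ) < K := by exact_mod_cast hK
  have hm' : (0 : ℝ) < m := by exact_mod_cast hm0
  have h1 : (d.choose m : ℝ) ≤ (Δ : ℝ) ^ m / m.factorial := by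
    refine le_trans ?_ (Nat.choose_le_pow_div m Δ)
    exact_mod_cast Nat.choose_le_choose m hd
  have h2 : (m : ℝ) ^ m / m.factorial ≤ Real.exp m :=
    Real.pow_div_factorial_le_exp (m : ℝ) hm'.le m
  have hfac : (0 : ℝ) < m.factorial := by exact_mod_cast Nat.factorial_pos m
  -- `Δ ≤ m K / 9`
  have h3 : (Δ : ℝ) ≤ m * K / 9 := by
    rw [mul_div_assoc'] at hm
    rw [div_le_iff₀ hK'] at hm
    linarith
  have h4 : (Δ : ℝ) ^ m / m.factorial ≤ (m * K / 9 : ℝ) ^ m / m.factorial := by
    apply div_le_div_of_nonneg_right _ hfac.le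
    exact pow_le_pow_left₀ (by positivity) h3 m
  have h5 : (m * K / 9 : ℝ) ^ m / m.factorial = ((m : ℝ) ^ m / m.factorial) * ((K : ℝ) ^ m * (1 / 9) ^ m) := by
    rw [show (m * K / 9 : ℝ) = m * (K * (1 / 9)) by ring, mul_pow, mul_pow]
    ring
  have h6 : ((1 : ℝ) / 9) ^ m ≤ Real.exp (-(2 * m : ℝ)) := by
    have h7 : (1 : ℝ) / 9 ≤ Real.exp (-2) := by
      rw [Real.exp_neg, one_div]
      apply inv_anti₀ (Real.exp_pos _)
      have : Real.exp 2 = Real.exp 1 * Real.exp 1 := by rw [← Real.exp_add]; norm_num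
      rw [this]
      have := Real.exp_one_lt_three
      have := Real.exp_pos 1
      nlinarith
    calc ((1 : ℝ) / 9) ^ m ≤ (Real.exp (-2)) ^ m := pow_le_pow_left₀ (by norm_num) h7 m
      _ = Real.exp (-(2 * m : ℝ)) := by
          rw [← Real.exp_nat_mul]
          congr 1
          ring
  calc (d.choose m : ℝ) ≤ (Δ : ℝ) ^ m / m.factorial := h1
    _ ≤ (m * K / 9 : ℝ) ^ m / m.factorial := h4
    _ = ((m : ℝ) ^ m / m.factorial) * ((K : ℝ) ^ m * (1 / 9) ^ m) := h5
    _ ≤ Real.exp m * ((K : ℝ) ^ m * Real.exp (-(2 * m : ℝ))) := by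
        apply mul_le_mul h2 _ (by positivity) (by positivity)
        exact mul_le_mul_of_nonneg_left h6 (by positivity)
    _ = (Real.exp m * Real.exp (-(2 * m : ℝ))) * (K : ℝ) ^ m := by ring
    _ = Real.exp (-(m : ℝ)) * (K : ℝ) ^ m := by
        rw [← Real.exp_add]
        congr 2
        ring

end Basic

/-- The general partition lemma. -/
theorem partition_lemma (ε : ℝ) (hε : 0 < ε) (δ : ℝ) (hδ : 0 < δ) (b : ℕ) :
    ∀ᶠ Δ : ℕ in atTop, ∀ (V : Type) [Fintype V] [DecidableEq V] (N : V → Finset V),
      (∀ v, (N v).card ≤ Δ) → ∀ K : ℕ, 0 < K → (K : ℝ) ≤ (Δ : ℝ) ^ (1 - δ) →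
      ∀ (E : V → Finset (V → Fin K)) (T : V → Finset V), (∀ v, DetBy (E v) (T v)) →
      (∀ v, N v ⊆ T v) →
      (∀ v, ((E v).card : ℝ) ≤ Real.exp (-(Δ : ℝ) ^ (δ / 2)) *
        (univ : Finset (V → Fin K)).card) →
      (∀ v, ((univ.filter (fun v' => ¬ Disjoint (T v) (T v'))).card : ℝ) ≤ (Δ : ℝ) ^ b) →
      ∃ κ : V → Fin K, (∀ v, κ ∉ E v) ∧
        ∀ v p, (((N v).filter (fun u => κ u = p)).card : ℝ) ≤ (1 + ε) * (Δ / K) := by
  set cε : ℝ := (1 + ε) * Real.log (1 + ε) - ε with hcε
  have hcpos : 0 < cε := by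
    have h1 : Real.log (1 / (1 + ε)) < 1 / (1 + ε) - 1 := by
      apply Real.log_lt_sub_one_of_pos (by positivity)
      rw [Ne, div_eq_one_iff_eq (by linarith)]
      linarith
    rw [Real.log_div one_ne_zero (by linarith), Real.log_one, zero_sub] at h1
    have h2 : (1 + ε) * (-Real.log (1 + ε)) < (1 + ε) * (1 / (1 + ε) - 1) :=
      mul_lt_mul_of_pos_left h1 (by linarith)
    have h3 : (1 + ε) * (1 / (1 + ε) - 1) = -ε := by
      field_simp
      ring
    rw [h3] at h2
    rw [hcε]
    linarith
  filter_upwards [eventually_log_le_rpow (δ / 4) (by linarith),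
    eventually_const_le_rpow (b + 3) (δ / 4) (by linarith),
    eventually_const_le_rpow (2 / cε) (δ / 4) (by linarith),
    eventually_ge_atTop 3] with Δ hlog hY1 hY2 hΔ3
  intro V _ _ N hN K hK hKΔ E T hdet hNT hE hdep
  have hΔ3' : (3 : ℝ) ≤ Δ := by exact_mod_cast hΔ3
  have hΔ0 : (0 : ℝ) < Δ := by linarith
  have hK' : (0 : ℝ) < K := by exact_mod_cast hK
  set Y : ℝ := (Δ : ℝ) ^ (δ / 4) with hY
  have hlogΔ : 1 < Real.log Δ := by
    rw [Real.lt_log_iff_exp_lt hΔ0]
    exact lt_of_lt_of_le Real.exp_one_lt_three hΔ3'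
  have hY0 : 1 ≤ Y := by linarith
  have hY2' : (Δ : ℝ) ^ (δ / 2) = Y ^ 2 := by
    rw [hY, ← Real.rpow_natCast, ← Real.rpow_mul hΔ0.le]
    congr 1
    push_cast
    ring
  have hY4' : (Δ : ℝ) ^ δ = Y ^ 4 := by
    rw [hY, ← Real.rpow_natCast, ← Real.rpow_mul hΔ0.le]
    congr 1
    push_cast
    ring
  have hΔK : Y ^ 4 ≤ Δ / K := by
    rw [le_div_iff₀ hK', ← hY4']
    calc (Δ : ℝ) ^ δ * K ≤ (Δ : ℝ) ^ δ * (Δ : ℝ) ^ (1 - δ) :=
          mul_le_mul_of_nonneg_left hKΔ (by positivity)
      _ = Δ := by
          rw [← Real.rpow_add hΔ0]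
          simp
  have hKΔ' : (K : ℝ) ≤ Δ := by
    have : (1 : ℝ) ≤ Y ^ 4 := one_le_pow₀ hY0
    have h1 : (1 : ℝ) ≤ Δ / K := this.trans hΔK
    rwa [le_div_iff₀ hK', one_mul] at h1
  -- the bad events
  let E' : V → Finset (V → Fin K) := fun v => E v ∪ (univ : Finset (Fin K)).biUnion (fun p =>
    (univ : Finset (V → Fin K)).filter
      (fun κ => (1 + ε) * (Δ / K : ℝ) < (((N v).filter (fun u => κ u = p)).card : ℝ)))
  have hdet' : ∀ v, DetBy (E' v) (T v) := by
    intro v κ κ' hκ
    simp only [E', mem_union, mem_biUnion, mem_filter, mem_univ, true_and]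
    have h1 := hdet v κ κ' hκ
    have h2 : ∀ p, (N v).filter (fun u => κ u = p) = (N v).filter (fun u => κ' u = p) := by
      intro p
      apply filter_congr
      intro u hu
      rw [hκ u (hNT v hu)]
    rw [h1]
    simp_rw [h2]
  have hcard' : ∀ v, ((E' v).card : ℝ) ≤ (2 * Real.exp (-Y ^ 2)) *
      (univ : Finset (V → Fin K)).card := by
    intro v
    set M : ℝ := ((univ : Finset (V → Fin K)).card : ℝ) with hM
    have hM0 : 0 ≤ M := by positivity
    have h1 : ((E' v).card : ℝ) ≤ (E v).card + ∑ p : Fin K,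
        (((univ : Finset (V → Fin K)).filter (fun κ => (1 + ε) * (Δ / K : ℝ) <
          (((N v).filter (fun u => κ u = p)).card : ℝ))).card : ℝ) := by
      have h2 : (E' v).card ≤ (E v).card + ∑ p : Fin K,
        ((univ : Finset (V → Fin K)).filter (fun κ => (1 + ε) * (Δ / K : ℝ) <
          (((N v).filter (fun u => κ u = p)).card : ℝ))).card :=
        (card_union_le _ _).trans (Nat.add_le_add_left card_biUnion_le _)
      exact_mod_cast h2
    have h3 : ∑ p : Fin K,
        (((univ : Finset (V → Fin K)).filter (fun κ => (1 + ε) * (Δ / K : ℝ) <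
          (((N v).filter (fun u => κ u = p)).card : ℝ))).card : ℝ) ≤
        Real.exp (-Y ^ 2) * M := by
      calc ∑ p : Fin K, (((univ : Finset (V → Fin K)).filter (fun κ => (1 + ε) * (Δ / K : ℝ) <
            (((N v).filter (fun u => κ u = p)).card : ℝ))).card : ℝ)
          ≤ ∑ p : Fin K, Real.exp (-cε * (Δ / K)) * M :=
            sum_le_sum fun p _ => chernoff hK (N v) Δ (hN v) p ε hε
        _ = (K : ℝ) * (Real.exp (-cε * (Δ / K)) * M) := by
            rw [sum_const, card_univ, Fintype.card_fin, nsmul_eq_mul]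
        _ ≤ Real.exp (Real.log Δ) * (Real.exp (-cε * Y ^ 4) * M) := by
            rw [Real.exp_log hΔ0]
            apply mul_le_mul hKΔ' _ (by positivity) hΔ0.le
            apply mul_le_mul_of_nonneg_right _ hM0
            apply Real.exp_le_exp.2
            have := mul_le_mul_of_nonneg_left hΔK hcpos.le
            linarith
        _ = Real.exp (Real.log Δ - cε * Y ^ 4) * M := by
            rw [← mul_assoc, ← Real.exp_add]
            congr 2
            ring
        _ ≤ Real.exp (-Y ^ 2) * M := by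
            apply mul_le_mul_of_nonneg_right _ hM0
            apply Real.exp_le_exp.2
            have h4 : 2 ≤ cε * Y := by
              rw [div_le_iff₀ hcpos] at hY2
              linarith
            have h5 : 2 * Y ^ 3 ≤ cε * Y ^ 4 := by
              have : cε * Y ^ 4 = (cε * Y) * Y ^ 3 := by ring
              rw [this]
              exact mul_le_mul_of_nonneg_right h4 (by positivity)
            have h6 : Y ≤ Y ^ 3 := by
              calc Y = Y ^ 1 := (pow_one Y).symm
                _ ≤ Y ^ 3 := pow_le_pow_right₀ hY0 (by norm_num)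
            have h7 : Y ^ 2 ≤ Y ^ 3 := pow_le_pow_right₀ hY0 (by norm_num)
            linarith
    have h4 := hE v
    rw [hY2'] at h4
    linarith
  obtain ⟨κ, hκ⟩ := product_lll hK E' T hdet' (2 * Real.exp (-Y ^ 2)) ((Δ : ℝ) ^ b)
    (by positivity)
    (by
      have h1 : Real.exp (-Y ^ 2) < 1 / 4 := by
        have h2 : (3 : ℝ) ≤ Y := by
          have : (0 : ℝ) ≤ b := Nat.cast_nonneg b
          linarith
        have h3 : Real.exp (-Y ^ 2) ≤ Real.exp (-2) := Real.exp_le_exp.2 (by nlinarith)
        have h4 : Real.exp (-2) < 1 / 4 := by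
          rw [Real.exp_neg, one_div]
          apply inv_strictAnti₀ (by norm_num)
          have : Real.exp 2 = Real.exp 1 * Real.exp 1 := by rw [← Real.exp_add]; norm_num
          rw [this]
          have := Real.exp_one_gt_d9
          nlinarith
        linarith
      linarith)
    hcard' hdep
    (by
      have h1 : (Δ : ℝ) ^ b = Real.exp (b * Real.log Δ) := by
        rw [Real.exp_nat_mul, Real.exp_log hΔ0]
      have h2 : (8 : ℝ) ≤ Real.exp 3 := by
        have : Real.exp 3 = Real.exp 1 * Real.exp 1 * Real.exp 1 := by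
          rw [← Real.exp_add, ← Real.exp_add]; norm_num
        rw [this]
        have := Real.exp_one_gt_d9
        have h3 : (4 : ℝ) ≤ Real.exp 1 * Real.exp 1 := by nlinarith
        nlinarith
      calc 4 * (2 * Real.exp (-Y ^ 2)) * (Δ : ℝ) ^ b
          = 8 * (Real.exp (-Y ^ 2) * Real.exp (b * Real.log Δ)) := by rw [h1]; ring
        _ ≤ Real.exp 3 * (Real.exp (-Y ^ 2) * Real.exp (b * Real.log Δ)) :=
            mul_le_mul_of_nonneg_right h2 (by positivity)
        _ = Real.exp (3 + (-Y ^ 2 + b * Real.log Δ)) := by rw [← Real.exp_add, ← Real.exp_add]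
        _ ≤ Real.exp 0 := by
            apply Real.exp_le_exp.2
            have h3 : (b : ℝ) * Real.log Δ ≤ b * Y :=
              mul_le_mul_of_nonneg_left (by linarith) (Nat.cast_nonneg b)
            have h4 : (b : ℝ) * Y + 3 ≤ Y ^ 2 := by
              have h5 : ((b : ℝ) + 3) * Y ≤ Y * Y := mul_le_mul_of_nonneg_right hY1 (by linarith)
              nlinarith
            linarith
        _ = 1 := Real.exp_zero)
  refine ⟨κ, fun v hv => hκ v (mem_union_left _ hv), fun v p => ?_⟩
  by_contra hcon
  rw [not_le] at hcon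
  apply hκ v
  apply mem_union_right
  rw [mem_biUnion]
  exact ⟨p, mem_univ _, by rw [mem_filter]; exact ⟨mem_univ _, hcon⟩⟩

end Pool.Agent.Lib.MP_349e33_co
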