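import Mathlib
import Pool.Agent.Lib.MP_349e33_co.Partition
import Pool.Agent.Lib.MP_349e33_co.CF

/-!
The arcs theorem: if every copy of `H` in `G` contains one of a sparse set of arcs then the
chromatic number of `G` is bounded as for `H`-free graphs.
-/

namespace Pool.Agent.Lib.MP_349e33_co

open Finset Filter

set_option linter.unusedSectionVars false

/-- Combining colourings of the parts of a partition. -/
theorem combine_parts {V : Type} [Fintype V] [DecidableEq V] (G : SimpleGraph V)
    [DecidableRel G.Adj] (K q r : ℕ) (κ : V → Fin K) (X : Finset V)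
    (hX : ∀ v, (X.filter (fun u => G.Adj v u)).card ≤ r)
    (hparts : ∀ p, (G.induce {v | κ v = p ∧ v ∉ X}).Colorable q) :
    G.Colorable (K * q + (r + 1)) := by
  classical
  -- colour `X`
  let GX : SimpleGraph V :=
    { Adj := fun u v => G.Adj u v ∧ u ∈ X ∧ v ∈ X
      symm := ⟨fun u v h => ⟨h.1.symm, h.2.2, h.2.1⟩⟩
      loopless := ⟨fun u h => G.loopless.irrefl u h.1⟩ }
  have hGX : GX.Colorable (r + 1) := by
    apply colorable_of_degree_lt
    intro v
    rw [← deg_eq]
    refine lt_of_le_of_lt ?_ (Nat.lt_succ_self r)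
    refine le_trans (card_le_card ?_) (hX v)
    intro u hu
    rw [mem_filter] at hu ⊢
    exact ⟨hu.2.2.2, hu.2.1⟩
  obtain ⟨c₂⟩ := hGX
  have c₁ : ∀ p, (G.induce {v | κ v = p ∧ v ∉ X}).Coloring (Fin q) := fun p => (hparts p).some
  let c : G.Coloring ((Fin K × Fin q) ⊕ Fin (r + 1)) :=
    SimpleGraph.Coloring.mk (fun v => if h : v ∈ X then Sum.inr (c₂ v) else
      Sum.inl (κ v, c₁ (κ v) ⟨v, rfl, h⟩))
      (by
        intro u v huv
        by_cases hu : u ∈ X
        · by_cases hv : v ∈ X
          · simp only [dif_pos hu, dif_pos hv]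
            intro hcon
            rw [Sum.inr.injEq] at hcon
            exact c₂.valid (show GX.Adj u v from ⟨huv, hu, hv⟩) hcon
          · simp only [dif_pos hu, dif_neg hv]
            exact Sum.inr_ne_inl
        · by_cases hv : v ∈ X
          · simp only [dif_neg hu, dif_pos hv]
            exact Sum.inl_ne_inr
          · simp only [dif_neg hu, dif_neg hv]
            intro hcon
            rw [Sum.inl.injEq, Prod.mk.injEq] at hcon
            obtain ⟨h1, h2⟩ := hcon
            have h3 : ∀ p, ∀ hp : κ v = p, c₁ (κ v) ⟨v, rfl, hv⟩ = c₁ p ⟨v, hp, hv⟩ := by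
              intro p hp
              subst hp
              rfl
            rw [h3 (κ u) h1.symm] at h2
            exact (c₁ (κ u)).valid (show (G.induce {w | κ w = κ u ∧ w ∉ X}).Adj ⟨u, rfl, hu⟩
              ⟨v, h1.symm, hv⟩ from huv) h2)
  have := c.colorable
  rwa [Fintype.card_sum, Fintype.card_prod, Fintype.card_fin, Fintype.card_fin,
    Fintype.card_fin] at this

/-- An enumeration of a set-valued function. -/
theorem exists_enum {V : Type} [Fintype V] [DecidableEq V] (D : V → Finset V) (k : ℕ)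
    (hD : ∀ x, (D x).card ≤ k) :
    ∃ w : Fin k → V → V, (∀ j x, w j x ∈ D x ∨ w j x = x) ∧ ∀ x, ∀ z ∈ D x, ∃ j, w j x = z := by
  classical
  refine ⟨fun j x => if h : (j : ℕ) < (D x).card then
    ((D x).equivFin.symm ⟨j, h⟩ : V) else x, ?_, ?_⟩
  · intro j x
    by_cases h : (j : ℕ) < (D x).card
    · left
      simp only [dif_pos h]
      exact ((D x).equivFin.symm ⟨j, h⟩).2
    · right
      simp only [dif_neg h]
  · intro x z hz
    have h1 : ((D x).equivFin ⟨z, hz⟩ : ℕ) < (D x).card := ((D x).equivFin ⟨z, hz⟩).2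
    refine ⟨⟨(D x).equivFin ⟨z, hz⟩, lt_of_lt_of_le h1 (hD x)⟩, ?_⟩
    simp only [dif_pos h1, Fin.eta, Equiv.symm_apply_apply]

/-- A random partition into `K` parts for a graph with arcs. -/
theorem partition_arcs (k b : ℕ) {ε : ℝ} (hε : 0 < ε) :
    ∀ᶠ Δ : ℕ in atTop, ∀ (V : Type) [Fintype V] [DecidableEq V] (G : SimpleGraph V)
      [DecidableRel G.Adj] (D : V → Finset V),
      (∀ v, G.degree v ≤ Δ) → (∀ x, (D x).card ≤ k) → (∀ x, x ∉ D x) →
      (∀ w, ((univ.filter (fun x => w ∈ D x)).card : ℝ) ≤ (Δ : ℝ) ^ b) →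
      ∀ K : ℕ, 0 < K → (K : ℝ) ≤ (Δ : ℝ) ^ (1 / 2 : ℝ) →
      ∃ κ : V → Fin K,
        (∀ v, ((univ.filter (fun x => G.Adj v x ∧ ∃ z ∈ D x, κ z = κ x)).card : ℝ) ≤
          2 * k * (9 * (Δ / K) + 1)) ∧
        ∀ v p, ((univ.filter (fun u => G.Adj v u ∧ κ u = p)).card : ℝ) ≤
          (1 + ε) * (Δ / K) := by
  filter_upwards [partition_lemma ε hε (1 / 2) (by norm_num) (b + 4),
    eventually_const_le_rpow (2 * k) (1 / 4) (by norm_num),
    eventually_const_le_rpow 1 (1 / 4) (by norm_num),
    eventually_ge_atTop (k + 2)] with Δ hpart hY1 hY2 hΔk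
  intro V _ _ G _ D hdeg hD hxD hin K hK hKΔ
  have hΔ2 : (2 : ℝ) ≤ Δ := by
    have : 2 ≤ Δ := by omega
    exact_mod_cast this
  have hΔ0 : (0 : ℝ) < Δ := by linarith
  have hK' : (0 : ℝ) < K := by exact_mod_cast hK
  have hΔK0 : (0 : ℝ) < Δ / K := by positivity
  obtain ⟨w, hw1, hw2⟩ := exists_enum D k hD
  let N : V → Finset V := fun v => univ.filter (fun u => G.Adj v u)
  have hNcard : ∀ v, (N v).card ≤ Δ := fun v => by
    have := hdeg v
    rw [← deg_eq] at this
    exact this
  -- rank functions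
  let rank : V → ℕ := fun v => (Fintype.equivFin V v : ℕ)
  have hrank : Function.Injective rank := by
    intro x y hxy
    exact (Fintype.equivFin V).injective (Fin.ext hxy)
  have hrlt : ∀ x, rank x < Fintype.card V := fun x => (Fintype.equivFin V x).2
  let rank' : V → ℕ := fun v => Fintype.card V - rank v
  let B : Fin k → Finset V := fun j => univ.filter (fun x => rank x < rank (w j x))
  let B' : Fin k → Finset V := fun j => univ.filter (fun x => rank' x < rank' (w j x))
  set m : ℕ := ⌈9 * (Δ / K : ℝ)⌉₊ with hm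
  have hm1 : 9 * (Δ / K : ℝ) ≤ m := Nat.le_ceil _
  have hm0 : 0 < m := by
    rw [hm, Nat.ceil_pos]
    positivity
  have hm2 : (m : ℝ) ≤ 9 * (Δ / K : ℝ) + 1 := (Nat.ceil_lt_add_one (by positivity)).le
  -- the bad events
  let E1 : V → Fin k → Finset (V → Fin K) := fun v j => (univ : Finset (V → Fin K)).filter
    (fun κ => m ≤ ((N v ∩ B j).filter (fun x => κ x = κ (w j x))).card)
  let E2 : V → Fin k → Finset (V → Fin K) := fun v j => (univ : Finset (V → Fin K)).filter
    (fun κ => m ≤ ((N v ∩ B' j).filter (fun x => κ x = κ (w j x))).card)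
  let E : V → Finset (V → Fin K) := fun v =>
    (univ : Finset (Fin k)).biUnion (fun j => E1 v j ∪ E2 v j)
  let T : V → Finset V := fun v => N v ∪ (N v).biUnion D
  have hwT : ∀ v, ∀ x ∈ N v, ∀ j, w j x ∈ T v := by
    intro v x hx j
    rcases hw1 j x with h | h
    · exact mem_union_right _ (mem_biUnion.2 ⟨x, hx, h⟩)
    · rw [h]
      exact mem_union_left _ hx
  have hdet : ∀ v, DetBy (E v) (T v) := by
    intro v κ κ' hκ
    have h1 : ∀ (j : Fin k) (C : Finset V), (N v ∩ C).filter (fun x => κ x = κ (w j x)) =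
        (N v ∩ C).filter (fun x => κ' x = κ' (w j x)) := by
      intro j C
      apply filter_congr
      intro x hx
      have hxN := (mem_inter.1 hx).1
      rw [hκ x (mem_union_left _ hxN), hκ _ (hwT v x hxN j)]
    simp only [E, E1, E2, mem_biUnion, mem_union, mem_filter, mem_univ, true_and]
    simp_rw [h1]
  have hchoose : ∀ v, ((N v).card.choose m : ℝ) ≤ Real.exp (-(m : ℝ)) * (K : ℝ) ^ m :=
    fun v => choose_bound hK (hNcard v) hm1 hm0
  have hMpos : (0 : ℝ) ≤ ((univ : Finset (V → Fin K)).card : ℝ) := Nat.cast_nonneg _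
  have hKm : (0 : ℝ) < (K : ℝ) ^ m := by positivity
  have hE12 : ∀ (v : V) (S : Finset (V → Fin K)),
      S.card * K ^ m ≤ (N v).card.choose m * (univ : Finset (V → Fin K)).card →
      (S.card : ℝ) ≤ Real.exp (-(m : ℝ)) * (univ : Finset (V → Fin K)).card := by
    intro v S hS
    have hS' : (S.card : ℝ) * (K : ℝ) ^ m ≤
        ((N v).card.choose m : ℝ) * ((univ : Finset (V → Fin K)).card : ℝ) := by exact_mod_cast hS
    have h2 : (S.card : ℝ) * (K : ℝ) ^ m ≤
        (Real.exp (-(m : ℝ)) * (univ : Finset (V → Fin K)).card) * (K : ℝ) ^ m := by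
      calc (S.card : ℝ) * (K : ℝ) ^ m
          ≤ ((N v).card.choose m : ℝ) * ((univ : Finset (V → Fin K)).card : ℝ) := hS'
        _ ≤ (Real.exp (-(m : ℝ)) * (K : ℝ) ^ m) * ((univ : Finset (V → Fin K)).card : ℝ) :=
            mul_le_mul_of_nonneg_right (hchoose v) hMpos
        _ = _ := by ring
    exact le_of_mul_le_mul_right h2 hKm
  have hE1 : ∀ v j, ((E1 v j).card : ℝ) ≤
      Real.exp (-(m : ℝ)) * (univ : Finset (V → Fin K)).card := by
    intro v j
    apply hE12 v
    exact arc_union (N v) (w j) rank (B j) (fun x hx => (mem_filter.1 hx).2) m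
  have hE2 : ∀ v j, ((E2 v j).card : ℝ) ≤
      Real.exp (-(m : ℝ)) * (univ : Finset (V → Fin K)).card := by
    intro v j
    apply hE12 v
    exact arc_union (N v) (w j) rank' (B' j) (fun x hx => (mem_filter.1 hx).2) m
  set Y : ℝ := (Δ : ℝ) ^ (1 / 4 : ℝ) with hY
  have hYY : (Δ : ℝ) ^ (1 / 2 : ℝ) = Y ^ 2 := by
    rw [hY, ← Real.rpow_natCast, ← Real.rpow_mul hΔ0.le]
    congr 1
    norm_num
  have hY4 : (Δ : ℝ) = Y ^ 4 := by
    rw [hY, ← Real.rpow_natCast, ← Real.rpow_mul hΔ0.le]
    norm_num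
  have hΔK : Y ^ 2 ≤ Δ / K := by
    rw [le_div_iff₀ hK']
    calc Y ^ 2 * (K : ℝ) ≤ Y ^ 2 * Y ^ 2 := by
          apply mul_le_mul_of_nonneg_left _ (by positivity)
          rw [← hYY]
          exact hKΔ
      _ = (Δ : ℝ) := by rw [hY4]; ring
  have hcard : ∀ v, ((E v).card : ℝ) ≤ Real.exp (-(Δ : ℝ) ^ ((1 / 2 : ℝ) / 2)) *
      (univ : Finset (V → Fin K)).card := by
    intro v
    have h1 : ((E v).card : ℝ) ≤ ∑ j : Fin k, (((E1 v j).card : ℝ) + (E2 v j).card) := by
      have h2 : (E v).card ≤ ∑ j : Fin k, ((E1 v j).card + (E2 v j).card) :=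
        card_biUnion_le.trans (sum_le_sum fun j _ => card_union_le _ _)
      exact_mod_cast h2
    calc ((E v).card : ℝ) ≤ ∑ j : Fin k, (((E1 v j).card : ℝ) + (E2 v j).card) := h1
      _ ≤ ∑ j : Fin k, (Real.exp (-(m : ℝ)) * (univ : Finset (V → Fin K)).card +
            Real.exp (-(m : ℝ)) * (univ : Finset (V → Fin K)).card) :=
          sum_le_sum fun j _ => add_le_add (hE1 v j) (hE2 v j)
      _ = (2 * k) * Real.exp (-(m : ℝ)) * (univ : Finset (V → Fin K)).card := by
          rw [sum_const, card_univ, Fintype.card_fin, nsmul_eq_mul]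
          ring
      _ ≤ Real.exp (-(Δ : ℝ) ^ ((1 / 2 : ℝ) / 2)) * (univ : Finset (V → Fin K)).card := by
          apply mul_le_mul_of_nonneg_right _ hMpos
          have h3 : (2 * k : ℝ) ≤ Real.exp (2 * k) := by
            have := Real.add_one_le_exp (2 * k : ℝ)
            linarith
          calc (2 * k : ℝ) * Real.exp (-(m : ℝ)) ≤ Real.exp (2 * k) * Real.exp (-(m : ℝ)) :=
                mul_le_mul_of_nonneg_right h3 (Real.exp_pos _).le
            _ = Real.exp (2 * k - m) := by rw [← Real.exp_add]; congr 1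
            _ ≤ _ := by
                apply Real.exp_le_exp.2
                have h4 : (Δ : ℝ) ^ ((1 / 2 : ℝ) / 2) = Y := by
                  rw [hY]
                  congr 1
                  norm_num
                rw [h4]
                have h5 : 9 * Y ^ 2 ≤ m := by linarith
                nlinarith
  have hdep : ∀ v, ((univ.filter (fun v' => ¬ Disjoint (T v) (T v'))).card : ℝ) ≤
      (Δ : ℝ) ^ (b + 4) := by
    intro v
    -- the vertices `v'` with `z ∈ T v'`
    have h1 : ∀ z : V, ((univ.filter (fun v' => z ∈ T v')).card : ℝ) ≤ (Δ : ℝ) * (1 + (Δ : ℝ) ^ b) := by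
      intro z
      have h2 : univ.filter (fun v' => z ∈ T v') ⊆
          N z ∪ (univ.filter (fun x => z ∈ D x)).biUnion N := by
        intro v' hv'
        rw [mem_filter] at hv'
        rcases mem_union.1 hv'.2 with h | h
        · apply mem_union_left
          simp only [N, mem_filter, mem_univ, true_and] at h ⊢
          exact h.symm
        · apply mem_union_right
          rw [mem_biUnion] at h ⊢
          obtain ⟨x, hx, hz⟩ := h
          refine ⟨x, mem_filter.2 ⟨mem_univ _, hz⟩, ?_⟩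
          simp only [N, mem_filter, mem_univ, true_and] at hx ⊢
          exact hx.symm
      have h3 : (univ.filter (fun v' => z ∈ T v')).card ≤
          Δ + (univ.filter (fun x => z ∈ D x)).card * Δ := by
        refine (card_le_card h2).trans ((card_union_le _ _).trans ?_)
        apply add_le_add (hNcard z)
        exact card_biUnion_le_card_mul _ _ _ (fun x _ => hNcard x)
      have h4 : ((univ.filter (fun v' => z ∈ T v')).card : ℝ) ≤
          Δ + (univ.filter (fun x => z ∈ D x)).card * Δ := by exact_mod_cast h3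
      have h5 := hin z
      have h6 : ((univ.filter (fun x => z ∈ D x)).card : ℝ) * Δ ≤ (Δ : ℝ) ^ b * Δ :=
        mul_le_mul_of_nonneg_right h5 hΔ0.le
      linarith
    have h2 : univ.filter (fun v' => ¬ Disjoint (T v) (T v')) ⊆
        (T v).biUnion (fun z => univ.filter (fun v' => z ∈ T v')) := by
      intro v' hv'
      rw [mem_filter, Finset.not_disjoint_iff] at hv'
      obtain ⟨_, z, hz, hz'⟩ := hv'
      rw [mem_biUnion]
      exact ⟨z, hz, mem_filter.2 ⟨mem_univ _, hz'⟩⟩
    have h3 : ((T v).card : ℝ) ≤ Δ * (1 + k) := by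
      have h4 : (T v).card ≤ Δ + Δ * k := by
        refine (card_union_le _ _).trans (add_le_add (hNcard v) ?_)
        refine (card_biUnion_le_card_mul _ _ k (fun x _ => hD x)).trans ?_
        exact Nat.mul_le_mul_right _ (hNcard v)
      have : ((T v).card : ℝ) ≤ Δ + Δ * k := by exact_mod_cast h4
      linarith
    have h4 : ((univ.filter (fun v' => ¬ Disjoint (T v) (T v'))).card : ℝ) ≤
        ∑ z ∈ T v, ((univ.filter (fun v' => z ∈ T v')).card : ℝ) := by
      have := (card_le_card h2).trans card_biUnion_le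
      exact_mod_cast this
    have hk1 : (1 + k : ℝ) ≤ Δ := by
      have : 1 + k ≤ Δ := by omega
      exact_mod_cast this
    have hb1 : 1 + (Δ : ℝ) ^ b ≤ (Δ : ℝ) ^ (b + 1) := by
      have : (1 : ℝ) ≤ (Δ : ℝ) ^ b := one_le_pow₀ (by linarith)
      rw [pow_succ]
      nlinarith
    calc ((univ.filter (fun v' => ¬ Disjoint (T v) (T v'))).card : ℝ)
        ≤ ∑ z ∈ T v, ((univ.filter (fun v' => z ∈ T v')).card : ℝ) := h4
      _ ≤ ∑ z ∈ T v, (Δ : ℝ) * (1 + (Δ : ℝ) ^ b) := sum_le_sum fun z _ => h1 z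
      _ = (T v).card * ((Δ : ℝ) * (1 + (Δ : ℝ) ^ b)) := by rw [sum_const, nsmul_eq_mul]
      _ ≤ (Δ * (1 + k)) * ((Δ : ℝ) * (1 + (Δ : ℝ) ^ b)) :=
          mul_le_mul_of_nonneg_right h3 (by positivity)
      _ ≤ (Δ * Δ) * ((Δ : ℝ) * (Δ : ℝ) ^ (b + 1)) := by
          apply mul_le_mul _ _ (by positivity) (by positivity)
          · exact mul_le_mul_of_nonneg_left hk1 hΔ0.le
          · exact mul_le_mul_of_nonneg_left hb1 hΔ0.le
      _ = (Δ : ℝ) ^ (b + 4) := by ring
  obtain ⟨κ, hκ1, hκ2⟩ := hpart V N hNcard K hK (by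
      norm_num
      norm_num at hKΔ
      exact hKΔ) E T hdet
    (fun v => subset_union_left) hcard hdep
  refine ⟨κ, ?_, ?_⟩
  · intro v
    have h1 : ∀ j, ((N v ∩ B j).filter (fun x => κ x = κ (w j x))).card ≤ m := by
      intro j
      by_contra hcon
      rw [not_le] at hcon
      apply hκ1 v
      rw [mem_biUnion]
      exact ⟨j, mem_univ _, mem_union_left _ (mem_filter.2 ⟨mem_univ _, hcon.le⟩)⟩
    have h2 : ∀ j, ((N v ∩ B' j).filter (fun x => κ x = κ (w j x))).card ≤ m := by
      intro j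
      by_contra hcon
      rw [not_le] at hcon
      apply hκ1 v
      rw [mem_biUnion]
      exact ⟨j, mem_univ _, mem_union_right _ (mem_filter.2 ⟨mem_univ _, hcon.le⟩)⟩
    have h3 : univ.filter (fun x => G.Adj v x ∧ ∃ z ∈ D x, κ z = κ x) ⊆
        (univ : Finset (Fin k)).biUnion (fun j =>
          ((N v ∩ B j).filter (fun x => κ x = κ (w j x))) ∪
          ((N v ∩ B' j).filter (fun x => κ x = κ (w j x)))) := by
      intro x hx
      rw [mem_filter] at hx
      obtain ⟨_, hvx, z, hz, hzx⟩ := hx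
      obtain ⟨j, hj⟩ := hw2 x z hz
      rw [mem_biUnion]
      refine ⟨j, mem_univ _, ?_⟩
      have hxN : x ∈ N v := mem_filter.2 ⟨mem_univ _, hvx⟩
      have hne : rank x ≠ rank (w j x) := by
        intro hcon
        have := hrank hcon
        rw [hj] at this
        rw [← this] at hz
        exact hxD x hz
      have hκx : κ x = κ (w j x) := by rw [hj, hzx]
      rcases lt_or_gt_of_ne hne with h | h
      · exact mem_union_left _ (mem_filter.2 ⟨mem_inter.2 ⟨hxN, mem_filter.2 ⟨mem_univ _, h⟩⟩, hκx⟩)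
      · refine mem_union_right _ (mem_filter.2 ⟨mem_inter.2 ⟨hxN, mem_filter.2
          ⟨mem_univ _, ?_⟩⟩, hκx⟩)
        have := hrlt x
        simp only [rank']
        omega
    have h4 : (univ.filter (fun x => G.Adj v x ∧ ∃ z ∈ D x, κ z = κ x)).card ≤ k * (m + m) := by
      refine (card_le_card h3).trans ?_
      refine (card_biUnion_le_card_mul _ _ (m + m) (fun j _ => ?_)).trans ?_
      · exact (card_union_le _ _).trans (add_le_add (h1 j) (h2 j))
      · rw [card_univ, Fintype.card_fin]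
    have h5 : ((univ.filter (fun x => G.Adj v x ∧ ∃ z ∈ D x, κ z = κ x)).card : ℝ) ≤
        k * (m + m) := by exact_mod_cast h4
    have h6 : (k : ℝ) * (m + m) ≤ 2 * k * (9 * (Δ / K) + 1) := by
      have : (0 : ℝ) ≤ k := Nat.cast_nonneg k
      nlinarith
    exact h5.trans h6
  · intro v p
    have h1 := hκ2 v p
    refine le_trans ?_ h1
    have h2 : (univ.filter (fun u => G.Adj v u ∧ κ u = p)) = (N v).filter (fun u => κ u = p) := by
      ext u
      simp [N]
    rw [h2]

end Pool.Agent.Lib.MP_349e33_co
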