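import Mathlib
import Pool.Agent.Lib.MP_349e33_co.TR

/-!
The arcs theorem: if every copy of `H` in `G` contains one of a sparse set of arcs then the
chromatic number of `G` is bounded as for `H`-free graphs.
-/

namespace Pool.Agent.Lib.MP_349e33_co

open Finset Filter

set_option linter.unusedSectionVars false

theorem eventually_le_log (C : ℝ) : ∀ᶠ Δ : ℕ in atTop, C ≤ Real.log Δ :=
  (Real.tendsto_log_atTop.comp tendsto_natCast_atTop_atTop).eventually_ge_atTop C

/-- The arcs theorem. -/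
theorem ble_arcs {W : Type*} (H : SimpleGraph W) {a : ℝ} (ha : 0 ≤ a) (h : BLe H a) (k b : ℕ)
    {ε : ℝ} (hε : 0 < ε) :
    ∀ᶠ Δ : ℕ in atTop, ∀ (V : Type) [Fintype V] (G : SimpleGraph V)
      [DecidableRel G.Adj] (Z : Finset V) (D : V → Finset V),
      (∀ v, G.degree v ≤ Δ) → Z.card ≤ k → (∀ x, (D x).card ≤ k) → (∀ x, x ∉ D x) →
      (∀ w, ∃ T : Finset V, (∀ x, w ∈ D x → x ∈ T) ∧ (T.card : ℝ) ≤ (Δ : ℝ) ^ b) →
      (∀ φ : SimpleGraph.Copy H G, (∀ u, φ u ∉ Z) → ∃ u w, φ w ∈ D (φ u)) →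
      ∃ n : ℕ, G.Colorable n ∧ (n : ℝ) ≤ (a + ε) * ((Δ : ℝ) / Real.log Δ) := by
  set η : ℝ := ε / (4 * a + 2 * ε) with hη
  have hden : 0 < 4 * a + 2 * ε := by linarith
  have hη0 : 0 < η := by positivity
  have hη1 : η ≤ 1 / 2 := by
    rw [hη, div_le_iff₀ hden]
    linarith
  have hη2 : η * (4 * a + 2 * ε) = ε := by
    rw [hη]
    field_simp
  unfold BLe at h
  rw [eventually_atTop] at h
  obtain ⟨Δ₀, hΔ₀⟩ := h
  filter_upwards [partition_arcs k b hη0, eventually_log_le_rpow (η / 2) (by linarith),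
    eventually_const_le_rpow (1 / η) (1 / 2) (by norm_num),
    eventually_const_le_rpow Δ₀ (1 / 2) (by norm_num),
    eventually_le_log (72 * k / ε + 1), tendsto_div_log ((3 * k + 1) / (ε / 4)),
    eventually_ge_atTop 3] with Δ hpart hlogle hr1 hr2 hlogge hdivlog hΔ3
  intro V _ G _ Z D hdeg hZ hD hxD hin hcopy
  classical
  have hΔ3' : (3 : ℝ) ≤ Δ := by exact_mod_cast hΔ3
  have hΔ0 : (0 : ℝ) < Δ := by linarith
  have hΔ1 : (1 : ℝ) ≤ Δ := by linarith
  set L : ℝ := Real.log Δ with hL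
  have hL1 : 1 ≤ L := by
    have : 0 ≤ 72 * (k : ℝ) / ε := by positivity
    linarith
  have hL0 : 0 < L := by linarith
  set K : ℕ := ⌈L ^ 2⌉₊ with hK
  have hK1 : L ^ 2 ≤ K := Nat.le_ceil _
  have hK2 : (K : ℝ) ≤ L ^ 2 + 1 := (Nat.ceil_lt_add_one (by positivity)).le
  have hK0 : 0 < K := by
    rw [hK, Nat.ceil_pos]
    positivity
  have hK0' : (0 : ℝ) < K := by exact_mod_cast hK0
  have hKη : (K : ℝ) ≤ (Δ : ℝ) ^ η := by
    have h1 : (Δ : ℝ) ^ η = ((Δ : ℝ) ^ (η / 2)) ^ 2 := by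
      rw [← Real.rpow_natCast, ← Real.rpow_mul hΔ0.le]
      congr 1
      push_cast
      ring
    rw [h1]
    have h2 : (L + 1) ^ 2 ≤ ((Δ : ℝ) ^ (η / 2)) ^ 2 := pow_le_pow_left₀ (by linarith) hlogle 2
    nlinarith
  have hKhalf : (K : ℝ) ≤ (Δ : ℝ) ^ (1 / 2 : ℝ) :=
    hKη.trans (Real.rpow_le_rpow_of_exponent_le hΔ1 hη1)
  have hΔK1 : (Δ : ℝ) ^ (1 / 2 : ℝ) ≤ Δ / K := by
    rw [le_div_iff₀ hK0']
    calc (Δ : ℝ) ^ (1 / 2 : ℝ) * K ≤ (Δ : ℝ) ^ (1 / 2 : ℝ) * (Δ : ℝ) ^ (1 / 2 : ℝ) :=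
          mul_le_mul_of_nonneg_left hKhalf (by positivity)
      _ = Δ := by
          rw [← Real.rpow_add hΔ0]
          norm_num
  have hΔK2 : (Δ : ℝ) ^ (1 - η) ≤ Δ / K := by
    rw [le_div_iff₀ hK0']
    calc (Δ : ℝ) ^ (1 - η) * K ≤ (Δ : ℝ) ^ (1 - η) * (Δ : ℝ) ^ η :=
          mul_le_mul_of_nonneg_left hKη (by positivity)
      _ = Δ := by
          rw [← Real.rpow_add hΔ0]
          norm_num
  have hΔK0 : (0 : ℝ) < Δ / K := by positivity
  set Δ' : ℕ := ⌊(1 + η) * (Δ / K : ℝ)⌋₊ with hΔ'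
  have hΔ'1 : (Δ' : ℝ) ≤ (1 + η) * (Δ / K) := Nat.floor_le (by positivity)
  have hΔ'2 : (Δ / K : ℝ) ≤ Δ' := by
    have h1 : (1 + η) * (Δ / K : ℝ) < Δ' + 1 := Nat.lt_floor_add_one _
    have h2 : 1 ≤ η * (Δ / K : ℝ) := by
      have h3 : 1 / η ≤ Δ / K := hr1.trans hΔK1
      rw [div_le_iff₀ hη0] at h3
      linarith
    linarith
  have hΔ'3 : Δ₀ ≤ Δ' := by
    have : (Δ₀ : ℝ) ≤ Δ' := (hr2.trans hΔK1).trans hΔ'2
    exact_mod_cast this
  have hlog' : (1 - η) * L ≤ Real.log Δ' := by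
    rw [hL, ← Real.log_rpow hΔ0]
    exact Real.log_le_log (by positivity) (hΔK2.trans hΔ'2)
  have hlog'0 : 0 < (1 - η) * L := mul_pos (by linarith) hL0
  obtain ⟨κ, hκ1, hκ2⟩ := hpart V G D hdeg hD hxD (by
    intro w
    obtain ⟨T, hT1, hT2⟩ := hin w
    refine le_trans ?_ hT2
    have : (univ.filter (fun x => w ∈ D x)).card ≤ T.card := by
      apply card_le_card
      intro x hx
      exact hT1 x (mem_filter.1 hx).2
    exact_mod_cast this) K hK0 hKhalf
  -- the bad vertices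
  set X : Finset V := univ.filter (fun x => ∃ z ∈ D x, κ z = κ x) ∪ Z with hX
  set r : ℕ := ⌊2 * k * (9 * (Δ / K : ℝ) + 1)⌋₊ + k with hr
  have hr1' : (r : ℝ) ≤ 2 * k * (9 * (Δ / K) + 1) + k := by
    rw [hr]
    push_cast
    exact add_le_add_left (Nat.floor_le (by positivity)) _
  set q : ℕ := ⌊a * ((Δ' : ℝ) / Real.log Δ')⌋₊ with hq
  have hq1 : (q : ℝ) ≤ a * ((Δ' : ℝ) / Real.log Δ') := Nat.floor_le (by positivity)
  have hcol : G.Colorable (K * q + (r + 1)) := by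
    apply combine_parts G K q r κ X
    · intro v
      have h1 : (univ.filter (fun x => G.Adj v x ∧ ∃ z ∈ D x, κ z = κ x)).card ≤
          ⌊2 * k * (9 * (Δ / K : ℝ) + 1)⌋₊ := Nat.le_floor (hκ1 v)
      have h2 : X.filter (fun u => G.Adj v u) ⊆
          (univ.filter (fun x => G.Adj v x ∧ ∃ z ∈ D x, κ z = κ x)) ∪ Z := by
        intro u hu
        rw [mem_filter, hX, mem_union, mem_filter] at hu
        rw [mem_union, mem_filter]
        rcases hu.1 with h | h
        · exact Or.inl ⟨mem_univ _, hu.2, h.2⟩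
        · exact Or.inr h
      exact (card_le_card h2).trans ((card_union_le _ _).trans (add_le_add h1 hZ))
    · intro p
      obtain ⟨n, hn, hle⟩ := hΔ₀ Δ' hΔ'3 {v | κ v = p ∧ v ∉ X} (G.induce {v | κ v = p ∧ v ∉ X})
        (by
          rintro ⟨f⟩
          obtain ⟨u, w, huw⟩ := hcopy ((SimpleGraph.Copy.induce G _).comp f)
            (fun u hu => (f u).2.2 (mem_union_right _ hu))
          have h1 := (f u).2
          have h2 := (f w).2
          apply h1.2
          exact mem_union_left _ (mem_filter.2 ⟨mem_univ _, _, huw, h2.1.trans h1.1.symm⟩))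
        (by
          intro v
          apply Nat.le_floor
          refine le_trans ?_ (hκ2 v p)
          have : (G.induce {v | κ v = p ∧ v ∉ X}).degree v ≤
              (univ.filter (fun u => G.Adj v u ∧ κ u = p)).card := by
            rw [← deg_eq]
            apply card_le_card_of_injOn (fun x : ({v | κ v = p ∧ v ∉ X} : Set V) => (x : V))
            · intro u hu
              rw [mem_coe, mem_filter] at hu ⊢
              exact ⟨mem_univ _, hu.2, u.2.1⟩
            · intro x _ y _ hxy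
              exact Subtype.ext hxy
          exact_mod_cast this)
      exact hn.mono (Nat.le_floor hle)
  refine ⟨_, hcol, ?_⟩
  push_cast
  have e1 : (K : ℝ) * q ≤ (a + ε / 2) * (Δ / L) := by
    calc (K : ℝ) * q ≤ K * (a * ((Δ' : ℝ) / Real.log Δ')) :=
          mul_le_mul_of_nonneg_left hq1 hK0'.le
      _ ≤ K * (a * (((1 + η) * (Δ / K)) / ((1 - η) * L))) := by
          apply mul_le_mul_of_nonneg_left _ hK0'.le
          apply mul_le_mul_of_nonneg_left _ ha
          exact div_le_div₀ (by positivity) hΔ'1 hlog'0 hlog'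
      _ = (a * (1 + η) / (1 - η)) * (Δ / L) := by
          have : 1 - η ≠ 0 := by linarith
          field_simp
      _ ≤ (a + ε / 2) * (Δ / L) := by
          apply mul_le_mul_of_nonneg_right _ (by positivity)
          rw [div_le_iff₀ (by linarith)]
          nlinarith
  have e2 : (r : ℝ) + 1 ≤ (ε / 2) * (Δ / L) := by
    have h1 : (Δ / K : ℝ) ≤ Δ / L ^ 2 := div_le_div_of_nonneg_left hΔ0.le (by positivity) hK1
    have h2 : 18 * k * (Δ / L ^ 2 : ℝ) ≤ (ε / 4) * (Δ / L) := by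
      have h3 : 72 * (k : ℝ) ≤ ε * L := by
        have : 72 * (k : ℝ) / ε ≤ L := by linarith
        rw [div_le_iff₀ hε] at this
        linarith
      have h4 : (Δ / L ^ 2 : ℝ) = (Δ / L) / L := by
        field_simp
      rw [h4, mul_div_assoc', div_le_iff₀ hL0]
      have h5 : (0 : ℝ) ≤ Δ / L := by positivity
      nlinarith
    have h3 : (3 * k + 1 : ℝ) ≤ (ε / 4) * (Δ / L) := by
      rw [div_le_iff₀ (by linarith)] at hdivlog
      linarith
    have h4 : (0 : ℝ) ≤ k := Nat.cast_nonneg k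
    have h5 : 18 * (k : ℝ) * (Δ / K) ≤ 18 * k * (Δ / L ^ 2 : ℝ) :=
      mul_le_mul_of_nonneg_left h1 (by positivity)
    linarith
  linarith

end Pool.Agent.Lib.MP_349e33_co
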