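import Mathlib

/-!
Ways of building graphs.
-/

namespace Pool.Agent.Lib.MP_349e33_co

/-- `F[S]` is built from pieces contained in `H`: a subgraph of `H`, a disjoint union of two sets
already built, or the gluing, at a single vertex `b`, of a connected piece `F[P]` which for every
vertex `x` of `H` has a copy in `H` mapping `b` to `x`. -/
inductive Glued {U W : Type*} (H : SimpleGraph U) (F : SimpleGraph W) : Set W → Prop
  | base (S : Set W) (h : (F.induce S).IsContained H) : Glued H F S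
  | disj (S P : Set W) (hS : Glued H F S) (hP : Glued H F P)
      (h : ∀ s ∈ S, ∀ p ∈ P, s ≠ p ∧ ¬ F.Adj s p) : Glued H F (S ∪ P)
  | glue (S P : Set W) (b : W) (hS : Glued H F S) (hbS : b ∈ S) (hbP : b ∈ P)
      (hSP : S ∩ P ⊆ {b}) (hadj : ∀ s ∈ S, ∀ p ∈ P, F.Adj s p → s = b ∨ p = b)
      (hP : (F.induce P).Connected)
      (hH : ∀ x : U, ∃ φ : SimpleGraph.Copy (F.induce P) H, φ ⟨b, hbP⟩ = x) : Glued H F (S ∪ P)

/-- Every component `C` of `F - A` has at most one neighbour in `A`, and `F[C]` has a copy in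
`B - b` in which every vertex adjacent to that neighbour goes to a neighbour of `b`; in other
words `C` together with its neighbour embeds in the rooted graph `(B, b)`. -/
def Attached {U W : Type*} (B : SimpleGraph U) (b : U) (F : SimpleGraph W) (A : Set W) : Prop :=
  ∀ C : (F.induce Aᶜ).ConnectedComponent,
    (∀ u ∈ C.supp, ∀ v ∈ C.supp, ∀ a ∈ A, ∀ a' ∈ A, F.Adj u a → F.Adj v a' → a = a') ∧
    ∃ φ : (Aᶜ : Set W) → U, Set.InjOn φ C.supp ∧ (∀ u ∈ C.supp, φ u ≠ b) ∧
      (∀ u ∈ C.supp, ∀ v ∈ C.supp, F.Adj u v → B.Adj (φ u) (φ v)) ∧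
      (∀ u ∈ C.supp, ∀ a ∈ A, F.Adj u a → B.Adj (φ u) b)

/-- Any two odd cycles of `F` which share an edge have the same edges. -/
def OddCyclesEdgeDisjoint {W : Type*} (F : SimpleGraph W) : Prop :=
  ∀ (u v : W) (p : F.Walk u u) (q : F.Walk v v), p.IsCycle → q.IsCycle →
    Odd p.length → Odd q.length → (∃ e ∈ p.edges, e ∈ q.edges) → ∀ e ∈ p.edges, e ∈ q.edges

end Pool.Agent.Lib.MP_349e33_co
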