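import Mathlib
import Pool.Agent.Lib.MP_349e33_co.Arcs
import Pool.Agent.Lib.MP_349e33_co.GlueDefs

/-!
Gluing pieces: `c(F) ≤ c(H)` when `F` is built from pieces which embed in `H` at every vertex.
-/

namespace Pool.Agent.Lib.MP_349e33_co

open Finset Filter
open scoped ENNReal

set_option linter.unusedSectionVars false

/-- `G` restricted to `Y` has a bounded set `Z` and a local system of arcs `D` such that every
copy of `H` in `Y \ Z` contains an arc. -/
def Arced {U V : Type*} (H : SimpleGraph U) (k : ℕ) (G : SimpleGraph V) (Y : Finset V) : Prop :=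
  ∃ (Z : Finset V) (D : V → Finset V), Z.card ≤ k ∧ (∀ x, (D x).card ≤ k) ∧ (∀ x, x ∉ D x) ∧
    (∀ x, ∀ w ∈ D x, ∃ p : G.Walk x w, p.length ≤ k) ∧
    ∀ φ : SimpleGraph.Copy H G, (∀ u, φ u ∈ Y ∧ φ u ∉ Z) → ∃ u w, φ w ∈ D (φ u)

theorem Arced.mono {U V : Type*} {H : SimpleGraph U} {k l : ℕ} {G : SimpleGraph V} {Y : Finset V}
    (h : Arced H k G Y) (hkl : k ≤ l) : Arced H l G Y := by
  obtain ⟨Z, D, h1, h2, h3, h4, h5⟩ := h
  refine ⟨Z, D, h1.trans hkl, fun x => (h2 x).trans hkl, h3, fun x w hw => ?_, h5⟩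
  obtain ⟨p, hp⟩ := h4 x w hw
  exact ⟨p, hp.trans hkl⟩

/-- Gluing two copies. -/
theorem combine_copies {W V : Type*} (F : SimpleGraph W) (G : SimpleGraph V) (S P : Set W)
    (φ : SimpleGraph.Copy (F.induce S) G) (ψ : SimpleGraph.Copy (F.induce P) G)
    (hinj : ∀ (s : S) (p : P), φ s = ψ p ↔ (s : W) = p)
    (hadj : ∀ (s : S) (p : P), F.Adj s p → G.Adj (φ s) (ψ p)) :
    ∃ χ : SimpleGraph.Copy (F.induce (S ∪ P)) G,
      ∀ w, (∃ s, χ w = φ s) ∨ (∃ p, χ w = ψ p) := by
  classical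
  let c : (S ∪ P : Set W) → V := fun w => if h : (w : W) ∈ S then φ ⟨w, h⟩ else
    ψ ⟨w, w.2.resolve_left h⟩
  have hc : ∀ w : (S ∪ P : Set W), (∃ s : S, (s : W) = w ∧ c w = φ s) ∨
      (∃ p : P, (p : W) = w ∧ c w = ψ p) := by
    intro w
    by_cases h : (w : W) ∈ S
    · left
      exact ⟨⟨w, h⟩, rfl, by simp only [c, dif_pos h]⟩
    · right
      exact ⟨⟨w, w.2.resolve_left h⟩, rfl, by simp only [c, dif_neg h]⟩
  refine ⟨⟨⟨c, ?_⟩, ?_⟩, ?_⟩
  · intro u w huw
    have huw' : F.Adj u w := huw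
    rcases hc u with ⟨s, hs, e1⟩ | ⟨p, hp, e1⟩ <;> rcases hc w with ⟨s', hs', e2⟩ | ⟨p', hp', e2⟩
    · rw [e1, e2]
      exact φ.toHom.map_adj (show F.Adj s s' by rw [hs, hs']; exact huw')
    · rw [e1, e2]
      exact hadj s p' (by rw [hs, hp']; exact huw')
    · rw [e1, e2]
      exact (hadj s' p (by rw [hs', hp]; exact huw'.symm)).symm
    · rw [e1, e2]
      exact ψ.toHom.map_adj (show F.Adj p p' by rw [hp, hp']; exact huw')
  · intro u w huw
    change c u = c w at huw
    apply Subtype.ext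
    rcases hc u with ⟨s, hs, e1⟩ | ⟨p, hp, e1⟩ <;> rcases hc w with ⟨s', hs', e2⟩ | ⟨p', hp', e2⟩
    · rw [e1, e2] at huw
      rw [← hs, ← hs', φ.injective huw]
    · rw [e1, e2] at huw
      rw [← hs, ← hp']
      exact (hinj s p').1 huw
    · rw [e1, e2] at huw
      rw [← hs', ← hp]
      exact ((hinj s' p).1 huw.symm).symm
    · rw [e1, e2] at huw
      rw [← hp, ← hp', ψ.injective huw]
  · intro w
    rcases hc w with ⟨s, _, e⟩ | ⟨p, _, e⟩
    · exact Or.inl ⟨s, e⟩
    · exact Or.inr ⟨p, e⟩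

/-- `x` is rich in `Y`: rooted copies of `B` in `Y` at `x` cannot be hit by `f` vertices. -/
def RichIn {W V : Type*} (G : SimpleGraph V) (B : SimpleGraph W) (b : W) (f : ℕ) (Y : Finset V)
    (x : V) : Prop :=
  ∀ D : Finset V, D.card ≤ f → x ∉ D →
    ∃ φ : SimpleGraph.Copy B G, φ b = x ∧ ∀ u, φ u ∈ Y ∧ φ u ∉ D

/-- A hitting set can be taken local. -/
theorem exists_local {W V : Type*} [Fintype W] (G : SimpleGraph V) (B : SimpleGraph W) (b : W)
    (hB : B.Connected) (f : ℕ) (Y : Finset V) (x : V) (hx : ¬ RichIn G B b f Y x) :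
    ∃ D : Finset V, D.card ≤ f ∧ x ∉ D ∧
      (∀ w ∈ D, ∃ p : G.Walk x w, p.length ≤ Fintype.card W) ∧
      ∀ φ : SimpleGraph.Copy B G, φ b = x → (∀ u, φ u ∈ Y) → ∃ u, φ u ∈ D := by
  classical
  unfold RichIn at hx
  push Not at hx
  obtain ⟨D, hD1, hD2, hD3⟩ := hx
  refine ⟨D.filter (fun w => ∃ p : G.Walk x w, p.length ≤ Fintype.card W),
    (card_filter_le _ _).trans hD1, fun h => hD2 (mem_filter.1 h).1,
    fun w hw => (mem_filter.1 hw).2, ?_⟩
  intro φ hφ hY
  obtain ⟨u, hu⟩ := hD3 φ hφ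
  refine ⟨u, mem_filter.2 ⟨hu (hY u), ?_⟩⟩
  obtain ⟨p, hp⟩ := (hB.preconnected b u).exists_isPath
  subst hφ
  refine ⟨p.map φ.toHom, ?_⟩
  rw [SimpleGraph.Walk.length_map]
  exact hp.length_lt.le

theorem peel {U W V : Type*} [Fintype W] [DecidableEq V] (H : SimpleGraph U) (B : SimpleGraph W)
    (b : W) (hB : B.Connected) (hH : ∀ x : U, ∃ φ : SimpleGraph.Copy B H, φ b = x) (f : ℕ)
    (G : SimpleGraph V) :
    ∀ n, ∀ Y : Finset V, Y.card = n → ∃ Y' ⊆ Y, ∃ D : V → Finset V, (∀ x, (D x).card ≤ f) ∧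
      (∀ x, x ∉ D x) ∧ (∀ x, ∀ w ∈ D x, ∃ p : G.Walk x w, p.length ≤ Fintype.card W) ∧
      (∀ x ∈ Y', RichIn G B b f Y' x) ∧
      ∀ φ : SimpleGraph.Copy H G, (∀ u, φ u ∈ Y) →
        (∀ u, φ u ∈ Y') ∨ ∃ u w, φ u ∉ Y' ∧ φ w ∈ D (φ u) := by
  classical
  intro n
  induction n with
  | zero =>
    intro Y hY
    rw [card_eq_zero] at hY
    subst hY
    refine ⟨∅, subset_rfl, fun _ => ∅, by simp, by simp, by simp, by simp, ?_⟩
    intro φ hφ
    exact Or.inl hφ
  | succ n ih =>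
    intro Y hY
    by_cases hrich : ∀ x ∈ Y, RichIn G B b f Y x
    · exact ⟨Y, subset_rfl, fun _ => ∅, by simp, by simp, by simp, hrich,
        fun φ hφ => Or.inl hφ⟩
    push Not at hrich
    obtain ⟨x, hxY, hx⟩ := hrich
    obtain ⟨Dx, hDx1, hDx2, hDx3, hDx4⟩ := exists_local G B b hB f Y x hx
    obtain ⟨Y', hY', D, hD1, hD2, hD3, hD4, hD5⟩ := ih (Y.erase x) (by
      rw [card_erase_of_mem hxY, hY]; rfl)
    have hxY' : x ∉ Y' := fun h => (mem_erase.1 (hY' h)).1 rfl
    refine ⟨Y', hY'.trans (erase_subset _ _), Function.update D x Dx, ?_, ?_, ?_, hD4, ?_⟩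
    · intro y
      by_cases hyx : y = x
      · subst hyx; rw [Function.update_self]; exact hDx1
      · rw [Function.update_of_ne hyx]; exact hD1 y
    · intro y
      by_cases hyx : y = x
      · subst hyx; rw [Function.update_self]; exact hDx2
      · rw [Function.update_of_ne hyx]; exact hD2 y
    · intro y
      by_cases hyx : y = x
      · subst hyx; rw [Function.update_self]; exact hDx3
      · rw [Function.update_of_ne hyx]; exact hD3 y
    · intro φ hφ
      by_cases himg : ∃ u, φ u = x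
      · right
        obtain ⟨u, hu⟩ := himg
        obtain ⟨ψ, hψ⟩ := hH u
        obtain ⟨w, hw⟩ := hDx4 (φ.comp ψ) (by
          change φ (ψ b) = x
          rw [hψ, hu]) (fun w => hφ _)
        refine ⟨u, ψ w, ?_, ?_⟩
        · rw [hu]; exact hxY'
        · rw [hu, Function.update_self]
          exact hw
      · push Not at himg
        rcases hD5 φ (fun u => mem_erase.2 ⟨himg u, hφ u⟩) with h | ⟨u, w, h1, h2⟩
        · exact Or.inl h
        · right
          refine ⟨u, w, h1, ?_⟩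
          rw [Function.update_of_ne (himg u)]
          exact h2

theorem Glued.arced {U W : Type*} [Finite W] {H : SimpleGraph U} {F : SimpleGraph W} {S : Set W}
    (h : Glued H F S) :
    ∃ k : ℕ, ∀ (V : Type) [Fintype V] (G : SimpleGraph V) (Y : Finset V),
      (∀ φ : SimpleGraph.Copy (F.induce S) G, ∃ u, φ u ∉ Y) → Arced H k G Y := by
  classical
  have := Fintype.ofFinite W
  induction h with
  | base S h =>
    refine ⟨0, fun V _ G Y hY => ⟨∅, fun _ => ∅, by simp, by simp, by simp, by simp, ?_⟩⟩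
    intro φ hφ
    exfalso
    obtain ⟨f⟩ := h
    obtain ⟨u, hu⟩ := hY (φ.comp f)
    exact hu (hφ (f u)).1
  | disj S P hS hP h ihS ihP =>
    obtain ⟨k₁, hk₁⟩ := ihS
    obtain ⟨k₂, hk₂⟩ := ihP
    refine ⟨k₁ + k₂ + Fintype.card W, fun V _ G Y hY => ?_⟩
    by_cases hfree : ∀ φ : SimpleGraph.Copy (F.induce P) G, ∃ u, φ u ∉ Y
    · exact (hk₂ V G Y hfree).mono (by omega)
    push Not at hfree
    obtain ⟨ψ, hψ⟩ := hfree
    set Z₀ : Finset V := univ.image ψ with hZ₀
    have hZ₀c : Z₀.card ≤ Fintype.card W := by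
      refine card_image_le.trans ?_
      rw [card_univ]
      exact Fintype.card_subtype_le _
    obtain ⟨Z, D, h1, h2, h3, h4, h5⟩ := hk₁ V G (Y \ Z₀) (by
      intro φ
      by_contra hcon
      push Not at hcon
      have hne : ∀ (s : S) (p : P), φ s ≠ ψ p := by
        intro s p hsp
        have := (mem_sdiff.1 (hcon s)).2
        rw [hsp] at this
        exact this (mem_image_of_mem _ (mem_univ _))
      obtain ⟨χ, hχ⟩ := combine_copies F G S P φ ψ
        (fun s p => ⟨fun h => absurd h (hne s p), fun hsp => absurd hsp (h s s.2 p p.2).1⟩)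
        (fun s p hsp => absurd hsp (h s s.2 p p.2).2)
      obtain ⟨u, hu⟩ := hY χ
      apply hu
      rcases hχ u with ⟨s, hs⟩ | ⟨p, hp⟩
      · rw [hs]; exact (mem_sdiff.1 (hcon s)).1
      · rw [hp]; exact hψ p)
    refine ⟨Z ∪ Z₀, D, ?_, fun x => (h2 x).trans (by omega), h3, ?_, ?_⟩
    · refine (card_union_le _ _).trans ?_
      omega
    · intro x w hw
      obtain ⟨p, hp⟩ := h4 x w hw
      exact ⟨p, hp.trans (by omega)⟩
    · intro φ hφ
      apply h5 φ
      intro u
      obtain ⟨hu1, hu2⟩ := hφ u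
      rw [mem_union, not_or] at hu2
      exact ⟨mem_sdiff.2 ⟨hu1, hu2.2⟩, hu2.1⟩
  | glue S P b hS hbS hbP hSP hadj hP hH ihS =>
    obtain ⟨k₁, hk₁⟩ := ihS
    refine ⟨k₁ + Fintype.card W, fun V _ G Y hY => ?_⟩
    obtain ⟨Y', hY', D, hD1, hD2, hD3, hD4, hD5⟩ :=
      peel H (F.induce P) ⟨b, hbP⟩ hP hH (Fintype.card W) G Y.card Y rfl
    obtain ⟨Z, D', h1, h2, h3, h4, h5⟩ := hk₁ V G Y' (by
      intro φ
      by_contra hcon
      push Not at hcon
      set x : V := φ ⟨b, hbS⟩ with hx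
      obtain ⟨ψ, hψ1, hψ2⟩ := hD4 x (hcon _) ((univ.image φ).erase x) (by
        refine (card_le_card (erase_subset _ _)).trans (card_image_le.trans ?_)
        rw [card_univ]
        exact Fintype.card_subtype_le _) (notMem_erase _ _)
      have hkey : ∀ (s : S) (p : P), φ s = ψ p → (s : W) = b ∧ (p : W) = b := by
        intro s p hsp
        have h6 := (hψ2 p).2
        rw [mem_erase, not_and_or, not_not] at h6
        rcases h6 with h6 | h6
        · constructor
          · have : φ s = φ ⟨b, hbS⟩ := by rw [hsp, h6]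
            exact congrArg Subtype.val (φ.injective this)
          · have : ψ p = ψ ⟨b, hbP⟩ := by rw [h6, hψ1]
            exact congrArg Subtype.val (ψ.injective this)
        · exfalso
          apply h6
          rw [← hsp]
          exact mem_image_of_mem _ (mem_univ _)
      obtain ⟨χ, hχ⟩ := combine_copies F G S P φ ψ
        (fun s p => ⟨fun h => (hkey s p h).1.trans (hkey s p h).2.symm, fun hsp => by
          have h7 : (s : W) = b := hSP ⟨s.2, hsp ▸ p.2⟩
          have h8 : (p : W) = b := hsp ▸ h7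
          have e1 : s = ⟨b, hbS⟩ := Subtype.ext h7
          have e2 : p = ⟨b, hbP⟩ := Subtype.ext h8
          rw [e1, e2, hψ1]⟩)
        (fun s p hsp => by
          rcases hadj s s.2 p p.2 hsp with h7 | h7
          · have e1 : s = ⟨b, hbS⟩ := Subtype.ext h7
            rw [e1, ← hx, ← hψ1]
            exact ψ.toHom.map_adj (show F.Adj b p by rw [← h7]; exact hsp)
          · have e2 : p = ⟨b, hbP⟩ := Subtype.ext h7
            rw [e2, hψ1, hx]
            exact φ.toHom.map_adj (show F.Adj s b by rw [← h7]; exact hsp))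
      obtain ⟨u, hu⟩ := hY χ
      apply hu
      rcases hχ u with ⟨s, hs⟩ | ⟨p, hp⟩
      · rw [hs]; exact hY' (hcon s)
      · rw [hp]; exact hY' (hψ2 p).1)
    refine ⟨Z, fun x => if x ∈ Y' then D' x else D x, h1.trans (by omega), ?_, ?_, ?_, ?_⟩
    · intro x
      by_cases hx : x ∈ Y'
      · simp only [if_pos hx]; exact (h2 x).trans (by omega)
      · simp only [if_neg hx]; exact (hD1 x).trans (by omega)
    · intro x
      by_cases hx : x ∈ Y'
      · simp only [if_pos hx]; exact h3 x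
      · simp only [if_neg hx]; exact hD2 x
    · intro x w hw
      by_cases hx : x ∈ Y'
      · simp only [if_pos hx] at hw
        obtain ⟨p, hp⟩ := h4 x w hw
        exact ⟨p, hp.trans (by omega)⟩
      · simp only [if_neg hx] at hw
        obtain ⟨p, hp⟩ := hD3 x w hw
        refine ⟨p, hp.trans ?_⟩
        have := Fintype.card_subtype_le (fun x => x ∈ P)
        exact this.trans (by omega)
    · intro φ hφ
      rcases hD5 φ (fun u => (hφ u).1) with h | ⟨u, w, hu, hw⟩
      · obtain ⟨u, w, huw⟩ := h5 φ (fun u => ⟨h u, (hφ u).2⟩)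
        refine ⟨u, w, ?_⟩
        simp only [if_pos (h u)]
        exact huw
      · refine ⟨u, w, ?_⟩
        simp only [if_neg hu]
        exact hw

/-- The ball of radius `k`. -/
theorem ball_card {V : Type*} [Fintype V] [DecidableEq V] (G : SimpleGraph V)
    [DecidableRel G.Adj] (Δ : ℕ) (hdeg : ∀ v, G.degree v ≤ Δ) (w : V) (k : ℕ) :
    ∃ T : Finset V, (∀ x, (∃ p : G.Walk x w, p.length ≤ k) → x ∈ T) ∧ T.card ≤ (Δ + 1) ^ k := by
  induction k with
  | zero =>
    refine ⟨{w}, ?_, by simp⟩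
    rintro x ⟨p, hp⟩
    have : p.length = 0 := by omega
    rw [mem_singleton]
    exact SimpleGraph.Walk.eq_of_length_eq_zero this
  | succ k ih =>
    obtain ⟨T, hT1, hT2⟩ := ih
    refine ⟨T ∪ T.biUnion (fun y => univ.filter (fun x => G.Adj y x)), ?_, ?_⟩
    · rintro x ⟨p, hp⟩
      cases p with
      | nil =>
        apply mem_union_left
        exact hT1 _ ⟨SimpleGraph.Walk.nil, by simp⟩
      | cons h q =>
        apply mem_union_right
        rw [mem_biUnion]
        rw [SimpleGraph.Walk.length_cons] at hp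
        exact ⟨_, hT1 _ ⟨q, by omega⟩, mem_filter.2 ⟨mem_univ _, h.symm⟩⟩
    · refine (card_union_le _ _).trans ?_
      have h1 : (T.biUnion (fun y => univ.filter (fun x => G.Adj y x))).card ≤ T.card * Δ :=
        card_biUnion_le_card_mul _ _ _ (fun y _ => by rw [deg_eq]; exact hdeg y)
      rw [pow_succ]
      nlinarith

theorem ble_of_arced {U W : Type*} {H : SimpleGraph U} {F : SimpleGraph W} {k : ℕ}
    (hk : ∀ (V : Type) [Fintype V] (G : SimpleGraph V), F.Free G → Arced H k G univ)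
    {a : ℝ} (ha : 0 ≤ a) (h : BLe H a) {ε : ℝ} (hε : 0 < ε) : BLe F (a + ε) := by
  filter_upwards [ble_arcs H ha h k (2 * k) hε, eventually_ge_atTop 2] with Δ hΔ hΔ2 V _ G _ hF hdeg
  classical
  obtain ⟨Z, D, h1, h2, h3, h4, h5⟩ := hk V G hF
  refine hΔ V G Z D hdeg h1 h2 h3 ?_ (fun φ hφ => h5 φ fun u => ⟨mem_univ _, hφ u⟩)
  intro w
  obtain ⟨T, hT1, hT2⟩ := ball_card G Δ hdeg w k
  refine ⟨T, fun x hx => hT1 x (h4 x w hx), ?_⟩
  have h6 : (Δ + 1) ^ k ≤ Δ ^ (2 * k) := by
    rw [pow_mul]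
    apply Nat.pow_le_pow_left
    nlinarith
  exact_mod_cast hT2.trans h6

theorem cF_le_of_ble {U W : Type*} {H : SimpleGraph U} {F : SimpleGraph W}
    (hble : ∀ a : ℝ, 0 ≤ a → BLe H a → ∀ ε : ℝ, 0 < ε → BLe F (a + ε)) : cF F ≤ cF H := by
  rcases eq_or_ne (cF H) ⊤ with htop | htop
  · rw [htop]; exact le_top
  set a : ℝ := (cF H).toReal with ha
  have ha0 : 0 ≤ a := ENNReal.toReal_nonneg
  have ha' : cF H = ENNReal.ofReal a := (ENNReal.ofReal_toReal htop).symm
  rw [ha']
  apply cF_le_of_bex ha0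
  intro ε hε
  have h2 : BEx H (a + ε / 4) := bex_of_cF_le ha0 ha'.le (by linarith)
  have h3 : BLe H (a + ε / 4 + ε / 4) := h2.ble (by linarith) (by linarith)
  have h4 := hble _ (by linarith) h3 (ε / 4) (by linarith)
  exact (h4.mono (by linarith)).bex

/-- If `F` is built from pieces of `H` then `c(F) ≤ c(H)`. -/
theorem cF_glued {U W : Type*} [Finite W] {H : SimpleGraph U} {F : SimpleGraph W}
    (h : Glued H F Set.univ) : cF F ≤ cF H := by
  obtain ⟨k, hk⟩ := h.arced
  apply cF_le_of_ble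
  intro a ha hH ε hε
  refine ble_of_arced (k := k) ?_ ha hH hε
  intro V _ G hF
  apply hk V G univ
  intro φ
  exfalso
  apply hF
  exact ⟨φ.comp (SimpleGraph.induceUnivIso F).symm.toCopy⟩

end Pool.Agent.Lib.MP_349e33_co
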