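import Mathlib

/-!
Random subgraphs of Hamming graphs: `K_{m+1}`-free graphs of large chromatic number.

The vertices are the functions `Fin (l + 1) → Fin B`. For every direction `i` and every vertex `u`
there is a colour `p i u : Fin m`. Two vertices are joined if they differ at most in one
coordinate `i` and `p i u ≠ p i v`.
-/

namespace Pool.Agent.Lib.MP_349e33_co.Hamming

open Finset

variable {l B m : ℕ}

/-- The random subgraph of the Hamming graph given by `p`. -/
def HG (p : Fin (l + 1) → (Fin (l + 1) → Fin B) → Fin m) :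
    SimpleGraph (Fin (l + 1) → Fin B) where
  Adj u v := ∃ i, (∀ j, j ≠ i → u j = v j) ∧ p i u ≠ p i v
  symm := ⟨by
    rintro u v ⟨i, h1, h2⟩
    exact ⟨i, fun j hj => (h1 j hj).symm, h2.symm⟩⟩
  loopless := ⟨by
    rintro u ⟨i, _, h⟩
    exact h rfl⟩

/-- The graph has no clique with `m + 1` vertices. -/
theorem free (hm : 1 ≤ m) (p : Fin (l + 1) → (Fin (l + 1) → Fin B) → Fin m) :
    (⊤ : SimpleGraph (Fin (m + 1))).Free (HG p) := by
  rintro ⟨φ⟩
  have hinj : ∀ i j, φ i = φ j → i = j := fun i j h => φ.injective h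
  have hadj : ∀ i j, i ≠ j → (HG p).Adj (φ i) (φ j) := fun i j h =>
    φ.toHom.map_adj (by rw [SimpleGraph.top_adj]; exact h)
  -- two distinct indices
  have h01 : (0 : Fin (m + 1)) ≠ Fin.last m := by
    intro h
    have := congrArg Fin.val h
    simp at this
    omega
  obtain ⟨a, ha1, ha2⟩ := hadj 0 (Fin.last m) h01
  have ha3 : φ 0 a ≠ φ (Fin.last m) a := by
    intro h
    apply h01
    apply hinj
    funext j
    by_cases hj : j = a
    · rw [hj]; exact h
    · exact ha1 j hj
  -- every vertex of the clique agrees with `φ 0` off `a`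
  have hline : ∀ i, ∀ j, j ≠ a → φ i j = φ 0 j := by
    intro i
    by_cases hi0 : i = 0
    · intro j _
      rw [hi0]
    by_cases hi1 : i = Fin.last m
    · intro j hj
      rw [hi1]
      exact (ha1 j hj).symm
    obtain ⟨b, hb1, hb2⟩ := hadj i 0 hi0
    obtain ⟨c, hc1, hc2⟩ := hadj i (Fin.last m) hi1
    by_cases hba : b = a
    · intro j hj
      exact hb1 j (hba ▸ hj)
    · exfalso
      -- `φ i` and `φ 0` agree at `a`
      have h1 : φ i a = φ 0 a := hb1 a (fun h => hba h.symm)
      have hca : c = a := by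
        by_contra hca
        have := hc1 a (fun h => hca h.symm)
        exact ha3 (h1.symm.trans this)
      apply hi0
      apply hinj
      funext j
      by_cases hj : j = b
      · rw [hj]
        have h2 : φ i b = φ (Fin.last m) b := hc1 b (by rw [hca]; exact hba)
        rw [h2]
        exact (ha1 b hba).symm
      · exact hb1 j hj
  have hp : Function.Injective (fun i => p a (φ i)) := by
    intro i j hij
    by_contra hne
    obtain ⟨b, hb1, hb2⟩ := hadj i j hne
    by_cases hba : b = a
    · rw [hba] at hb2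
      exact hb2 hij
    · apply hne
      apply hinj
      funext x
      by_cases hx : x = a
      · rw [hx]
        exact hb1 a (fun h => hba h.symm)
      · rw [hline i x hx, hline j x hx]
  have := Fintype.card_le_of_injective _ hp
  simp at this

/-- The maximum degree. -/
theorem degree_le (p : Fin (l + 1) → (Fin (l + 1) → Fin B) → Fin m)
    [DecidableRel (HG p).Adj] (u : Fin (l + 1) → Fin B) :
    (HG p).degree u ≤ (l + 1) * B := by
  classical
  rw [← SimpleGraph.card_neighborFinset_eq_degree]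
  have h1 : (HG p).neighborFinset u ⊆
      (univ : Finset (Fin (l + 1) × Fin B)).image (fun x => Function.update u x.1 x.2) := by
    intro v hv
    rw [SimpleGraph.mem_neighborFinset] at hv
    obtain ⟨i, hi, _⟩ := hv
    rw [mem_image]
    refine ⟨(i, v i), mem_univ _, ?_⟩
    funext j
    by_cases hj : j = i
    · subst hj
      rw [Function.update_self]
    · rw [Function.update_of_ne hj]
      exact hi j hj
  refine (card_le_card h1).trans (card_image_le.trans ?_)
  rw [card_univ, Fintype.card_prod, Fintype.card_fin, Fintype.card_fin]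

/-- If all the graphs are `q`-colourable, then a counting bound holds. -/
theorem count (hm : 1 ≤ m) (q : ℕ)
    (h : ∀ p : Fin (l + 1) → (Fin (l + 1) → Fin B) → Fin m, (HG p).Colorable q) :
    (m ^ (B ^ (l + 1))) ^ (l + 1) ≤ q ^ (B ^ (l + 1)) * (m ^ (B ^ l * q)) ^ (l + 1) := by
  classical
  let line : Fin (l + 1) → (Fin (l + 1) → Fin B) → (Fin l → Fin B) :=
    fun i u j => u (i.succAbove j)
  let Φ : ((Fin (l + 1) → Fin B) → Fin q) × (Fin (l + 1) → ((Fin l → Fin B) × Fin q) → Fin m) →
      (Fin (l + 1) → (Fin (l + 1) → Fin B) → Fin m) :=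
    fun x i u => x.2 i (line i u, x.1 u)
  have hΦ : Function.Surjective Φ := by
    intro p
    obtain ⟨c⟩ := h p
    let g : Fin (l + 1) → ((Fin l → Fin B) × Fin q) → Fin m := fun i y =>
      if hy : ∃ u, (line i u, c u) = y then p i hy.choose else ⟨0, hm⟩
    refine ⟨(c, g), ?_⟩
    funext i u
    have hex : ∃ v, (line i v, c v) = (line i u, c u) := ⟨u, rfl⟩
    change g i (line i u, c u) = p i u
    simp only [g, dif_pos hex]
    have hspec := hex.choose_spec
    rw [Prod.mk.injEq] at hspec
    obtain ⟨h1, h2⟩ := hspec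
    by_contra hne
    refine c.valid (v := hex.choose) (w := u) ⟨i, ?_, hne⟩ h2
    intro j hj
    obtain ⟨k, hk⟩ := Fin.exists_succAbove_eq hj
    have := congrFun h1 k
    simp only [line, hk] at this
    exact this
  have hcard := Fintype.card_le_of_surjective Φ hΦ
  simp only [Fintype.card_fun, Fintype.card_prod, Fintype.card_fin] at hcard
  exact hcard

/-- For `q ^ 2 < m ^ (l + 1)` some graph is not `q`-colourable. -/
theorem exists_not_colorable (hm : 1 ≤ m) (q : ℕ) (hq : 1 ≤ q) (hqm : q ^ 2 < m ^ (l + 1)) :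
    ∃ p : Fin (l + 1) → (Fin (l + 1) → Fin (2 * q)) → Fin m, ¬ (HG p).Colorable q := by
  by_contra hcon
  push Not at hcon
  have h := count hm q hcon
  have hN : 0 < (2 * q) ^ l * q := by positivity
  set N := (2 * q) ^ l * q with hN'
  have e1 : (2 * q) ^ (l + 1) = 2 * N := by
    rw [pow_succ, hN']
    ring
  rw [e1] at h
  have e2 : (m ^ (2 * N)) ^ (l + 1) = (m ^ (l + 1)) ^ N * (m ^ (l + 1)) ^ N := by
    rw [← pow_mul, ← pow_mul, ← pow_add]
    congr 1
    ring
  have e3 : q ^ (2 * N) * (m ^ N) ^ (l + 1) = (q ^ 2) ^ N * (m ^ (l + 1)) ^ N := by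
    rw [← pow_mul, ← pow_mul, ← pow_mul]
    congr 2
    ring
  rw [e2, e3] at h
  have hpos : 0 < (m ^ (l + 1)) ^ N := by positivity
  have h2 := Nat.le_of_mul_le_mul_right h hpos
  have h3 : (q ^ 2) ^ N < (m ^ (l + 1)) ^ N := Nat.pow_lt_pow_left hqm hN.ne'
  omega

/-- The main construction: for every `m ≥ 2` and `k ≥ 1` there is a `K_{m+1}`-free graph of
maximum degree at most `4 k m ^ k` whose chromatic number is at least `m ^ k`. -/
theorem main (m : ℕ) (hm : 2 ≤ m) (k : ℕ) (hk : 1 ≤ k) :
    ∃ (n : ℕ) (B : ℕ) (G : SimpleGraph (Fin n → Fin B)),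
      (⊤ : SimpleGraph (Fin (m + 1))).Free G ∧
      (∀ [DecidableRel G.Adj] (u : Fin n → Fin B), G.degree u ≤ 4 * k * m ^ k) ∧
      ∀ q : ℕ, G.Colorable q → m ^ k ≤ q := by
  have hmk : 2 ≤ m ^ k := by
    calc 2 ≤ m := hm
      _ = m ^ 1 := (pow_one m).symm
      _ ≤ m ^ k := Nat.pow_le_pow_right (by omega) hk
  obtain ⟨l, hl⟩ : ∃ l, l + 1 = 2 * k := ⟨2 * k - 1, by omega⟩
  obtain ⟨p, hp⟩ := exists_not_colorable (l := l) (m := m) (by omega) (m ^ k - 1) (by omega) (by
    rw [hl, mul_comm, pow_mul]
    exact Nat.pow_lt_pow_left (by omega) (by norm_num))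
  refine ⟨l + 1, 2 * (m ^ k - 1), HG p, free (by omega) p, ?_, ?_⟩
  · intro _ u
    refine (degree_le p u).trans ?_
    rw [hl]
    have h1 : m ^ k - 1 ≤ m ^ k := Nat.sub_le _ _
    calc 2 * k * (2 * (m ^ k - 1)) ≤ 2 * k * (2 * m ^ k) := by
          apply Nat.mul_le_mul_left
          omega
      _ = 4 * k * m ^ k := by ring
  · intro q hq
    by_contra hcon
    exact hp (hq.mono (by omega))

end Pool.Agent.Lib.MP_349e33_co.Hamming
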