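import Mathlib
import Pool.Agent.Lib.MP_349e33_co.Defs
import Pool.Agent.Lib.MP_349e33_co.Hamming
import Pool.Agent.Lib.MP_349e33_co.CF

/-!
`c(K_{m+1}) ≥ (log m) / 4`.
-/

namespace Pool.Agent.Lib.MP_349e33_co

open Filter
open scoped ENNReal

theorem not_bex_clique (m : ℕ) (hm2 : 2 ≤ m) (a : ℝ) (ha0 : 0 ≤ a) (ha : a < Real.log m / 4) :
    ¬ BEx (⊤ : SimpleGraph (Fin (m + 1))) a := by
  classical
  intro h
  have hm2' : (2 : ℝ) ≤ m := by exact_mod_cast hm2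
  unfold BEx at h
  rw [eventually_atTop] at h
  obtain ⟨Δ₀, hΔ₀⟩ := h
  set k : ℕ := Δ₀ + 4 with hk
  have hk1 : 1 ≤ k := by omega
  obtain ⟨n, B, G, hfree, hdeg, hcol⟩ := Hamming.main m hm2 k hk1
  have hmk : k < m ^ k := Nat.lt_pow_self (by omega)
  have hbig : m ^ k ≤ G.maxDegree + 1 := by
    apply hcol
    apply colorable_of_degree_lt
    intro v
    exact Nat.lt_succ_of_le (G.degree_le_maxDegree v)
  have hΔ3 : 3 ≤ G.maxDegree := by omega
  have hΔΔ₀ : Δ₀ ≤ G.maxDegree := by omega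
  have hΔle : G.maxDegree ≤ 4 * k * m ^ k :=
    SimpleGraph.maxDegree_le_of_forall_degree_le _ _ (fun v => hdeg v)
  obtain ⟨q, hq, hle⟩ := hΔ₀ G.maxDegree hΔΔ₀ _ G hfree rfl
  have hq' : m ^ k ≤ q := hcol q hq
  have hq'' : ((m ^ k : ℕ) : ℝ) ≤ q := by exact_mod_cast hq'
  have h1 := div_log_mono hΔ3 hΔle
  have hmk' : (0 : ℝ) < ((m ^ k : ℕ) : ℝ) := by positivity
  have hk' : (0 : ℝ) < k := by exact_mod_cast hk1
  have hlogm : 0 < Real.log m := Real.log_pos (by linarith)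
  have h2 : (k : ℝ) * Real.log m ≤ Real.log ((4 * k * m ^ k : ℕ) : ℝ) := by
    rw [← Real.log_pow]
    apply Real.log_le_log (by positivity)
    have h3 : m ^ k ≤ 4 * k * m ^ k := by
      calc m ^ k = 1 * m ^ k := (one_mul _).symm
        _ ≤ 4 * k * m ^ k := Nat.mul_le_mul_right _ (by omega)
    have h4 : ((m ^ k : ℕ) : ℝ) ≤ ((4 * k * m ^ k : ℕ) : ℝ) := by exact_mod_cast h3
    have h5 : ((m ^ k : ℕ) : ℝ) = (m : ℝ) ^ k := by push_cast; ring
    rw [← h5]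
    exact h4
  have h3 : (((4 * k * m ^ k : ℕ) : ℝ) / Real.log ((4 * k * m ^ k : ℕ) : ℝ)) ≤
      ((4 * k * m ^ k : ℕ) : ℝ) / (k * Real.log m) :=
    div_le_div_of_nonneg_left (by positivity) (by positivity) h2
  have h4 : ((4 * k * m ^ k : ℕ) : ℝ) / (k * Real.log m) =
      4 * ((m ^ k : ℕ) : ℝ) / Real.log m := by
    push_cast
    field_simp
  have h5 : a * (4 * ((m ^ k : ℕ) : ℝ) / Real.log m) < ((m ^ k : ℕ) : ℝ) := by
    rw [mul_div_assoc', div_lt_iff₀ hlogm]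
    nlinarith
  have h6 : a * ((G.maxDegree : ℝ) / Real.log G.maxDegree) ≤
      a * (4 * ((m ^ k : ℕ) : ℝ) / Real.log m) := by
    apply mul_le_mul_of_nonneg_left _ ha0
    rw [← h4]
    exact h1.trans h3
  linarith

/-- `c(K_{m+1}) ≥ (log m) / 4`. -/
theorem le_cF_clique (m : ℕ) (hm : 2 ≤ m) :
    ENNReal.ofReal (Real.log m / 4) ≤ cF (⊤ : SimpleGraph (Fin (m + 1))) := by
  by_contra hcon
  rw [not_le] at hcon
  have hne : cF (⊤ : SimpleGraph (Fin (m + 1))) ≠ ⊤ := (hcon.trans_le le_top).ne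
  set a : ℝ := (cF (⊤ : SimpleGraph (Fin (m + 1)))).toReal with ha
  have ha0 : 0 ≤ a := ENNReal.toReal_nonneg
  have ha' : cF (⊤ : SimpleGraph (Fin (m + 1))) = ENNReal.ofReal a :=
    (ENNReal.ofReal_toReal hne).symm
  rw [ha', ENNReal.ofReal_lt_ofReal_iff'] at hcon
  have hlt := hcon.1
  have h1 := bex_of_cF_le ha0 ha'.le (ε := (Real.log m / 4 - a) / 2) (by linarith)
  exact not_bex_clique m hm _ (by linarith) (by linarith) h1

end Pool.Agent.Lib.MP_349e33_co
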