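import Mathlib
import Pool.Agent.Lib.MP_349e33_co.GlueDefs

/-!
Odd cycles: every odd closed walk contains an odd cycle, and ears of an odd cycle.
-/

namespace Pool.Agent.Lib.MP_349e33_co

open SimpleGraph

variable {W : Type*} {F : SimpleGraph W}

/-- Every walk contains a path of the same parity, unless it contains an odd cycle. -/
theorem exists_path_or_odd [DecidableEq W] {u v : W} (p : F.Walk u v) :
    (∃ (x : W) (c : F.Walk x x), c.IsCycle ∧ Odd c.length ∧ c.edges ⊆ p.edges) ∨
    (∃ q : F.Walk u v, q.IsPath ∧ q.length % 2 = p.length % 2 ∧ q.edges ⊆ p.edges) := by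
  induction p with
  | nil => exact Or.inr ⟨Walk.nil, Walk.IsPath.nil, rfl, fun _ h => h⟩
  | @cons u w v h p ih =>
    rcases ih with ⟨x, c, hc1, hc2, hc3⟩ | ⟨q, hq1, hq2, hq3⟩
    · exact Or.inl ⟨x, c, hc1, hc2, fun e he => List.mem_cons_of_mem _ (hc3 he)⟩
    by_cases hu : u ∈ q.support
    · -- split at `u`
      have hspec := q.take_spec hu
      set q1 := q.takeUntil u hu with hq1'
      set q2 := q.dropUntil u hu with hq2'
      have hlen : q1.length + q2.length = q.length := by
        rw [← Walk.length_append, hspec]
      have he1 : q1.edges ⊆ q.edges := Walk.edges_takeUntil_subset _ hu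
      have he2 : q2.edges ⊆ q.edges := Walk.edges_dropUntil_subset _ hu
      have hp1 : q1.IsPath := hq1.takeUntil hu
      have hp2 : q2.IsPath := hq1.dropUntil hu
      by_cases hodd : Odd (q1.length + 1)
      · -- an odd cycle
        left
        refine ⟨u, Walk.cons h q1, ?_, ?_, ?_⟩
        · rw [Walk.cons_isCycle_iff]
          refine ⟨hp1, fun hmem => ?_⟩
          -- the edge `u w` in the path from `w` to `u`: then the path is the single edge
          have h1 : q1.length = 1 := by
            cases hq1c : q1 with
            | nil => exact absurd h (F.loopless.irrefl _)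
            | @cons _ z _ h' r =>
              rw [hq1c] at hp1 hmem
              rw [Walk.cons_isPath_iff] at hp1
              rw [Walk.edges_cons, List.mem_cons] at hmem
              rcases hmem with hm | hm
              · have hz : z = u := by
                  rw [Sym2.eq_iff] at hm
                  rcases hm with ⟨e1, _⟩ | ⟨e1, _⟩
                  · exact absurd h (e1 ▸ F.loopless.irrefl _)
                  · exact e1.symm
                subst hz
                have : r = Walk.nil := by
                  rw [← Walk.isPath_iff_eq_nil]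
                  exact hp1.1
                rw [this]
                simp
              · exfalso
                exact hp1.2 (Walk.snd_mem_support_of_mem_edges _ hm)
          rw [h1] at hodd
          exact absurd hodd (by decide)
        · rw [Walk.length_cons]
          exact hodd
        · rw [Walk.edges_cons]
          intro e he
          rw [List.mem_cons] at he
          rcases he with he | he
          · rw [he]
            exact List.mem_cons_self
          · exact List.mem_cons_of_mem _ (hq3 (he1 he))
      · right
        refine ⟨q2, hp2, ?_, fun e he => List.mem_cons_of_mem _ (hq3 (he2 he))⟩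
        rw [Walk.length_cons, Nat.not_odd_iff_even, Nat.even_iff] at *
        omega
    · right
      refine ⟨Walk.cons h q, hq1.cons hu, ?_, ?_⟩
      · rw [Walk.length_cons, Walk.length_cons]
        omega
      · rw [Walk.edges_cons, Walk.edges_cons]
        intro e he
        rw [List.mem_cons] at he ⊢
        exact he.imp id (fun h => hq3 h)

/-- An odd closed walk contains an odd cycle. -/
theorem exists_odd_cycle [DecidableEq W] {u : W} (p : F.Walk u u) (hp : Odd p.length) :
    ∃ (x : W) (c : F.Walk x x), c.IsCycle ∧ Odd c.length ∧ c.edges ⊆ p.edges := by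
  rcases exists_path_or_odd p with h | ⟨q, hq1, hq2, _⟩
  · exact h
  · exfalso
    rw [Walk.isPath_iff_eq_nil] at hq1
    subst hq1
    rw [Nat.odd_iff] at hp
    rw [Walk.length_nil, hp] at hq2
    exact absurd hq2 (by decide)

/-- The edges of a path contain no cycle. -/
theorem not_cycle_in_path [DecidableEq W] {u v : W} (p : F.Walk u v) (hp : p.IsPath) {x : W}
    (c : F.Walk x x) (hc : c.IsCycle) (hsub : c.edges ⊆ p.edges) : False := by
  induction p with
  | nil =>
    have h1 : c.edges = [] := List.eq_nil_of_subset_nil hsub
    have h2 : c.length = 0 := by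
      rw [← Walk.length_edges, h1]
      rfl
    have := hc.three_le_length
    omega
  | @cons u w v h p ih =>
    rw [Walk.cons_isPath_iff] at hp
    apply ih hp.1
    intro e he
    have h1 := hsub he
    rw [Walk.edges_cons, List.mem_cons] at h1
    rcases h1 with h1 | h1
    · exfalso
      -- the vertex `u` lies on the cycle, hence two distinct edges at `u`
      subst h1
      have hu : u ∈ c.support := Walk.fst_mem_support_of_mem_edges _ he
      have h2 := hc.ncard_neighborSet_toSubgraph_eq_two hu
      have h3 : c.toSubgraph.neighborSet u ⊆ {w} := by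
        intro z hz
        rw [Subgraph.mem_neighborSet, ← Subgraph.mem_edgeSet, Walk.mem_edges_toSubgraph] at hz
        have h4 := hsub hz
        rw [Walk.edges_cons, List.mem_cons] at h4
        rcases h4 with h4 | h4
        · rw [Sym2.congr_right] at h4
          exact h4
        · exact absurd (Walk.fst_mem_support_of_mem_edges _ h4) hp.2
      have h5 := Set.ncard_le_ncard h3
      rw [h2, Set.ncard_singleton] at h5
      omega
    · exact h1

/-- An odd ear is impossible. -/
theorem no_ear_aux [DecidableEq W] (hF : OddCyclesEdgeDisjoint F) {x y c₀ : W}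
    (C : F.Walk c₀ c₀) (hC : C.IsCycle) (hCodd : Odd C.length)
    (Q : F.Walk x y) (hQ : Q.IsPath) (hQC : ∀ e ∈ Q.edges, e ∉ C.edges)
    (R : F.Walk y x) (hRC : ∀ e ∈ R.edges, e ∈ C.edges) (hodd : Odd (Q.length + R.length))
    (e₂ : Sym2 W) (he₂ : e₂ ∈ C.edges) (he₂R : e₂ ∉ R.edges) : False := by
  obtain ⟨z, c, hc1, hc2, hc3⟩ := exists_odd_cycle (Q.append R) (by
    rw [Walk.length_append]; exact hodd)
  rw [Walk.edges_append] at hc3
  by_cases hshare : ∃ e ∈ C.edges, e ∈ c.edges
  · have h1 := hF _ _ C c hC hc1 hCodd hc2 hshare e₂ he₂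
    rcases List.mem_append.1 (hc3 h1) with h2 | h2
    · exact hQC _ h2 he₂
    · exact he₂R h2
  · apply not_cycle_in_path Q hQ c hc1
    intro e he
    rcases List.mem_append.1 (hc3 he) with h2 | h2
    · exact h2
    · exact absurd ⟨e, hRC e h2, he⟩ hshare

theorem exists_mem_edges {u v : W} (p : F.Walk u v) (huv : u ≠ v) : ∃ e, e ∈ p.edges := by
  cases p with
  | nil => exact absurd rfl huv
  | cons h p => exact ⟨_, by rw [Walk.edges_cons]; exact List.mem_cons_self⟩

/-- Two distinct vertices of an odd cycle are not joined by a path avoiding the edges of the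
cycle. -/
theorem no_ear [DecidableEq W] (hF : OddCyclesEdgeDisjoint F) {x y c₀ : W}
    (C : F.Walk c₀ c₀) (hC : C.IsCycle) (hCodd : Odd C.length)
    (hx : x ∈ C.support) (hy : y ∈ C.support) (Q : F.Walk x y)
    (hQC : ∀ e ∈ Q.edges, e ∉ C.edges) : x = y := by
  by_contra hxy
  set Q' := Q.bypass with hQ'
  have hQ'p : Q'.IsPath := Q.bypass_isPath
  have hQ'C : ∀ e ∈ Q'.edges, e ∉ C.edges := fun e he => hQC e (Q.edges_bypass_subset he)
  set C' := C.rotate x hx with hC'
  have hC'e : ∀ e, e ∈ C'.edges ↔ e ∈ C.edges := fun e =>
    (C.rotate_edges x hx).perm.mem_iff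
  have hyC' : y ∈ C'.support := by
    rw [hC', Walk.mem_support_rotate_iff]
    exact hy
  have hC'c : C'.IsCycle := hC.rotate hx
  have hC'l : C'.length = C.length := C.length_rotate x hx
  set p1 := C'.takeUntil y hyC' with hp1
  set p2 := C'.dropUntil y hyC' with hp2
  have hspec : p1.append p2 = C' := C'.take_spec hyC'
  have hlen : p1.length + p2.length = C.length := by
    rw [← Walk.length_append, hspec, hC'l]
  have hedges : C'.edges = p1.edges ++ p2.edges := by
    rw [← Walk.edges_append, hspec]
  have hnodup : (p1.edges ++ p2.edges).Nodup := by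
    rw [← hedges]
    exact hC'c.edges_nodup
  have hdis := (List.nodup_append.1 hnodup).2.2
  have h1C : ∀ e ∈ p1.edges, e ∈ C.edges := fun e he => by
    rw [← hC'e, hedges]
    exact List.mem_append_left _ he
  have h2C : ∀ e ∈ p2.edges, e ∈ C.edges := fun e he => by
    rw [← hC'e, hedges]
    exact List.mem_append_right _ he
  by_cases hodd : Odd (Q'.length + p2.length)
  · obtain ⟨e₂, he₂⟩ := exists_mem_edges p1 hxy
    exact no_ear_aux hF C hC hCodd Q' hQ'p hQ'C p2 h2C hodd e₂ (h1C _ he₂)
      (fun h => hdis _ he₂ _ h rfl)
  · obtain ⟨e₂, he₂⟩ := exists_mem_edges p2 (Ne.symm hxy)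
    refine no_ear_aux hF C hC hCodd Q' hQ'p hQ'C p1.reverse (fun e he => ?_) ?_ e₂ (h2C _ he₂)
      (fun h => ?_)
    · rw [Walk.edges_reverse, List.mem_reverse] at he
      exact h1C e he
    · rw [Walk.length_reverse]
      rw [Nat.odd_iff] at hodd hCodd ⊢
      omega
    · rw [Walk.edges_reverse, List.mem_reverse] at h
      exact hdis _ h _ he₂ rfl

end Pool.Agent.Lib.MP_349e33_co
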