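import Mathlib
import Pool.Agent.Lib.MP_349e33_co.Odd
import Pool.Agent.Lib.MP_349e33_co.Glue
import Pool.Agent.Lib.MP_349e33_co.Apex

/-!
Graphs in which no two odd cycles share an edge.
-/

namespace Pool.Agent.Lib.MP_349e33_co

open SimpleGraph
open scoped ENNReal

set_option linter.unusedSectionVars false

/-- The complete tripartite graph with parts of sizes `1, s, s`. -/
def bigK (W : Type*) : SimpleGraph (Option (Fin 2 × W)) where
  Adj u v := (u = none ∧ v ≠ none) ∨ (u ≠ none ∧ v = none) ∨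
    ∃ a b : Fin 2 × W, u = some a ∧ v = some b ∧ a.1 ≠ b.1
  symm := ⟨by
    rintro u v (⟨h1, h2⟩ | ⟨h1, h2⟩ | ⟨a, b, h1, h2, h3⟩)
    · exact Or.inr (Or.inl ⟨h2, h1⟩)
    · exact Or.inl ⟨h2, h1⟩
    · exact Or.inr (Or.inr ⟨b, a, h2, h1, h3.symm⟩)⟩
  loopless := ⟨by
    rintro u (⟨h1, h2⟩ | ⟨h1, h2⟩ | ⟨a, b, h1, h2, h3⟩)
    · exact h2 h1
    · exact h1 h2
    · rw [h1, Option.some.injEq] at h2
      subst h2
      exact h3 rfl⟩

theorem cF_bigK (W : Type*) [Finite W] : cF (bigK W) ≤ 1 := by
  have h := cF_apex (bigK W) {none} (by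
    refine ⟨SimpleGraph.Coloring.mk (fun v => ((v : Option (Fin 2 × W)).get (by
      rw [Option.isSome_iff_ne_none]; exact v.2)).1) ?_⟩
    rintro ⟨u, hu⟩ ⟨v, hv⟩ huv
    change (bigK W).Adj u v at huv
    rcases huv with ⟨h1, _⟩ | ⟨_, h2⟩ | ⟨a, b, h1, h2, h3⟩
    · exact absurd h1 hu
    · exact absurd h2 hv
    · subst h1
      subst h2
      exact h3) (by
    intro u v _ a ha b hb _ _
    rw [Set.mem_singleton_iff] at ha hb
    rw [ha, hb])
  have h2 : cF ((bigK W).induce {none}) = 0 := by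
    apply cF_forest
    have : Subsingleton ({none} : Set (Option (Fin 2 × W))) := by
      constructor
      rintro ⟨a, ha⟩ ⟨b, hb⟩
      rw [Set.mem_singleton_iff] at ha hb
      subst ha
      subst hb
      rfl
    intro v c hc
    have h3 := hc.three_le_length
    cases c with
    | nil => simp at h3
    | cons h p =>
      exact SimpleGraph.Adj.ne h (Subsingleton.elim _ _)
  rwa [h2, add_zero] at h

theorem embed_aux {W : Type*} [DecidableEq W] (F : SimpleGraph W) (P : Set W) (v : Option W)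
    (c : W → Fin 2)
    (hc : ∀ s ∈ P, ∀ t ∈ P, some s ≠ v → some t ≠ v → F.Adj s t → c s ≠ c t) (σ : W ≃ W) :
    ∃ φ : SimpleGraph.Copy (F.induce P) (bigK W),
      ∀ w, φ w = if some (w : W) = v then none else some (c w, σ w) := by
  refine ⟨⟨⟨fun w => if some (w : W) = v then none else some (c w, σ w), ?_⟩, ?_⟩, fun w => rfl⟩
  · intro s t hst
    have hst' : F.Adj s t := hst
    change (bigK W).Adj (if some (s : W) = v then none else some (c s, σ s))
      (if some (t : W) = v then none else some (c t, σ t))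
    split_ifs with h1 h2 h2
    · exfalso
      have : (s : W) = t := by
        rw [← h2, Option.some.injEq] at h1
        exact h1
      exact hst'.ne this
    · exact Or.inl ⟨rfl, by simp⟩
    · exact Or.inr (Or.inl ⟨by simp, rfl⟩)
    · exact Or.inr (Or.inr ⟨_, _, rfl, rfl, hc s s.2 t t.2 h1 h2 hst'⟩)
  · intro s t hst
    change (if some (s : W) = v then none else some (c s, σ s)) =
      (if some (t : W) = v then none else some (c t, σ t)) at hst
    apply Subtype.ext
    split_ifs at hst with h1 h2 h2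
    · rw [← h2, Option.some.injEq] at h1
      exact h1
    · rw [Option.some.injEq, Prod.mk.injEq] at hst
      exact σ.injective hst.2

/-- Rooted embeddings into `K_{1,s,s}`. -/
theorem embed_bigK {W : Type*} [DecidableEq W] (F : SimpleGraph W) (P : Set W) (b : W)
    (hb : b ∈ P) (h1 : (F.induce (P \ {b})).Colorable 2)
    (h2 : (F.induce P).Colorable 2 ∨ ∃ v ∈ P, v ≠ b ∧ (F.induce (P \ {v})).Colorable 2)
    (x : Option (Fin 2 × W)) :
    ∃ φ : SimpleGraph.Copy (F.induce P) (bigK W), φ ⟨b, hb⟩ = x := by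
  classical
  -- extend a colouring of an induced subgraph
  have key : ∀ R : Set W, (F.induce R).Colorable 2 →
      ∃ c : W → Fin 2, ∀ s ∈ R, ∀ t ∈ R, F.Adj s t → c s ≠ c t := by
    rintro R ⟨c⟩
    refine ⟨fun w => if h : w ∈ R then c ⟨w, h⟩ else 0, ?_⟩
    intro s hs t ht hst
    simp only [dif_pos hs, dif_pos ht]
    exact c.valid (show (F.induce R).Adj ⟨s, hs⟩ ⟨t, ht⟩ from hst)
  cases x with
  | none =>
    obtain ⟨c, hc⟩ := key _ h1
    obtain ⟨φ, hφ⟩ := embed_aux F P (some b) c (by
      intro s hs t ht hsb htb hst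
      apply hc s ⟨hs, fun h => hsb (by rw [h])⟩ t ⟨ht, fun h => htb (by rw [h])⟩ hst)
      (Equiv.refl W)
    refine ⟨φ, ?_⟩
    rw [hφ]
    simp
  | some y =>
    obtain ⟨i, j⟩ := y
    obtain ⟨v, hv, c, hc⟩ : ∃ v : Option W, v ≠ some b ∧ ∃ c : W → Fin 2,
        ∀ s ∈ P, ∀ t ∈ P, some s ≠ v → some t ≠ v → F.Adj s t → c s ≠ c t := by
      rcases h2 with h2 | ⟨v, _, hvb, h2⟩
      · obtain ⟨c, hc⟩ := key _ h2
        exact ⟨none, by simp, c, fun s hs t ht _ _ hst => hc s hs t ht hst⟩
      · obtain ⟨c, hc⟩ := key _ h2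
        refine ⟨some v, by simpa using hvb, c, fun s hs t ht hsv htv hst => ?_⟩
        exact hc s ⟨hs, fun h => hsv (by rw [h])⟩ t ⟨ht, fun h => htv (by rw [h])⟩ hst
    obtain ⟨φ, hφ⟩ := embed_aux F P v (fun w => c w + (i - c b)) (by
      intro s hs t ht hsv htv hst heq
      exact hc s hs t ht hsv htv hst (add_right_cancel heq)) (Equiv.swap b j)
    refine ⟨φ, ?_⟩
    rw [hφ, if_neg (fun h => hv h.symm)]
    simp

/-- Connectedness of a set of vertices. -/
def ConnOn {W : Type*} (F : SimpleGraph W) (S : Set W) : Prop :=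
  ∀ u ∈ S, ∀ v ∈ S, ∃ p : F.Walk u v, ∀ z ∈ p.support, z ∈ S

theorem ConnOn.connected {W : Type*} {F : SimpleGraph W} {S : Set W} (h : ConnOn F S) {b : W}
    (hb : b ∈ S) : (F.induce S).Connected := by
  have : Nonempty S := ⟨⟨b, hb⟩⟩
  refine ⟨?_⟩
  rintro ⟨u, hu⟩ ⟨v, hv⟩
  obtain ⟨p, hp⟩ := h u hu v hv
  exact ⟨p.induce S hp⟩

theorem exists_cycle_of_not_colorable {W : Type*} [DecidableEq W] (F : SimpleGraph W) (S : Set W)
    (h : ¬ (F.induce S).Colorable 2) : ∃ (x : W) (C : F.Walk x x), C.IsCycle ∧ Odd C.length ∧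
      ∀ z ∈ C.support, z ∈ S := by
  classical
  rw [two_colorable_iff_forall_loop_even] at h
  push Not at h
  obtain ⟨u, w, hw⟩ := h
  rw [Nat.not_even_iff_odd] at hw
  obtain ⟨x, c, hc1, hc2, _⟩ := exists_odd_cycle w hw
  set f : (F.induce S) →g F := (SimpleGraph.Embedding.induce S).toHom with hf
  have hfinj : Function.Injective f := Subtype.val_injective
  refine ⟨f x, c.map f, hc1.map hfinj, ?_, ?_⟩
  · rw [Walk.length_map]
    exact hc2
  · intro z hz
    rw [Walk.support_map, List.mem_map] at hz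
    obtain ⟨y, _, rfl⟩ := hz
    exact y.2

theorem exists_edge_of_mem_cycle {W : Type*} {F : SimpleGraph W} {x v : W} (C : F.Walk x x)
    (hC : C.IsCycle) (hv : v ∈ C.support) : ∃ w, s(v, w) ∈ C.edges := by
  have h2 := hC.ncard_neighborSet_toSubgraph_eq_two hv
  have h3 : (C.toSubgraph.neighborSet v).Nonempty := by
    rw [Set.nonempty_iff_ne_empty]
    intro hcon
    rw [hcon, Set.ncard_empty] at h2
    exact absurd h2 (by decide)
  obtain ⟨w, hw⟩ := h3
  rw [Subgraph.mem_neighborSet, ← Subgraph.mem_edgeSet, Walk.mem_edges_toSubgraph] at hw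
  exact ⟨w, hw⟩

/-- Connected sets can be glued to anything at a vertex. -/
theorem attach_all {W : Type*} [Finite W] [DecidableEq W] (F : SimpleGraph W)
    (hF : OddCyclesEdgeDisjoint F) :
    ∀ n : ℕ, ∀ S : Set W, S.ncard = n → ConnOn F S → ∀ b ∈ S, ∀ A : Set W,
      Glued (bigK W) F A → b ∈ A → A ∩ S ⊆ {b} →
      (∀ a ∈ A, ∀ s ∈ S, F.Adj a s → a = b ∨ s = b) → Glued (bigK W) F (A ∪ S) := by
  classical
  intro n
  induction n using Nat.strong_induction_on with
  | _ n ih =>
  intro S hSn hS b hbS A hA hbA hAS hadj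
  by_cases hbip : (F.induce S).Colorable 2
  · -- the bipartite case
    refine Glued.glue A S b hA hbA hbS hAS hadj (hS.connected hbS) ?_
    intro x
    refine embed_bigK F S b hbS ?_ (Or.inl hbip) x
    obtain ⟨c⟩ := hbip
    exact ⟨SimpleGraph.Coloring.mk (fun w => c ⟨w, w.2.1⟩) (fun {u w} huw =>
      c.valid (show (F.induce S).Adj ⟨u, u.2.1⟩ ⟨w, w.2.1⟩ from huw))⟩
  -- an odd cycle
  obtain ⟨c₀, C, hC, hCodd, hCS⟩ := exists_cycle_of_not_colorable F S hbip
  let T : W → Set W := fun x => {w | ∃ p : F.Walk x w, (∀ z ∈ p.support, z ∈ S) ∧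
    ∀ e ∈ p.edges, e ∉ C.edges}
  have hTS : ∀ x, T x ⊆ S := by
    rintro x w ⟨p, hp, _⟩
    exact hp w p.end_mem_support
  have hTx : ∀ x ∈ S, x ∈ T x := by
    intro x hx
    refine ⟨Walk.nil, ?_, by simp⟩
    intro z hz
    rw [Walk.support_nil, List.mem_singleton] at hz
    rw [hz]
    exact hx
  have hCx : ∀ x ∈ C.support, x ∈ T x := fun x hx => hTx x (hCS x hx)
  have hTdisj : ∀ x ∈ C.support, ∀ y ∈ C.support, ∀ w, w ∈ T x → w ∈ T y → x = y := by
    rintro x hx y hy w ⟨p, hp1, hp2⟩ ⟨q, hq1, hq2⟩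
    apply no_ear hF C hC hCodd hx hy (p.append q.reverse)
    intro e he
    rw [Walk.edges_append, List.mem_append, Walk.edges_reverse, List.mem_reverse] at he
    rcases he with he | he
    · exact hp2 e he
    · exact hq2 e he
  have hText : ∀ x, ∀ s ∈ T x, ∀ t ∈ S, F.Adj s t → s(s, t) ∉ C.edges → t ∈ T x := by
    rintro x s ⟨p, hp1, hp2⟩ t ht hst hne
    refine ⟨p.concat hst, ?_, ?_⟩
    · intro z hz
      rw [Walk.support_concat, List.mem_append, List.mem_singleton] at hz
      rcases hz with hz | hz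
      · exact hp1 z hz
      · rw [hz]; exact ht
    · intro e he
      rw [Walk.edges_concat, List.concat_eq_append, List.mem_append, List.mem_singleton] at he
      rcases he with he | he
      · exact hp2 e he
      · rw [he]; exact hne
  have hTedge : ∀ x ∈ C.support, ∀ y ∈ C.support, x ≠ y → ∀ s ∈ T x, ∀ t ∈ T y, F.Adj s t →
      s = x ∧ t = y := by
    intro x hx y hy hxy s hs t ht hst
    by_cases he : s(s, t) ∈ C.edges
    · have hs' : s ∈ C.support := Walk.fst_mem_support_of_mem_edges _ he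
      have ht' : t ∈ C.support := Walk.snd_mem_support_of_mem_edges _ he
      exact ⟨hTdisj s hs' x hx s (hCx s hs') hs, hTdisj t ht' y hy t (hCx t ht') ht⟩
    · exact absurd (hTdisj x hx y hy t (hText x s hs t (hTS y ht) hst he) ht) hxy
  have hTcover : ∀ w ∈ S, ∃ x ∈ C.support, w ∈ T x := by
    intro w hw
    obtain ⟨p, hp⟩ := hS w hw c₀ (hCS c₀ C.start_mem_support)
    have hc₀ : c₀ ∈ C.support := C.start_mem_support
    have hmain : ∀ (w z : W) (p : F.Walk w z), z ∈ C.support → (∀ y ∈ p.support, y ∈ S) →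
        ∃ x ∈ C.support, w ∈ T x := by
      intro w z p hz hp
      induction p with
      | nil => exact ⟨_, hz, hCx _ hz⟩
      | @cons w w' z h p ih' =>
        obtain ⟨x, hx, hwx⟩ := ih' hz (fun y hy => hp y (by
          rw [Walk.support_cons]; exact List.mem_cons_of_mem _ hy))
        have hwS : w ∈ S := hp w (by rw [Walk.support_cons]; exact List.mem_cons_self)
        by_cases he : s(w, w') ∈ C.edges
        · have hw' : w ∈ C.support := Walk.fst_mem_support_of_mem_edges _ he
          exact ⟨w, hw', hCx w hw'⟩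
        · refine ⟨x, hx, hText x w' hwx w hwS h.symm ?_⟩
          rw [Sym2.eq_swap]
          exact he
    exact hmain w c₀ p hc₀ hp
  have hTconn : ∀ x, ConnOn F (T x) := by
    have hsub : ∀ (x u : W) (p : F.Walk x u), (∀ z ∈ p.support, z ∈ S) →
        (∀ e ∈ p.edges, e ∉ C.edges) → ∀ z ∈ p.support, z ∈ T x := by
      intro x u p hp1 hp2 z hz
      refine ⟨p.takeUntil z hz, fun y hy => hp1 y (p.support_takeUntil_subset hz hy),
        fun e he => hp2 e (p.edges_takeUntil_subset hz he)⟩
    rintro x u ⟨p, hp1, hp2⟩ v ⟨q, hq1, hq2⟩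
    refine ⟨p.reverse.append q, ?_⟩
    intro z hz
    rw [Walk.mem_support_append_iff, Walk.support_reverse, List.mem_reverse] at hz
    rcases hz with hz | hz
    · exact hsub x u p hp1 hp2 z hz
    · exact hsub x v q hq1 hq2 z hz
  have hother : ∀ x ∈ C.support, ∃ y ∈ C.support, y ≠ x := by
    intro x hx
    obtain ⟨w, hw⟩ := exists_edge_of_mem_cycle C hC hx
    have : F.Adj x w := C.adj_of_mem_edges hw
    exact ⟨w, Walk.snd_mem_support_of_mem_edges _ hw, this.ne'⟩
  have hcard : ∀ x ∈ C.support, (T x).ncard < n := by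
    intro x hx
    rw [← hSn]
    apply Set.ncard_lt_ncard _ (Set.toFinite S)
    refine ⟨hTS x, fun hcon => ?_⟩
    obtain ⟨y, hy, hyx⟩ := hother x hx
    exact hyx (hTdisj y hy x hx y (hCx y hy) (hcon (hCS y hy)))
  set P : Set W := {z | z ∈ C.support} with hP
  have hPconn : ConnOn F P := by
    intro u hu v hv
    refine ⟨(C.takeUntil u hu).reverse.append (C.takeUntil v hv), ?_⟩
    intro z hz
    rw [Walk.mem_support_append_iff, Walk.support_reverse, List.mem_reverse] at hz
    rcases hz with hz | hz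
    · exact C.support_takeUntil_subset hu hz
    · exact C.support_takeUntil_subset hv hz
  have hPbip : ∀ v ∈ P, (F.induce (P \ {v})).Colorable 2 := by
    intro v hv
    by_contra hcon
    obtain ⟨x, c, hc, hcodd, hcP⟩ := exists_cycle_of_not_colorable F (P \ {v}) hcon
    have hedge : ∀ e ∈ c.edges, e ∈ C.edges := by
      intro e he
      induction e with
      | _ s t =>
        by_contra hne
        have hs : s ∈ C.support := (hcP s (Walk.fst_mem_support_of_mem_edges _ he)).1
        have ht : t ∈ C.support := (hcP t (Walk.snd_mem_support_of_mem_edges _ he)).1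
        have hst : F.Adj s t := c.adj_of_mem_edges he
        exact hst.ne (hTdisj s hs t ht t (hText s s (hCx s hs) t (hCS t ht) hst hne) (hCx t ht))
    obtain ⟨w, hw⟩ := exists_edge_of_mem_cycle c hc c.start_mem_support
    obtain ⟨w', hw'⟩ := exists_edge_of_mem_cycle C hC hv
    have h1 := hF _ _ C c hC hc hCodd hcodd ⟨_, hedge _ hw, hw⟩ _ hw'
    exact (hcP v (Walk.fst_mem_support_of_mem_edges _ h1)).2 rfl
  -- assembly
  obtain ⟨x₀, hx₀, hbx₀⟩ := hTcover b hbS
  have hbP : ∀ z ∈ C.support, z = b → z = x₀ := by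
    intro z hz hzb
    exact hTdisj z hz x₀ hx₀ z (hCx z hz) (hzb ▸ hbx₀)
  have hA1 : Glued (bigK W) F (A ∪ T x₀) :=
    ih _ (hcard x₀ hx₀) (T x₀) rfl (hTconn x₀) b hbx₀ A hA hbA
      (fun z hz => hAS ⟨hz.1, hTS _ hz.2⟩) (fun a ha s hs has => hadj a ha s (hTS _ hs) has)
  have hA2 : Glued (bigK W) F ((A ∪ T x₀) ∪ P) := by
    refine Glued.glue (A ∪ T x₀) P x₀ hA1 (Or.inr (hCx x₀ hx₀)) hx₀ ?_ ?_
      (hPconn.connected hx₀) ?_
    · rintro z ⟨hz1 | hz1, hz2⟩
      · exact hbP z hz2 (hAS ⟨hz1, hCS z hz2⟩)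
      · exact hTdisj z hz2 x₀ hx₀ z (hCx z hz2) hz1
    · intro s hs p hp hsp
      have hmain : s ∈ T x₀ → s = x₀ ∨ p = x₀ := by
        intro hs'
        by_cases hpx : p = x₀
        · exact Or.inr hpx
        · exact Or.inl (hTedge x₀ hx₀ p hp (Ne.symm hpx) s hs' p (hCx p hp) hsp).1
      rcases hs with hs | hs
      · rcases hadj s hs p (hCS p hp) hsp with h | h
        · exact hmain (h ▸ hbx₀)
        · exact Or.inr (hbP p hp h)
      · exact hmain hs
    · intro x
      obtain ⟨y, hy, hyx⟩ := hother x₀ hx₀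
      exact embed_bigK F P x₀ hx₀ (hPbip x₀ hx₀) (Or.inr ⟨y, hy, hyx, hPbip y hy⟩) x
  have hA3 : ∀ Q : Finset W, (∀ y ∈ Q, y ∈ C.support ∧ y ≠ x₀) →
      Glued (bigK W) F (((A ∪ T x₀) ∪ P) ∪ ⋃ y ∈ Q, T y) := by
    intro Q
    induction Q using Finset.induction_on with
    | empty =>
      intro _
      simpa using hA2
    | insert y Q hyQ ihQ =>
      intro hQ
      have hy := hQ y (Finset.mem_insert_self _ _)
      have hQ' : ∀ z ∈ Q, z ∈ C.support ∧ z ≠ x₀ := fun z hz =>
        hQ z (Finset.mem_insert_of_mem hz)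
      have h1 := ihQ hQ'
      have hunion : (((A ∪ T x₀) ∪ P) ∪ ⋃ z ∈ insert y Q, T z) =
          ((((A ∪ T x₀) ∪ P) ∪ ⋃ z ∈ Q, T z) ∪ T y) := by
        rw [Finset.set_biUnion_insert, Set.union_comm (T y), ← Set.union_assoc]
      rw [hunion]
      have hbad : b ∉ T y := fun h => hy.2 (hTdisj y hy.1 x₀ hx₀ b h hbx₀)
      apply ih _ (hcard y hy.1) (T y) rfl (hTconn y) y (hCx y hy.1) _ h1
      · exact Or.inl (Or.inr hy.1)
      · rintro z ⟨hz1, hz2⟩
        rcases hz1 with ((hz1 | hz1) | hz1) | hz1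
        · exfalso
          have : z = b := hAS ⟨hz1, hTS _ hz2⟩
          exact hbad (this ▸ hz2)
        · exact absurd (hTdisj y hy.1 x₀ hx₀ z hz2 hz1) hy.2
        · exact hTdisj z hz1 y hy.1 z (hCx z hz1) hz2
        · rw [Set.mem_iUnion₂] at hz1
          obtain ⟨y', hy', hz'⟩ := hz1
          have : y' = y := hTdisj y' (hQ' y' hy').1 y hy.1 z hz' hz2
          exact absurd (this ▸ hy') hyQ
      · intro a ha s hs has
        have hx₀case : a ∈ T x₀ → a = y ∨ s = y := fun h =>
          Or.inr (hTedge x₀ hx₀ y hy.1 (Ne.symm hy.2) a h s hs has).2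
        rcases ha with ((ha | ha) | ha) | ha
        · rcases hadj a ha s (hTS _ hs) has with h | h
          · exact hx₀case (h ▸ hbx₀)
          · exact absurd (h ▸ hs) hbad
        · exact hx₀case ha
        · by_cases hay : a = y
          · exact Or.inl hay
          · exact Or.inr (hTedge a ha y hy.1 hay a (hCx a ha) s hs has).2
        · rw [Set.mem_iUnion₂] at ha
          obtain ⟨y', hy', ha'⟩ := ha
          by_cases hyy : y' = y
          · exact absurd (hyy ▸ hy') hyQ
          · exact Or.inr (hTedge y' (hQ' y' hy').1 y hy.1 hyy a ha' s hs has).2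
  have hfinal := hA3 (C.support.toFinset.erase x₀) (by
    intro y hy
    rw [Finset.mem_erase, List.mem_toFinset] at hy
    exact ⟨hy.2, hy.1⟩)
  convert hfinal using 1
  ext z
  constructor
  · rintro (hz | hz)
    · exact Or.inl (Or.inl (Or.inl hz))
    · obtain ⟨x, hx, hzx⟩ := hTcover z hz
      by_cases hxx : x = x₀
      · exact Or.inl (Or.inl (Or.inr (hxx ▸ hzx)))
      · right
        rw [Set.mem_iUnion₂]
        exact ⟨x, by rw [Finset.mem_erase, List.mem_toFinset]; exact ⟨hxx, hx⟩, hzx⟩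
  · rintro (((hz | hz) | hz) | hz)
    · exact Or.inl hz
    · exact Or.inr (hTS _ hz)
    · exact Or.inr (hCS z hz)
    · rw [Set.mem_iUnion₂] at hz
      obtain ⟨y, _, hzy⟩ := hz
      exact Or.inr (hTS _ hzy)

theorem glued_of_oddCyclesEdgeDisjoint {W : Type*} [Finite W] (F : SimpleGraph W)
    (hF : OddCyclesEdgeDisjoint F) : Glued (bigK W) F Set.univ := by
  classical
  have := Fintype.ofFinite W
  have hcomp : ∀ C : F.ConnectedComponent, Glued (bigK W) F C.supp := by
    intro C
    obtain ⟨b, hb⟩ := C.nonempty_supp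
    have hbase : Glued (bigK W) F {b} := by
      apply Glued.base
      obtain ⟨φ, _⟩ := embed_aux F {b} none (fun _ => 0) (by
        intro s hs t ht _ _ hst
        rw [Set.mem_singleton_iff] at hs ht
        rw [hs, ht] at hst
        exact absurd hst (F.loopless.irrefl _)) (Equiv.refl W)
      exact ⟨φ⟩
    have hconn : ConnOn F C.supp := by
      intro u hu v hv
      have huv : F.Reachable u v := by
        rw [ConnectedComponent.mem_supp_iff] at hu hv
        exact ConnectedComponent.exact (hu.trans hv.symm)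
      obtain ⟨p⟩ := huv
      refine ⟨p, fun z hz => ?_⟩
      rw [ConnectedComponent.mem_supp_iff] at hu ⊢
      rw [← hu]
      exact ConnectedComponent.sound (p.takeUntil z hz).reachable.symm
    have h1 := attach_all F hF _ C.supp rfl hconn b hb {b} hbase rfl
      (fun z hz => hz.1) (fun a ha s _ _ => Or.inl ha)
    have h2 : ({b} : Set W) ∪ C.supp = C.supp := by
      rw [Set.union_eq_right, Set.singleton_subset_iff]
      exact hb
    rwa [h2] at h1
  have hall : ∀ K : Finset F.ConnectedComponent, Glued (bigK W) F (⋃ C ∈ K, C.supp) := by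
    intro K
    induction K using Finset.induction_on with
    | empty =>
      apply Glued.base
      have : IsEmpty (⋃ C ∈ (∅ : Finset F.ConnectedComponent), C.supp : Set W) := by
        simp
      exact SimpleGraph.IsContained.of_isEmpty
    | insert C K hCK ihK =>
      rw [Finset.set_biUnion_insert]
      apply Glued.disj _ _ (hcomp C) ihK
      intro s hs p hp
      rw [Set.mem_iUnion₂] at hp
      obtain ⟨C', hC', hp'⟩ := hp
      rw [ConnectedComponent.mem_supp_iff] at hs hp'
      have hne : C ≠ C' := fun h => hCK (h ▸ hC')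
      constructor
      · intro hsp
        apply hne
        rw [← hs, ← hp', hsp]
      · intro hsp
        apply hne
        rw [← hs, ← hp']
        exact ConnectedComponent.sound hsp.reachable
  have h := hall Finset.univ
  convert h using 1
  ext z
  simp

/-- If no two odd cycles of `F` share an edge then `c(F) ≤ 1`. -/
theorem cF_oddCyclesEdgeDisjoint {W : Type*} [Finite W] (F : SimpleGraph W)
    (hF : OddCyclesEdgeDisjoint F) : cF F ≤ 1 :=
  (cF_glued (glued_of_oddCyclesEdgeDisjoint F hF)).trans (cF_bigK W)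

end Pool.Agent.Lib.MP_349e33_co
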